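import Pool.Agent.NH33.Ir.Rep

/-!
# Relations between the conjugates of several numbers: balance
-/

set_option autoImplicit false
set_option linter.unusedSectionVars false

namespace Pool.Agent.NH33.Ir

open NumberField Polynomial Module Pool.Agent.TH121.KT Pool.Agent.Y103.Hk Pool.Agent.Y103.Sh

variable {r : ℕ} {E : Fin r → Type} [∀ i, Field (E i)] [∀ i, NumberField (E i)]
  [∀ i, IsCMField (E i)] {p : ℕ} [Fact p.Prime] {ι : Qb →+* PadicAlgCl p} {α : ∀ i, E i}
  {𝓛 : Set (IntermediateField ℚ Qb)}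

lemma bot_stable : IsStable ⊥ := by
  intro g x hx
  obtain ⟨y, rfl⟩ := IntermediateField.mem_bot.1 hx
  rw [AlgEquiv.commutes]
  exact IntermediateField.algebraMap_mem _ _

lemma noInv_bot (E : Type) [Field E] [NumberField E] [IsCMField E] : NoInv E ⊥ := by
  refine noInv_of_real bot_stable ?_
  intro σ x hx
  obtain ⟨y, hy⟩ := IntermediateField.mem_bot.1 hx
  have h1 : x = (y : E) := by
    apply σ.injective
    rw [← hy, map_ratCast]
    exact (eq_ratCast (algebraMap ℚ Qb) y)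
  rw [h1, map_ratCast]

theorem FamOK.insert_bot (H : FamOK ι α 𝓛) : FamOK ι α (insert ⊥ 𝓛) where
  unitary := H.unitary
  free := H.free
  stable := by
    rintro L (rfl | hL)
    · exact bot_stable
    · exact H.stable L hL
  fields := by
    rintro i L (rfl | hL)
    · exact noInv_bot _
    · exact H.fields i L hL
  pair := H.pair

/-- All relations between the conjugates of the numbers and functions which are invariant under the
automorphisms over the fields are trivial. -/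
structure Triv (ι : Qb →+* PadicAlgCl p) (α : ∀ i, E i)
    (𝓛 : Set (IntermediateField ℚ Qb)) : Prop where
  unitary : ∀ i, ∀ φ : E i →+* ℂ, ‖φ (α i)‖ = 1
  zero : ∀ (S : List (IntermediateField ℚ Qb)) (f : ∀ i, (E i →+* Qb) → ℚ),
    (∀ L ∈ S, L ∈ insert ⊥ 𝓛) → (∀ i, IsOddFun (f i)) →
    SumOf S (fun g => ∑ i, Lg ι (α i) (f i) g) → ∀ i, f i = 0

theorem FamOK.triv (H : FamOK ι α 𝓛) : Triv ι α 𝓛 where
  unitary := H.unitary
  zero S f hS hf hSum := zero_fam H.insert_bot _ S f hS le_rfl hf hSum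

lemma sumOf_list (C c : ℝ) (l : List Qb) (hl : ∀ β ∈ l, ∃ L ∈ 𝓛, SlopeRoot ι L β) :
    ∃ S : List (IntermediateField ℚ Qb), (∀ L ∈ S, L ∈ insert ⊥ 𝓛) ∧
      SumOf S fun g => C + (l.map fun β => c * Real.log ‖ι (g β)‖).sum := by
  induction l with
  | nil =>
    refine ⟨[⊥], fun L hL => Or.inl (List.mem_singleton.1 hL), fun _ => C, fun _ => 0, ?_, ?_, ?_⟩
    · intro h _ g
      rfl
    · intro g
      rfl
    · intro g
      simp
  | cons β l ih =>
    obtain ⟨S, hS, hsum⟩ := ih fun β' hβ' => hl β' (List.mem_cons_of_mem _ hβ')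
    obtain ⟨L, hL, hβ⟩ := hl β List.mem_cons_self
    refine ⟨L :: S, ?_, _, _, leftInv_log hβ c, hsum, fun g => ?_⟩
    · intro L' hL'
      rcases List.mem_cons.1 hL' with rfl | hL'
      · exact Or.inr hL
      · exact hS L' hL'
    · simp only [List.map_cons, List.sum_cons]
      ring

/-- **Balance.** -/
theorem balanced_gen (H : Triv ι α 𝓛) {N : ∀ i, (E i →+* Qb) → ℕ}
    {w : Fin r → ℕ} (hw : ∀ i, 0 < w i) {W : ℕ} {l : List Qb}
    (hl : ∀ β ∈ l, ∃ L ∈ 𝓛, SlopeRoot ι L β) {x₀ : ℚ}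
    (hrel : (∏ i, ∏ σ : E i →+* Qb, (σ (α i)) ^ (w i * N i σ)) * l.prod ^ W = (x₀ : Qb))
    (hl0 : l.prod ≠ 0) (i : Fin r) (σ : E i →+* Qb) : N i σ = N i (cj σ) := by
  classical
  have hsum : ∀ g : GQ, ∑ i, (w i : ℝ) * FF ι (α i) (N i) g +
      W * (l.map fun β => Real.log ‖ι (g β)‖).sum = Real.log ‖ι (x₀ : Qb)‖ := by
    intro g
    have h1 := congrArg (fun z => Real.log ‖ι (g z)‖) hrel
    simp only [map_mul, map_pow, map_prod, norm_mul, norm_pow, norm_prod, map_ratCast] at h1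
    have hne : ‖ι (g l.prod)‖ ≠ 0 := by
      rw [norm_ne_zero_iff, ne_eq, map_eq_zero, map_eq_zero]
      exact hl0
    have hne1 : ∀ i (σ : E i →+* Qb), ‖ι (g (σ (α i)))‖ ^ (w i * N i σ) ≠ 0 := fun i σ =>
      pow_ne_zero _ (norm_pos' (H.unitary i) (act g σ)).ne'
    rw [Real.log_mul, Real.log_prod, Real.log_pow, log_list g l hl0] at h1
    rotate_left
    · intro i _
      exact Finset.prod_ne_zero_iff.2 fun σ _ => hne1 i σ
    · exact Finset.prod_ne_zero_iff.2 fun i _ => Finset.prod_ne_zero_iff.2 fun σ _ => hne1 i σ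
    · exact pow_ne_zero _ hne
    rw [map_ratCast, ← h1]
    congr 1
    refine Finset.sum_congr rfl fun i _ => ?_
    rw [Real.log_prod]
    · unfold FF
      rw [Finset.mul_sum]
      refine Finset.sum_congr rfl fun σ _ => ?_
      rw [Real.log_pow]
      push_cast
      ring
    · intro σ _
      exact hne1 i σ
  let f : ∀ i, (E i →+* Qb) → ℚ := fun i σ => (w i : ℚ) * (TH121.KT.odd (N i) σ : ℤ)
  have hf : ∀ i, IsOddFun (f i) := by
    intro i σ
    change (w i : ℚ) * (TH121.KT.odd (N i) (cj σ) : ℤ) = - ((w i : ℚ) * (TH121.KT.odd (N i) σ : ℤ))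
    rw [odd_cj]
    push_cast
    ring
  have hLg : ∀ i g, Lg ι (α i) (f i) g = (w i : ℝ) * (2 * FF ι (α i) (N i) g) := by
    intro i g
    rw [← two_FF (H.unitary i) (N i) g]
    unfold Lg
    rw [Finset.mul_sum]
    refine Finset.sum_congr rfl fun σ _ => ?_
    simp only [f]
    push_cast
    ring
  obtain ⟨S, hS, hSum⟩ := sumOf_list (ι := ι) (2 * Real.log ‖ι (x₀ : Qb)‖) (-(2 * W : ℝ)) l hl
  have h0 := H.zero S f hS hf (by
    refine SumOf.congr hSum fun g => ?_
    change ∑ i, Lg ι (α i) (f i) g = _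
    rw [Finset.sum_congr rfl fun i _ => hLg i g, ← hsum g, List.sum_map_mul_left]
    have h2 : ∑ i, (w i : ℝ) * (2 * FF ι (α i) (N i) g) =
        2 * ∑ i, (w i : ℝ) * FF ι (α i) (N i) g := by
      rw [Finset.mul_sum]
      exact Finset.sum_congr rfl fun i _ => by ring
    rw [h2]
    ring) i
  have h1 := congrFun h0 σ
  change (w i : ℚ) * (TH121.KT.odd (N i) σ : ℤ) = 0 at h1
  have h2 := (mul_eq_zero.1 h1).resolve_left (Nat.cast_ne_zero.2 (hw i).ne')
  have h3 : TH121.KT.odd (N i) σ = 0 := by exact_mod_cast h2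
  unfold TH121.KT.odd at h3
  omega

/-- **Balance**, in an algebraically closed field. -/
theorem balanced_closed (H : Triv ι α 𝓛) {Ω : Type*} [Field Ω] [CharZero Ω]
    [IsAlgClosed Ω] {N : ∀ i, (E i →+* Ω) → ℕ} {w : Fin r → ℕ}
    (hw : ∀ i, 0 < w i) {W : ℕ} {ν : Ω} (hν : IsSlopeProduct ι 𝓛 ν) (hν0 : ν ≠ 0) {x₀ : ℚ}
    (hrel : (∏ i, ∏ σ : E i →+* Ω, (σ (α i)) ^ (w i * N i σ)) * ν ^ W = (x₀ : Ω))
    (i : Fin r) (σ : E i →+* Ω) : N i σ = N i (cj σ) := by
  classical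
  let τ : Qb →+* Ω := (IsAlgClosed.lift : Qb →ₐ[ℚ] Ω).toRingHom
  obtain ⟨t, l, ht, hνl, hl⟩ := hν
  obtain ⟨l', hl', hl'L⟩ := exists_list τ l hl
  have hbij : ∀ i, Function.Bijective (fun ρ : E i →+* Qb => τ.comp ρ) := by
    intro i
    constructor
    · intro ρ ρ' h
      ext x
      exact τ.injective (RingHom.congr_fun h x)
    · intro σ
      obtain ⟨ρ, hρ⟩ := exists_lift τ σ
      exact ⟨ρ, hρ⟩
  let N' : ∀ i, (E i →+* Qb) → ℕ := fun i ρ => N i (τ.comp ρ)
  have hprod : ∏ i, ∏ σ : E i →+* Ω, (σ (α i)) ^ (t * w i * N i σ) =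
      τ (∏ i, ∏ ρ : E i →+* Qb, (ρ (α i)) ^ (t * w i * N' i ρ)) := by
    rw [map_prod]
    refine Finset.prod_congr rfl fun i _ => ?_
    rw [map_prod]
    refine (Fintype.prod_equiv (Equiv.ofBijective _ (hbij i)) _ _ fun ρ => ?_).symm
    rw [map_pow]
    rfl
  have hlprod : l.prod = τ l'.prod := by rw [← hl', map_list_prod]
  have hl0 : l'.prod ≠ 0 := by
    intro h
    rw [h, map_zero, ← hνl] at hlprod
    exact pow_ne_zero _ hν0 hlprod
  have hbal := balanced_gen H (N := N') (w := fun i => t * w i) (W := W) (l := l')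
    (x₀ := x₀ ^ t) (fun i => Nat.mul_pos ht (hw i)) hl'L ?_ hl0
  · obtain ⟨ρ, rfl⟩ := (hbij i).2 σ
    exact hbal i ρ
  · apply τ.injective
    rw [map_mul, ← hprod, map_pow, ← hlprod, ← hνl, map_ratCast, Rat.cast_pow, ← hrel, mul_pow,
      ← Finset.prod_pow, ← pow_mul, ← pow_mul, mul_comm t W]
    congr 1
    refine Finset.prod_congr rfl fun i _ => ?_
    rw [← Finset.prod_pow]
    refine Finset.prod_congr rfl fun σ _ => ?_
    rw [← pow_mul]
    congr 1
    ring

end Pool.Agent.NH33.Ir
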