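import Mathlib

/-!
# Circulant lemmas with rational coefficients
-/

set_option autoImplicit false

namespace Pool.Agent.NH33.Ir

open Finset Polynomial

lemma coeff_range {n : ℕ} (w : ℕ → ℚ) (i : ℕ) :
    (∑ i ∈ Finset.range n, C (w i) * X ^ i : ℚ[X]).coeff i = if i < n then w i else 0 := by
  rw [Polynomial.finsetSum_coeff]
  simp only [coeff_C_mul, coeff_X_pow]
  by_cases hi : i < n
  · rw [if_pos hi, Finset.sum_eq_single i]
    · simp
    · intro b _ hb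
      simp [Ne.symm hb]
    · intro hcon
      exact absurd (Finset.mem_range.2 hi) hcon
  · rw [if_neg hi]
    refine Finset.sum_eq_zero fun b hb => ?_
    have : i ≠ b := by
      intro hib
      rw [Finset.mem_range] at hb
      omega
    simp [this]

theorem const_of_zeta {ℓ : ℕ} (hℓ : ℓ.Prime) {ζ : ℂ} (hζ : IsPrimitiveRoot ζ ℓ) (w : ℕ → ℚ)
    (h : ∑ i ∈ Finset.range ℓ, (w i : ℂ) * ζ ^ i = 0) : ∀ i < ℓ, w i = w 0 := by
  set P : ℚ[X] := ∑ i ∈ Finset.range ℓ, C (w i) * X ^ i with hP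
  have hcoeff : ∀ i, P.coeff i = if i < ℓ then w i else 0 := coeff_range w
  have hzero : aeval ζ P = 0 := by
    rw [hP, map_sum]
    rw [← h]
    refine Finset.sum_congr rfl fun i _ => ?_
    simp
  have hdvd : cyclotomic ℓ ℚ ∣ P := by
    rw [cyclotomic_eq_minpoly_rat hζ hℓ.pos]
    exact minpoly.dvd ℚ ζ hzero
  obtain ⟨Q, hQ⟩ := hdvd
  have : Fact ℓ.Prime := ⟨hℓ⟩
  have hcyc : ∀ i, (cyclotomic ℓ ℚ).coeff i = if i < ℓ then 1 else 0 := by
    intro i
    rw [cyclotomic_prime]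
    have h1 := coeff_range (n := ℓ) (fun _ => 1) i
    simpa using h1
  have hdegc : (cyclotomic ℓ ℚ).natDegree = ℓ - 1 := by
    rw [natDegree_cyclotomic, Nat.totient_prime hℓ]
  have hdegP : P.natDegree ≤ ℓ - 1 := by
    rw [natDegree_le_iff_coeff_eq_zero]
    intro N hN
    rw [hcoeff, if_neg (by have := hℓ.pos; omega)]
  have hQC : ∃ a : ℚ, Q = C a := by
    by_cases hQ0 : Q = 0
    · exact ⟨0, by rw [hQ0, map_zero]⟩
    · have h1 := natDegree_mul (cyclotomic_ne_zero ℓ ℚ) hQ0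
      rw [← hQ, hdegc] at h1
      exact ⟨Q.coeff 0, eq_C_of_natDegree_eq_zero (by omega)⟩
  obtain ⟨a, rfl⟩ := hQC
  have hall : ∀ i < ℓ, w i = a := by
    intro i hi
    have h1 := hcoeff i
    rw [if_pos hi, hQ, coeff_mul_C, hcyc, if_pos hi, one_mul] at h1
    exact h1.symm
  intro i hi
  rw [hall i hi, hall 0 hℓ.pos]

/-- a vanishing sum of the first half of the powers of a root of unity of order a power of two -/
theorem zero_of_zeta {k : ℕ} {ζ : ℂ} (hζ : IsPrimitiveRoot ζ (2 ^ (k + 1))) (w : ℕ → ℚ)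
    (h : ∑ i ∈ Finset.range (2 ^ k), (w i : ℂ) * ζ ^ i = 0) : ∀ i < 2 ^ k, w i = 0 := by
  set P : ℚ[X] := ∑ i ∈ Finset.range (2 ^ k), C (w i) * X ^ i with hP
  have hcoeff : ∀ i, P.coeff i = if i < 2 ^ k then w i else 0 := coeff_range w
  have hzero : aeval ζ P = 0 := by
    rw [hP, map_sum]
    rw [← h]
    refine Finset.sum_congr rfl fun i _ => ?_
    simp
  have hdvd : cyclotomic (2 ^ (k + 1)) ℚ ∣ P := by
    rw [cyclotomic_eq_minpoly_rat hζ (by positivity)]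
    exact minpoly.dvd ℚ ζ hzero
  have hP0 : P = 0 := by
    by_contra hne
    have h1 := natDegree_le_of_dvd hdvd hne
    rw [natDegree_cyclotomic, Nat.totient_prime_pow_succ Nat.prime_two] at h1
    have h2 : P.natDegree < 2 ^ k := by
      rw [natDegree_lt_iff_degree_lt hne, degree_lt_iff_coeff_zero]
      intro m hm
      rw [hcoeff, if_neg (by exact_mod_cast not_lt.2 hm)]
    simp at h1
    omega
  intro i hi
  have h1 := hcoeff i
  rw [hP0, coeff_zero, if_pos hi] at h1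
  exact h1.symm

theorem sum_shift {M : Type*} [AddCommMonoid M] {ℓ : ℕ} (f : ℕ → M) (hf : ∀ i, f (i + ℓ) = f i)
    (j : ℕ) : ∑ i ∈ Finset.range ℓ, f (i + j) = ∑ i ∈ Finset.range ℓ, f i := by
  induction j with
  | zero => simp
  | succ j ih =>
    rw [← ih]
    have h1 : ∑ i ∈ Finset.range (ℓ + 1), f (i + j) =
        ∑ i ∈ Finset.range ℓ, f (i + 1 + j) + f (0 + j) := Finset.sum_range_succ' _ _
    have h2 : ∑ i ∈ Finset.range (ℓ + 1), f (i + j) =
        ∑ i ∈ Finset.range ℓ, f (i + j) + f (ℓ + j) := Finset.sum_range_succ _ _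
    rcases Nat.eq_zero_or_pos ℓ with h0 | h0
    · subst h0; simp
    · obtain ⟨m, rfl⟩ : ∃ m, ℓ = m + 1 := ⟨ℓ - 1, by omega⟩
      rw [Finset.sum_range_succ (fun i => f (i + (j + 1))), Finset.sum_range_succ' (fun i => f (i + j))]
      congr 1
      · refine Finset.sum_congr rfl fun i _ => ?_
        congr 1
        omega
      · have := hf j
        rw [zero_add, ← this]
        congr 1
        omega

/-- the product of the two Fourier coefficients is zero -/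
theorem fourier_mul {n : ℕ} {ζ : ℂ} (hζ : ζ ^ n = 1) (hζ0 : ζ ≠ 0) (a w : ℕ → ℚ)
    (hw : ∀ i, w (i + n) = w i) (h : ∀ j, ∑ i ∈ Finset.range n, a i * w (i + j) = 0) :
    (∑ i ∈ Finset.range n, (a i : ℂ) * (ζ⁻¹) ^ i) * ∑ j ∈ Finset.range n, (w j : ℂ) * ζ ^ j =
      0 := by
  set W : ℂ := ∑ j ∈ Finset.range n, (w j : ℂ) * ζ ^ j with hW
  have h1 : ∀ i, ∑ j ∈ Finset.range n, ζ ^ j * (w (i + j) : ℂ) = (ζ⁻¹) ^ i * W := by
    intro i
    have h2 := sum_shift (ℓ := n) (fun j => (w j : ℂ) * ζ ^ j) (fun j => by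
      rw [hw, pow_add, hζ, mul_one]) i
    rw [hW, ← h2, Finset.mul_sum]
    refine Finset.sum_congr rfl fun j _ => ?_
    rw [add_comm j i, pow_add, inv_pow]
    field_simp
  have h3 : ∑ j ∈ Finset.range n, ζ ^ j * ((∑ i ∈ Finset.range n, a i * w (i + j) : ℚ) : ℂ) = 0 := by
    refine Finset.sum_eq_zero fun j _ => ?_
    rw [h j]
    simp
  rw [← h3]
  push_cast
  simp only [Finset.mul_sum]
  rw [Finset.sum_comm, Finset.sum_mul]
  refine Finset.sum_congr rfl fun i _ => ?_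
  rw [mul_assoc, ← h1 i, Finset.mul_sum]
  refine Finset.sum_congr rfl fun j _ => ?_
  ring

theorem circ {ℓ : ℕ} (hℓ : ℓ.Prime) (a w : ℕ → ℚ) (hw : ∀ i, w (i + ℓ) = w i)
    (h : ∀ j, ∑ i ∈ Finset.range ℓ, a i * w (i + j) = 0) :
    (∀ i < ℓ, a i = a 0) ∨ ∀ i < ℓ, w i = w 0 := by
  have hℓ0 : ℓ ≠ 0 := hℓ.ne_zero
  set ζ : ℂ := Complex.exp (2 * Real.pi * Complex.I / ℓ) with hζdef
  have hζ : IsPrimitiveRoot ζ ℓ := Complex.isPrimitiveRoot_exp ℓ hℓ0
  have hζ0 : ζ ≠ 0 := hζ.ne_zero hℓ0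
  rcases mul_eq_zero.1 (fourier_mul hζ.pow_eq_one hζ0 a w hw h) with h3 | h3
  · exact Or.inl (const_of_zeta hℓ hζ.inv a h3)
  · exact Or.inr (const_of_zeta hℓ hζ w h3)

/-- cyclic relations of length a power of two between odd functions -/
theorem circ_two {k : ℕ} (a w : ℕ → ℚ) (ha : ∀ i, a (i + 2 ^ k) = - a i)
    (hw : ∀ i, w (i + 2 ^ k) = - w i)
    (h : ∀ j, ∑ i ∈ Finset.range (2 ^ (k + 1)), a i * w (i + j) = 0) :
    (∀ i < 2 ^ k, a i = 0) ∨ ∀ i < 2 ^ k, w i = 0 := by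
  have hℓ0 : 2 ^ (k + 1) ≠ 0 := by positivity
  set ζ : ℂ := Complex.exp (2 * Real.pi * Complex.I / (2 ^ (k + 1) : ℕ)) with hζdef
  have hζ : IsPrimitiveRoot ζ (2 ^ (k + 1)) := Complex.isPrimitiveRoot_exp _ hℓ0
  have hζ0 : ζ ≠ 0 := hζ.ne_zero hℓ0
  have hhalf : ∀ (ξ : ℂ), IsPrimitiveRoot ξ (2 ^ (k + 1)) → ∀ b : ℕ → ℚ,
      (∀ i, b (i + 2 ^ k) = - b i) → ∑ i ∈ Finset.range (2 ^ (k + 1)), (b i : ℂ) * ξ ^ i = 0 →
      ∀ i < 2 ^ k, b i = 0 := by
    intro ξ hξ b hb h0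
    have hm : ξ ^ (2 ^ k) = -1 := by
      have h1 : (ξ ^ (2 ^ k)) ^ 2 = 1 := by
        rw [← pow_mul, ← pow_succ, hξ.pow_eq_one]
      rw [sq] at h1
      rcases mul_self_eq_one_iff.1 h1 with h2 | h2
      · exfalso
        have h3 := Nat.le_of_dvd (by positivity) (hξ.dvd_of_pow_eq_one _ h2)
        have h4 : 2 ^ k < 2 ^ (k + 1) := Nat.pow_lt_pow_right (by norm_num) (by omega)
        omega
      · exact h2
    refine zero_of_zeta hξ b ?_
    have h1 : (2 : ℕ) ^ (k + 1) = 2 ^ k + 2 ^ k := by ring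
    rw [h1, Finset.sum_range_add] at h0
    have h2 : ∀ i, ((b (2 ^ k + i) : ℚ) : ℂ) * ξ ^ (2 ^ k + i) = (b i : ℂ) * ξ ^ i := by
      intro i
      rw [add_comm (2 ^ k) i, hb, pow_add, hm]
      push_cast
      ring
    simp only [h2] at h0
    have h3 : (2 : ℂ) * ∑ i ∈ Finset.range (2 ^ k), (b i : ℂ) * ξ ^ i = 0 := by
      rw [two_mul]
      exact h0
    exact (mul_eq_zero.1 h3).resolve_left two_ne_zero
  have hper : ∀ i, w (i + 2 ^ (k + 1)) = w i := by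
    intro i
    have h1 : i + 2 ^ (k + 1) = i + 2 ^ k + 2 ^ k := by ring
    rw [h1, hw, hw, neg_neg]
  rcases mul_eq_zero.1 (fourier_mul hζ.pow_eq_one hζ0 a w hper h) with h3 | h3
  · exact Or.inl (hhalf _ hζ.inv a ha h3)
  · exact Or.inr (hhalf _ hζ w hw h3)

end Pool.Agent.NH33.Ir
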