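import Pool.Agent.NH33.Ir.Rep
import Pool.Agent.W517.K3.Circ

/-!
# Criteria for the irreducibility of the odd representation
-/

set_option autoImplicit false
set_option linter.unusedSectionVars false

namespace Pool.Agent.NH33.Ir

open NumberField Polynomial Module Pool.Agent.TH121.KT Pool.Agent.Y103.Hk Pool.Agent.Y103.Sh

variable {E : Type} [Field E] [NumberField E] [IsCMField E]

lemma sum_act {M : Type*} [AddCommMonoid M] (g : GQ) (F : (E →+* Qb) → M) :
    ∑ σ : E →+* Qb, F (act g σ) = ∑ σ : E →+* Qb, F σ :=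
  Fintype.sum_equiv ⟨act g, act g⁻¹, act_inv_act g, act_act_inv g⟩ _ _ fun _ => rfl

/-- the eigenvalues of an eigenfunction are signs -/
lemma sign_of_line {f : (E →+* Qb) → ℚ} (hf0 : f ≠ 0) {g : GQ} {c : ℚ}
    (hc : tl g f = c • f) : c = 1 ∨ c = -1 := by
  have h1 : ∑ σ : E →+* Qb, (f (act g σ)) ^ 2 = ∑ σ, (f σ) ^ 2 := sum_act g fun σ => (f σ) ^ 2
  have h2 : ∀ σ, f (act g σ) = c * f σ := fun σ => congrFun hc σ
  have h3 : ∑ σ : E →+* Qb, (f (act g σ)) ^ 2 = c ^ 2 * ∑ σ, (f σ) ^ 2 := by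
    rw [Finset.mul_sum]
    refine Finset.sum_congr rfl fun σ _ => ?_
    rw [h2, mul_pow]
  have h4 : 0 < ∑ σ : E →+* Qb, (f σ) ^ 2 := by
    obtain ⟨σ, hσ⟩ : ∃ σ, f σ ≠ 0 := by
      by_contra hcon
      push Not at hcon
      exact hf0 (funext hcon)
    exact Finset.sum_pos' (fun _ _ => sq_nonneg _) ⟨σ, Finset.mem_univ _, by positivity⟩
  rw [h3] at h1
  have h5 : c ^ 2 = 1 := by
    have h6 : (c ^ 2 - 1) * ∑ σ : E →+* Qb, (f σ) ^ 2 = 0 := by linarith
    rcases mul_eq_zero.1 h6 with h | h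
    · linarith
    · exact absurd h h4.ne'
  rw [sq] at h5
  exact mul_self_eq_one_iff.1 h5

/-- **An invariant line of odd functions gives an imaginary quadratic field.** -/
theorem quadratic_of_line {f : (E →+* Qb) → ℚ} (hf : IsOddFun f) (hf0 : f ≠ 0)
    (hline : ∀ g : GQ, ∃ c : ℚ, tl g f = c • f) : ¬ NoImaginaryQuadratic E := by
  classical
  intro hno
  obtain ⟨σ₀, hσ₀⟩ : ∃ σ, f σ ≠ 0 := by
    by_contra hcon
    push Not at hcon
    exact hf0 (funext hcon)
  have hsgn : ∀ g : GQ, tl g f = f ∨ tl g f = - f := by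
    intro g
    obtain ⟨c, hc⟩ := hline g
    rcases sign_of_line hf0 hc with h | h
    · left; rw [hc, h, one_smul]
    · right; rw [hc, h, neg_one_smul]
  -- an element with nonzero weighted trace
  obtain ⟨z, hz⟩ : ∃ z : E, ∑ σ : E →+* Qb, ((f σ : ℚ) : Qb) * σ z ≠ 0 := by
    by_contra hcon
    push Not at hcon
    have hlin := linearIndependent_monoidHom E Qb
    have h1 : LinearIndependent Qb (fun σ : E →+* Qb => ((σ : E →* Qb) : E → Qb)) :=
      hlin.comp (fun σ : E →+* Qb => (σ : E →* Qb)) (by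
        intro a b hab
        ext x
        exact DFunLike.congr_fun hab x)
    rw [Fintype.linearIndependent_iff] at h1
    have h2 := h1 (fun σ => ((f σ : ℚ) : Qb)) (by
      funext x
      simp only [Finset.sum_apply, Pi.smul_apply, smul_eq_mul, Pi.zero_apply]
      exact hcon x) σ₀
    exact hσ₀ (by exact_mod_cast h2)
  set s : Qb := ∑ σ : E →+* Qb, ((f σ : ℚ) : Qb) * σ z with hs
  have hgs : ∀ g : GQ, g s = ∑ σ : E →+* Qb, ((f (act g⁻¹ σ) : ℚ) : Qb) * σ z := by
    intro g
    rw [hs, map_sum]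
    refine Fintype.sum_equiv ⟨act g, act g⁻¹, act_inv_act g, act_act_inv g⟩ _ _ fun σ => ?_
    change g (((f σ : ℚ) : Qb) * σ z) = ((f (act g⁻¹ (act g σ)) : ℚ) : Qb) * (act g σ) z
    rw [act_inv_act, map_mul, map_ratCast]
    rfl
  have hsq : ∀ g : GQ, (tl g⁻¹ f = f ∧ g s = s) ∨ (tl g⁻¹ f = - f ∧ g s = - s) := by
    intro g
    rcases hsgn g⁻¹ with h | h
    · left
      refine ⟨h, ?_⟩
      rw [hgs]
      refine Finset.sum_congr rfl fun σ _ => ?_
      have := congrFun h σ
      change f (act g⁻¹ σ) = f σ at this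
      rw [this]
    · right
      refine ⟨h, ?_⟩
      rw [hgs, hs, ← Finset.sum_neg_distrib]
      refine Finset.sum_congr rfl fun σ _ => ?_
      have := congrFun h σ
      change f (act g⁻¹ σ) = - f σ at this
      rw [this]
      push_cast
      ring
  -- the element of `E`
  obtain ⟨x, hx⟩ : ∃ x : E, σ₀ x = s := by
    have h1 : s ∈ σ₀.toRatAlgHom.fieldRange := by
      refine mem_of_fixed _ fun h hh => ?_
      have h2 : act h σ₀ = σ₀ := by
        ext y
        exact hh (σ₀ y) ⟨y, rfl⟩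
      rcases hsq h with h3 | h3
      · exact h3.2
      · exfalso
        have h4 := congrFun h3.1 σ₀
        change f (act h⁻¹ σ₀) = - f σ₀ at h4
        have h5 : act h⁻¹ σ₀ = σ₀ := by
          conv_lhs => rw [← h2]
          exact act_inv_act h σ₀
        rw [h5] at h4
        apply hσ₀
        linarith
    obtain ⟨x, hx⟩ := h1
    exact ⟨x, hx⟩
  obtain ⟨d, hd⟩ : ∃ d : ℚ, s ^ 2 = (d : Qb) := by
    have h1 : s ^ 2 ∈ (⊥ : IntermediateField ℚ Qb) := by
      refine mem_of_fixed _ fun h _ => ?_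
      rw [map_pow]
      rcases hsq h with h3 | h3
      · rw [h3.2]
      · rw [h3.2, neg_sq]
    obtain ⟨d, hd⟩ := IntermediateField.mem_bot.1 h1
    exact ⟨d, by rw [← hd]; exact eq_ratCast (algebraMap ℚ Qb) d⟩
  have hxd : x ^ 2 = (d : E) := by
    apply σ₀.injective
    rw [map_pow, hx, hd, map_ratCast]
  have hx0 : x ≠ 0 := by
    rintro rfl
    rw [map_zero] at hx
    exact hz hx.symm
  have hconj : IsCMField.complexConj E x = - x := by
    obtain ⟨g, hg⟩ := exists_act_eq σ₀ (cj σ₀)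
    apply σ₀.injective
    have h1 : σ₀ (IsCMField.complexConj E x) = g (σ₀ x) := (RingHom.congr_fun hg x).symm
    rw [h1, hx, map_neg, hx]
    rcases hsq g with h3 | h3
    · exfalso
      have h4 := congrFun h3.1 (cj σ₀)
      change f (act g⁻¹ (cj σ₀)) = f (cj σ₀) at h4
      have h5 : act g⁻¹ (cj σ₀) = σ₀ := by rw [← hg]; exact act_inv_act g σ₀
      rw [h5] at h4
      have h6 : f (cj σ₀) = - f σ₀ := hf σ₀
      rw [h6] at h4
      apply hσ₀
      linarith
    · exact h3.2
  refine hno x d ?_ hxd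
  obtain ⟨φ⟩ : Nonempty (E →+* ℂ) := inferInstance
  have h1 : (starRingEnd ℂ) (φ x) = - φ x := by
    rw [← IsCMField.complexEmbedding_complexConj, hconj, map_neg]
  have h2 : (φ x) ^ 2 = (d : ℂ) := by rw [← map_pow, hxd, map_ratCast]
  have h3 : (φ x).re = 0 := by
    have := congrArg Complex.re h1
    simp only [Complex.conj_re, Complex.neg_re] at this
    linarith
  have h4 : (φ x).im ≠ 0 := by
    intro h4
    have h5 : φ x = 0 := Complex.ext h3 h4
    exact hx0 ((map_eq_zero φ).1 h5)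
  have h5 : ((d : ℝ) : ℂ).re = -((φ x).im) ^ 2 := by
    have := congrArg Complex.re h2
    rw [sq, Complex.mul_re, h3] at this
    have h6 : ((d : ℂ)).re = ((d : ℝ) : ℂ).re := by norm_cast
    rw [← h6, ← this]
    ring
  rw [Complex.ofReal_re] at h5
  have h6 : (d : ℝ) < 0 := by
    rw [h5]
    have := sq_pos_of_ne_zero h4
    linarith
  exact_mod_cast h6

/-- the odd functions are combinations of the functions of the embeddings -/
lemma all_of_dl {P : Submodule ℚ ((E →+* Qb) → ℚ)} (h : ∀ σ, dl σ ∈ P) {f : (E →+* Qb) → ℚ}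
    (hf : IsOddFun f) : f ∈ P := by
  classical
  have h1 : f = ∑ σ : E →+* Qb, (f σ / 2) • dl σ := by
    funext τ
    rw [Finset.sum_apply]
    simp only [Pi.smul_apply, smul_eq_mul, dl_apply, mul_sub]
    rw [Finset.sum_sub_distrib]
    simp only [mul_ite, mul_one, mul_zero]
    rw [Finset.sum_ite_eq, if_pos (Finset.mem_univ _)]
    have h2 : ∀ σ : E →+* Qb, (τ = cj σ) ↔ (cj τ = σ) := by
      intro σ
      constructor
      · rintro rfl; rw [cj_cj]
      · rintro rfl; rw [cj_cj]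
    simp only [h2]
    rw [Finset.sum_ite_eq, if_pos (Finset.mem_univ _)]
    have h3 : f (cj τ) = - f τ := hf τ
    rw [h3]
    ring
  rw [h1]
  exact Submodule.sum_mem _ fun σ _ => Submodule.smul_mem _ _ (h σ)

lemma tl_dl (g : GQ) (σ : E →+* Qb) : tl g (dl σ) = dl (act g⁻¹ σ) := by
  classical
  funext τ
  change dl σ (act g τ) = _
  rw [dl_apply, dl_apply]
  have h1 : ∀ ρ : E →+* Qb, (act g τ = ρ) ↔ (τ = act g⁻¹ ρ) := by
    intro ρ
    constructor
    · rintro rfl; rw [act_inv_act]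
    · rintro rfl; rw [act_act_inv]
  simp only [h1, act_cj]

lemma all_of_one {P : Submodule ℚ ((E →+* Qb) → ℚ)}
    (hP : ∀ g : GQ, ∀ f ∈ P, tl g f ∈ P) {σ : E →+* Qb} (h : dl σ ∈ P) (τ : E →+* Qb) :
    dl τ ∈ P := by
  obtain ⟨g, hg⟩ := exists_act_eq σ τ
  have h1 := hP g⁻¹ _ h
  rwa [tl_dl, inv_inv, hg] at h1

/-- **Changes of sign.** -/
theorem irreducible_of_signs (hs : HasSignChanges E) : OddIrreducible E := by
  classical
  intro P hodd hstab
  by_cases hP : P = ⊥
  · exact Or.inl hP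
  right
  obtain ⟨f, hfP, hf0⟩ := Submodule.exists_mem_ne_zero_of_ne_bot hP
  obtain ⟨σ, hσ⟩ : ∃ σ, f σ ≠ 0 := by
    by_contra hcon
    push Not at hcon
    exact hf0 (funext hcon)
  obtain ⟨h, hh, hfix⟩ := hs σ
  have hact : act h σ = cj σ := RingHom.ext hh
  have hact' : act h (cj σ) = σ := by rw [act_cj, hact, cj_cj]
  have hodd' : f (cj σ) = - f σ := hodd f hfP σ
  have h1 : tl h f - f ∈ P := Submodule.sub_mem _ (hstab h f hfP) hfP
  have h2 : tl h f - f = (-2 * f σ) • dl σ := by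
    funext τ
    rw [Pi.smul_apply, smul_eq_mul, dl_apply]
    change f (act h τ) - f τ = _
    by_cases h3 : τ = σ
    · subst h3
      rw [hact, hodd', if_pos rfl, if_neg (cj_ne τ).symm]
      ring
    · by_cases h4 : τ = cj σ
      · subst h4
        rw [hact', hodd', if_neg (cj_ne σ), if_pos rfl]
        ring
      · have h5 : act h τ = τ := RingHom.ext (hfix τ h3 h4)
        rw [h5, if_neg h3, if_neg h4]
        ring
  rw [h2] at h1
  have h3 : dl σ ∈ P := by
    have h4 : (-2 * f σ) ≠ 0 := mul_ne_zero (by norm_num) hσ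
    exact (Submodule.smul_mem_iff _ h4).1 h1
  exact fun f hf => all_of_dl (all_of_one hstab h3) hf

end Pool.Agent.NH33.Ir
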