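import Pool.Agent.NH33.Ir.Crit
import Pool.Agent.NH33.Ir.Circ

/-!
# Criteria for the irreducibility of the odd representation: prime degree, cycles
-/

set_option autoImplicit false
set_option linter.unusedSectionVars false

namespace Pool.Agent.NH33.Ir

open NumberField Polynomial Module Pool.Agent.TH121.KT Pool.Agent.Y103.Hk Pool.Agent.Y103.Sh

variable {E : Type} [Field E] [NumberField E] [IsCMField E]

/-- the odd functions orthogonal to `P` -/
noncomputable def perp (P : Submodule ℚ ((E →+* Qb) → ℚ)) : Submodule ℚ ((E →+* Qb) → ℚ) where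
  carrier := {m | IsOddFun m ∧ ∀ f ∈ P, ∑ σ, f σ * m σ = 0}
  add_mem' := by
    rintro a b ⟨ha, ha'⟩ ⟨hb, hb'⟩
    refine ⟨odd_add ha hb, fun f hf => ?_⟩
    simp only [Pi.add_apply, mul_add, Finset.sum_add_distrib]
    rw [ha' f hf, hb' f hf, add_zero]
  zero_mem' := ⟨odd_zero, fun f hf => by simp⟩
  smul_mem' := by
    rintro c a ⟨ha, ha'⟩
    refine ⟨odd_smul ha c, fun f hf => ?_⟩
    have h1 : ∑ σ, f σ * (c • a) σ = c * ∑ σ, f σ * a σ := by
      rw [Finset.mul_sum]
      refine Finset.sum_congr rfl fun σ _ => ?_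
      rw [Pi.smul_apply, smul_eq_mul]
      ring
    rw [h1, ha' f hf, mul_zero]

lemma mem_perp {P : Submodule ℚ ((E →+* Qb) → ℚ)} {m : (E →+* Qb) → ℚ} :
    m ∈ perp P ↔ IsOddFun m ∧ ∀ f ∈ P, ∑ σ, f σ * m σ = 0 := Iff.rfl

lemma perp_stable {P : Submodule ℚ ((E →+* Qb) → ℚ)}
    (hP : ∀ g : GQ, ∀ f ∈ P, tl g f ∈ P) (g : GQ) {m : (E →+* Qb) → ℚ} (hm : m ∈ perp P) :
    tl g m ∈ perp P := by
  refine ⟨odd_tl hm.1 g, fun f hf => ?_⟩
  have h1 := hm.2 _ (hP g⁻¹ f hf)
  rw [← h1, ← sum_act g fun σ => tl g⁻¹ f σ * m σ]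
  refine Finset.sum_congr rfl fun σ _ => ?_
  change _ = f (act g⁻¹ (act g σ)) * m (act g σ)
  rw [act_inv_act]
  rfl

/-- **a proper subspace has an orthogonal function** -/
theorem exists_perp {P : Submodule ℚ ((E →+* Qb) → ℚ)} (hodd : ∀ f ∈ P, IsOddFun f)
    {f₀ : (E →+* Qb) → ℚ} (hf₀ : IsOddFun f₀) (hP : f₀ ∉ P) : ∃ m ∈ perp P, m ≠ 0 := by
  classical
  obtain ⟨φ, h1, h2⟩ := Submodule.exists_dual_map_eq_bot_of_notMem hP inferInstance
  have hφ : ∀ f : (E →+* Qb) → ℚ, φ f = ∑ σ, f σ * φ (Pi.single σ 1) := by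
    intro f
    conv_lhs => rw [← Finset.univ_sum_single f]
    rw [map_sum]
    refine Finset.sum_congr rfl fun σ _ => ?_
    have h3 : (Pi.single σ (f σ) : (E →+* Qb) → ℚ) = f σ • Pi.single σ 1 := by
      rw [← Pi.single_smul, smul_eq_mul, mul_one]
    rw [h3, map_smul, smul_eq_mul]
  let m : (E →+* Qb) → ℚ := fun σ => φ (Pi.single σ 1) - φ (Pi.single (cj σ) 1)
  have hm : ∀ f, IsOddFun f → ∑ σ, f σ * m σ = 2 * φ f := by
    intro f hf
    have h3 : ∑ σ, f σ * φ (Pi.single (cj σ) 1) = - ∑ σ, f σ * φ (Pi.single σ 1) := by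
      rw [← Finset.sum_neg_distrib]
      refine Fintype.sum_equiv ⟨cj, cj, cj_cj, cj_cj⟩ _ _ fun σ => ?_
      change _ = - (f (cj σ) * φ (Pi.single (cj σ) 1))
      have h4 : f (cj σ) = - f σ := hf σ
      rw [h4]
      ring
    simp only [m, mul_sub, Finset.sum_sub_distrib]
    rw [h3, ← hφ]
    ring
  refine ⟨m, ⟨?_, fun f hf => ?_⟩, ?_⟩
  · intro σ
    change φ (Pi.single (cj σ) 1) - φ (Pi.single (cj (cj σ)) 1) = -(_ - _)
    rw [cj_cj]
    ring
  · rw [hm f (hodd f hf)]
    have h3 : φ f ∈ P.map φ := Submodule.mem_map_of_mem hf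
    rw [h2, Submodule.mem_bot] at h3
    rw [h3, mul_zero]
  · intro h0
    apply h1
    have h3 := hm f₀ hf₀
    rw [h0] at h3
    simp only [Pi.zero_apply, mul_zero, Finset.sum_const_zero] at h3
    linarith

/-! ### The finite group -/

/-- the action on the embeddings -/
noncomputable def rho (E : Type) [Field E] [NumberField E] : GQ →* Equiv.Perm (E →+* Qb) where
  toFun g := ⟨act g, act g⁻¹, act_inv_act g, act_act_inv g⟩
  map_one' := by
    ext σ x
    rfl
  map_mul' g h := by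
    ext σ x
    rfl

lemma rho_apply (g : GQ) (σ : E →+* Qb) : rho E g σ = act g σ := rfl

lemma act_pow (g : GQ) (n : ℕ) (σ : E →+* Qb) : act (g ^ n) σ = (act g)^[n] σ := by
  induction n generalizing σ with
  | zero => rw [pow_zero, act_one]; rfl
  | succ n ih => rw [pow_succ, act_mul, ih, Function.iterate_succ_apply]

/-- an element of prime order -/
theorem exists_order {ℓ : ℕ} (hℓ : ℓ.Prime) (hX : ℓ ∣ Fintype.card (E →+* Qb)) :
    ∃ g : GQ, (∀ σ : E →+* Qb, act (g ^ ℓ) σ = σ) ∧ ∃ a : E →+* Qb, act g a ≠ a := by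
  classical
  have : Fact ℓ.Prime := ⟨hℓ⟩
  obtain ⟨σ₀⟩ : Nonempty (E →+* Qb) := ⟨(IsAlgClosed.lift : E →ₐ[ℚ] Qb).toRingHom⟩
  have h1 : MulAction.orbit (rho E).range σ₀ = Set.univ := by
    ext τ
    simp only [Set.mem_univ, iff_true]
    obtain ⟨g, hg⟩ := exists_act_eq σ₀ τ
    exact ⟨⟨rho E g, g, rfl⟩, hg⟩
  have h2 : Nat.card (MulAction.orbit (rho E).range σ₀) ∣ Nat.card (rho E).range := by
    have h3 : Nat.card (MulAction.orbit (rho E).range σ₀) *
        Nat.card (MulAction.stabilizer (rho E).range σ₀) = Nat.card (rho E).range := by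
      rw [← Nat.card_prod]
      exact Nat.card_congr (MulAction.orbitProdStabilizerEquivGroup (rho E).range σ₀)
    exact Dvd.intro _ h3
  rw [h1, Nat.card_congr (Equiv.Set.univ _), Nat.card_eq_fintype_card] at h2
  obtain ⟨x, hx⟩ := exists_prime_orderOf_dvd_card' ℓ (hX.trans h2)
  obtain ⟨_, g, rfl⟩ := x
  refine ⟨g, fun σ => ?_, ?_⟩
  · have h3 := pow_orderOf_eq_one (⟨rho E g, g, rfl⟩ : (rho E).range)
    rw [hx] at h3
    have h4 : (rho E g) ^ ℓ = 1 := congrArg Subtype.val h3
    rw [← map_pow] at h4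
    exact DFunLike.congr_fun h4 σ
  · by_contra hcon
    push Not at hcon
    have h3 : (⟨rho E g, g, rfl⟩ : (rho E).range) = 1 := by
      apply Subtype.ext
      ext σ x
      change act g σ x = σ x
      rw [hcon]
    rw [h3, orderOf_one] at hx
    exact hℓ.one_lt.ne hx

/-- **Prime degree**, odd. -/
theorem irreducible_odd_prime {ℓ : ℕ} (hℓ : ℓ.Prime) (h2 : ℓ ≠ 2) (hE : finrank ℚ E = 2 * ℓ)
    (hno : NoImaginaryQuadratic E) : OddIrreducible E := by
  classical
  intro P hodd hstab'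
  have hstab : ∀ g : GQ, ∀ f ∈ P, tl g f ∈ P := hstab'
  by_contra hcon
  push Not at hcon
  obtain ⟨hP, f₀, hf₀, hf₀P⟩ := hcon
  obtain ⟨m₀, hm₀, hm₀0⟩ := exists_perp hodd hf₀ hf₀P
  obtain ⟨n₀, hn₀, hn₀0⟩ := Submodule.exists_mem_ne_zero_of_ne_bot hP
  have hX : Fintype.card (E →+* Qb) = 2 * ℓ := by rw [Embeddings.card, hE]
  obtain ⟨g, hg, a, ha⟩ := exists_order (E := E) hℓ (by rw [hX]; exact Dvd.intro_left 2 rfl)
  -- the cycle
  let s : ℕ → (E →+* Qb) := fun i => act (g ^ i) a
  have hs0 : s 0 = a := by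
    change act (g ^ 0) a = a
    rw [pow_zero, act_one]
  have hsl : ∀ i j, act (g ^ j) (s i) = s (i + j) := by
    intro i j
    change act (g ^ j) (act (g ^ i) a) = act (g ^ (i + j)) a
    rw [← act_mul, ← pow_add, add_comm]
  have hper : ∀ i, s (i + ℓ) = s i := by
    intro i
    rw [← hsl, hg]
  have hmin : Function.minimalPeriod (act g) a = ℓ := by
    have h3 : Function.IsPeriodicPt (act g) ℓ a := by
      change (act g)^[ℓ] a = a
      rw [← act_pow, hg]
    have h4 := h3.minimalPeriod_dvd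
    rcases (Nat.dvd_prime hℓ).1 h4 with h5 | h5
    · exfalso
      apply ha
      exact Function.minimalPeriod_eq_one_iff_isFixedPt.1 h5
    · exact h5
  have hinj : ∀ i < ℓ, ∀ j < ℓ, s i = s j → i = j := by
    intro i hi j hj hij
    have h3 : (act g)^[i] a = (act g)^[j] a := by rw [← act_pow, ← act_pow]; exact hij
    exact Function.iterate_injOn_Iio_minimalPeriod (by rw [hmin]; exact hi) (by rw [hmin]; exact hj)
      h3
  have hmod : ∀ i, s i = s (i % ℓ) := by
    intro i
    have h3 : ∀ q r, s (r + q * ℓ) = s r := by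
      intro q r
      induction q with
      | zero => rw [zero_mul, add_zero]
      | succ q ih => rw [Nat.succ_mul, ← add_assoc, hper, ih]
    conv_lhs => rw [← Nat.mod_add_div i ℓ, mul_comm]
    rw [h3]
  have hdis : ∀ i < ℓ, ∀ j < ℓ, s i ≠ cj (s j) := by
    intro i hi j hj hij
    -- then `cj a = s t` for some `t`
    obtain ⟨t, ht⟩ : ∃ t, s t = cj a := by
      refine ⟨i + (ℓ - j), ?_⟩
      rw [← hsl, hij, act_cj, hsl]
      congr 1
      rw [show j + (ℓ - j) = 0 + ℓ by omega, hper, hs0]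
    have h3 : s (t + t) = s 0 := by
      rw [← hsl, ht, act_cj]
      change cj (s t) = _
      rw [ht, cj_cj, hs0]
    rw [hmod (t + t)] at h3
    have h4 := hinj _ (Nat.mod_lt _ hℓ.pos) 0 hℓ.pos h3
    have h5 : ℓ ∣ t + t := Nat.dvd_of_mod_eq_zero h4
    rw [← two_mul] at h5
    have h6 : ℓ ∣ t := by
      rcases (Nat.Prime.dvd_mul hℓ).1 h5 with h7 | h7
      · exact absurd ((Nat.prime_dvd_prime_iff_eq hℓ Nat.prime_two).1 h7) h2
      · exact h7
    have h7 : s t = s 0 := by
      rw [hmod t, Nat.mod_eq_zero_of_dvd h6]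
    rw [h7, hs0] at ht
    exact cj_ne a ht.symm
  -- the cycle and its conjugate are all embeddings
  let T : Fin ℓ ⊕ Fin ℓ → (E →+* Qb) := Sum.elim (fun i => s i) (fun i => cj (s i))
  have hT : Function.Bijective T := by
    rw [Fintype.bijective_iff_injective_and_card]
    refine ⟨?_, by simp only [Fintype.card_sum, Fintype.card_fin]; rw [hX]; ring⟩
    rintro (i | i) (j | j) hij
    · exact congrArg Sum.inl (Fin.ext (hinj i i.2 j j.2 hij))
    · exact absurd hij (hdis i i.2 j j.2)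
    · exact absurd hij.symm (hdis j j.2 i i.2)
    · refine congrArg Sum.inr (Fin.ext (hinj i i.2 j j.2 ?_))
      have h3 := congrArg cj hij
      change cj (cj (s i)) = cj (cj (s j)) at h3
      rwa [cj_cj, cj_cj] at h3
  have hsum : ∀ F : (E →+* Qb) → ℚ, (∀ σ, F (cj σ) = F σ) →
      ∑ σ, F σ = 2 * ∑ i ∈ Finset.range ℓ, F (s i) := by
    intro F hF
    rw [← Equiv.sum_comp (Equiv.ofBijective T hT), Fintype.sum_sum_type]
    have h3 : ∑ i : Fin ℓ, F (s i) = ∑ i ∈ Finset.range ℓ, F (s i) :=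
      (Finset.sum_range fun i => F (s i)).symm
    have h4 : ∀ i : Fin ℓ, F (Equiv.ofBijective T hT (Sum.inr i)) = F (s i) := fun i => hF _
    have h5 : ∀ i : Fin ℓ, F (Equiv.ofBijective T hT (Sum.inl i)) = F (s i) := fun i => rfl
    rw [Finset.sum_congr rfl fun i _ => h4 i, Finset.sum_congr rfl fun i _ => h5 i, h3]
    ring
  -- constant functions
  have hline : ∀ f f' : (E →+* Qb) → ℚ, IsOddFun f → IsOddFun f' → f ≠ 0 →
      (∀ i < ℓ, f (s i) = f (s 0)) → (∀ i < ℓ, f' (s i) = f' (s 0)) → ∃ c : ℚ, f' = c • f := by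
    intro f f' hf hf' hf0 hc hc'
    have h3 : f (s 0) ≠ 0 := by
      intro h0
      apply hf0
      funext σ
      obtain ⟨x, rfl⟩ := hT.2 σ
      rcases x with i | i
      · change f (s i) = 0
        rw [hc i i.2, h0]
      · change f (cj (s i)) = 0
        have h4 : f (cj (s i)) = - f (s i) := hf _
        rw [h4, hc i i.2, h0, neg_zero]
    refine ⟨f' (s 0) / f (s 0), ?_⟩
    funext σ
    rw [Pi.smul_apply, smul_eq_mul]
    obtain ⟨x, rfl⟩ := hT.2 σ
    rcases x with i | i
    · change f' (s i) = _ * f (s i)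
      rw [hc i i.2, hc' i i.2, div_mul_cancel₀ _ h3]
    · change f' (cj (s i)) = _ * f (cj (s i))
      have h4 : f (cj (s i)) = - f (s i) := hf _
      have h5 : f' (cj (s i)) = - f' (s i) := hf' _
      rw [h4, h5, hc i i.2, hc' i i.2, mul_neg, div_mul_cancel₀ _ h3]
  -- the alternative
  have halt : ∀ f ∈ P, ∀ m ∈ perp P, (∀ i < ℓ, f (s i) = f (s 0)) ∨
      ∀ i < ℓ, m (s i) = m (s 0) := by
    intro f hf m hm
    refine circ hℓ (fun i => f (s i)) (fun i => m (s i)) (fun i => by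
      change m (s (i + ℓ)) = m (s i)
      rw [hper]) fun j => ?_
    have h3 := (perp_stable hstab (g ^ j) hm).2 f hf
    rw [hsum (fun σ => f σ * tl (g ^ j) m σ)] at h3
    · have h4 := (mul_eq_zero.1 h3).resolve_left two_ne_zero
      rw [← h4]
      refine Finset.sum_congr rfl fun i _ => ?_
      change _ = f (s i) * m (act (g ^ j) (s i))
      rw [hsl]
    · intro σ
      have h4 : f (cj σ) = - f σ := hodd f hf σ
      have h5 : tl (g ^ j) m (cj σ) = - tl (g ^ j) m σ := odd_tl hm.1 (g ^ j) σ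
      rw [h4, h5]
      ring
  by_cases hall : ∀ f ∈ P, ∀ i < ℓ, f (s i) = f (s 0)
  · exact quadratic_of_line (hodd n₀ hn₀) hn₀0 (fun h => hline _ _ (hodd n₀ hn₀)
      (odd_tl (hodd n₀ hn₀) h) hn₀0 (hall n₀ hn₀) (hall _ (hstab h n₀ hn₀))) hno
  · push Not at hall
    obtain ⟨f, hf, i, hi, hfi⟩ := hall
    have hall' : ∀ m ∈ perp P, ∀ i < ℓ, m (s i) = m (s 0) := by
      intro m hm
      rcases halt f hf m hm with h | h
      · exact absurd (h i hi) hfi
      · exact h
    exact quadratic_of_line hm₀.1 hm₀0 (fun h => hline _ _ hm₀.1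
      (odd_tl hm₀.1 h) hm₀0 (hall' m₀ hm₀) (hall' _ (perp_stable hstab h hm₀))) hno

/-- **Degree four.** -/
theorem irreducible_two (hE : finrank ℚ E = 2 * 2)
    (hno : NoImaginaryQuadratic E) : OddIrreducible E := by
  classical
  intro P hodd hstab'
  have hstab : ∀ g : GQ, ∀ f ∈ P, tl g f ∈ P := hstab'
  by_contra hcon
  push Not at hcon
  obtain ⟨hP, f₀, hf₀, hf₀P⟩ := hcon
  obtain ⟨m₀, hm₀, hm₀0⟩ := exists_perp hodd hf₀ hf₀P
  obtain ⟨n₀, hn₀, hn₀0⟩ := Submodule.exists_mem_ne_zero_of_ne_bot hP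
  have hX : Fintype.card (E →+* Qb) = 4 := by rw [Embeddings.card, hE]
  obtain ⟨a⟩ : Nonempty (E →+* Qb) := ⟨(IsAlgClosed.lift : E →ₐ[ℚ] Qb).toRingHom⟩
  obtain ⟨b, hb⟩ : ∃ b, b ∉ ({a, cj a} : Finset (E →+* Qb)) := by
    by_contra hcon
    push Not at hcon
    have h1 : Fintype.card (E →+* Qb) ≤ ({a, cj a} : Finset (E →+* Qb)).card :=
      Finset.card_le_card fun x _ => hcon x
    have h2 : ({a, cj a} : Finset (E →+* Qb)).card ≤ 2 := Finset.card_le_two
    omega
  rw [Finset.mem_insert, Finset.mem_singleton, not_or] at hb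
  have hbca : cj b ≠ a := fun h => hb.2 (by rw [← h, cj_cj])
  have hbcca : cj b ≠ cj a := fun h => hb.1 (by rw [← cj_cj b, h, cj_cj])
  have hall : ∀ σ : E →+* Qb, σ = a ∨ σ = cj a ∨ σ = b ∨ σ = cj b := by
    have h1 : ({a, cj a, b, cj b} : Finset (E →+* Qb)).card = 4 := by
      rw [Finset.card_insert_of_notMem, Finset.card_insert_of_notMem,
        Finset.card_insert_of_notMem, Finset.card_singleton]
      · rw [Finset.mem_singleton]
        exact (cj_ne b).symm
      · rw [Finset.mem_insert, Finset.mem_singleton, not_or]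
        exact ⟨fun h => hb.2 h.symm, fun h => hbcca h.symm⟩
      · rw [Finset.mem_insert, Finset.mem_insert, Finset.mem_singleton, not_or, not_or]
        exact ⟨(cj_ne a).symm, fun h => hb.1 h.symm, fun h => hbca h.symm⟩
    have h2 : ({a, cj a, b, cj b} : Finset (E →+* Qb)) = Finset.univ :=
      Finset.eq_univ_of_card _ (by rw [h1, hX])
    intro σ
    have h3 : σ ∈ ({a, cj a, b, cj b} : Finset (E →+* Qb)) := by
      rw [h2]
      exact Finset.mem_univ σ
    simpa using h3
  have hsum : ∀ F : (E →+* Qb) → ℚ, (∀ σ, F (cj σ) = F σ) → ∑ σ, F σ = 2 * (F a + F b) := by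
    intro F hF
    have h2 : ({a, cj a, b, cj b} : Finset (E →+* Qb)) = Finset.univ := by
      ext σ
      simpa using hall σ
    rw [← h2, Finset.sum_insert, Finset.sum_insert, Finset.sum_insert, Finset.sum_singleton,
      hF a, hF b]
    · ring
    · rw [Finset.mem_singleton]
      exact (cj_ne b).symm
    · rw [Finset.mem_insert, Finset.mem_singleton, not_or]
      exact ⟨fun h => hb.2 h.symm, fun h => hbcca h.symm⟩
    · rw [Finset.mem_insert, Finset.mem_insert, Finset.mem_singleton, not_or, not_or]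
      exact ⟨(cj_ne a).symm, fun h => hb.1 h.symm, fun h => hbca h.symm⟩
  have hpair : ∀ f ∈ P, ∀ m ∈ perp P, f a * m a + f b * m b = 0 := by
    intro f hf m hm
    have h1 := hm.2 f hf
    rw [hsum (fun σ => f σ * m σ)] at h1
    · linarith
    · intro σ
      have h4 : f (cj σ) = - f σ := hodd f hf σ
      have h5 : m (cj σ) = - m σ := hm.1 σ
      rw [h4, h5]
      ring
  obtain ⟨g, hg⟩ := exists_act_eq a b
  have hgb : act g b = a ∨ act g b = cj a := by
    rcases hall (act g b) with h | h | h | h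
    · exact Or.inl h
    · exact Or.inr h
    · exfalso
      apply hb.1
      rw [← act_inv_act g b, h, ← hg, act_inv_act]
    · exfalso
      apply hb.2
      rw [← act_inv_act g b, h, ← hg, ← act_cj, act_inv_act]
  -- the absolute values
  have hm0 : m₀ a ≠ 0 ∨ m₀ b ≠ 0 := by
    by_contra hcon
    push Not at hcon
    apply hm₀0
    funext σ
    have h1 : ∀ τ : E →+* Qb, m₀ (cj τ) = - m₀ τ := hm₀.1
    rcases hall σ with rfl | rfl | rfl | rfl
    · exact hcon.1
    · rw [h1, hcon.1]; simp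
    · exact hcon.2
    · rw [h1, hcon.2]; simp
  have habs : ∀ f ∈ P, (f a) ^ 2 = (f b) ^ 2 := by
    intro f hf
    have h1 := hpair f hf m₀ hm₀
    have h2 := hpair _ (hstab g f hf) m₀ hm₀
    have h3 : tl g f a = f b := congrArg f hg
    rw [h3] at h2
    rcases hgb with h | h
    · have h4 : tl g f b = f a := congrArg f h
      rw [h4] at h2
      have h5 : ((f a) ^ 2 - (f b) ^ 2) * m₀ a = 0 := by linear_combination (f a) * h1 - (f b) * h2
      have h6 : ((f a) ^ 2 - (f b) ^ 2) * m₀ b = 0 := by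
        linear_combination (f a) * h2 - (f b) * h1
      rcases hm0 with h7 | h7
      · have := (mul_eq_zero.1 h5).resolve_right h7
        linarith
      · have := (mul_eq_zero.1 h6).resolve_right h7
        linarith
    · have h4 : tl g f b = - f a := by
        have h8 : f (cj a) = - f a := hodd f hf a
        change f (act g b) = _
        rw [h, h8]
      rw [h4] at h2
      have h5 : ((f a) ^ 2 + (f b) ^ 2) * m₀ a = 0 := by
        linear_combination (f a) * h1 + (f b) * h2
      have h6 : ((f a) ^ 2 + (f b) ^ 2) * m₀ b = 0 := by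
        linear_combination (f b) * h1 - (f a) * h2
      have h7 : (f a) ^ 2 + (f b) ^ 2 = 0 := by
        rcases hm0 with h7 | h7
        · exact (mul_eq_zero.1 h5).resolve_right h7
        · exact (mul_eq_zero.1 h6).resolve_right h7
      have h8 : (f a) ^ 2 = 0 := by nlinarith [sq_nonneg (f a), sq_nonneg (f b)]
      have h9 : (f b) ^ 2 = 0 := by nlinarith [sq_nonneg (f a), sq_nonneg (f b)]
      rw [h8, h9]
  have hn1 : n₀ a ≠ 0 := by
    intro h0
    apply hn₀0
    have h1 := habs n₀ hn₀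
    rw [h0] at h1
    have h2 : n₀ b = 0 := by
      have : (n₀ b) ^ 2 = 0 := by rw [← h1]; ring
      exact pow_eq_zero_iff (two_ne_zero) |>.1 this
    funext σ
    have h3 : ∀ τ : E →+* Qb, n₀ (cj τ) = - n₀ τ := hodd n₀ hn₀
    rcases hall σ with rfl | rfl | rfl | rfl
    · exact h0
    · rw [h3, h0]; simp
    · exact h2
    · rw [h3, h2]; simp
  refine quadratic_of_line (hodd n₀ hn₀) hn₀0 (fun h => ?_) hno
  have hmem : tl h n₀ - (tl h n₀ a / n₀ a) • n₀ ∈ P :=
    Submodule.sub_mem _ (hstab h n₀ hn₀) (Submodule.smul_mem _ _ hn₀)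
  set f := tl h n₀ - (tl h n₀ a / n₀ a) • n₀ with hf
  have hfa : f a = 0 := by
    rw [hf, Pi.sub_apply, Pi.smul_apply, smul_eq_mul, div_mul_cancel₀ _ hn1, sub_self]
  have hfb : f b = 0 := by
    have h1 := habs f hmem
    rw [hfa] at h1
    have : (f b) ^ 2 = 0 := by rw [← h1]; ring
    exact pow_eq_zero_iff (two_ne_zero) |>.1 this
  refine ⟨tl h n₀ a / n₀ a, ?_⟩
  have hfz : f = 0 := by
    funext σ
    have h3 : ∀ τ : E →+* Qb, f (cj τ) = - f τ := hodd f hmem
    rcases hall σ with rfl | rfl | rfl | rfl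
    · exact hfa
    · rw [h3, hfa]; simp
    · exact hfb
    · rw [h3, hfb]; simp
  exact sub_eq_zero.1 hfz

/-- **Prime degree.** -/
theorem irreducible_prime {ℓ : ℕ} (hℓ : ℓ.Prime) (hE : finrank ℚ E = 2 * ℓ)
    (hno : NoImaginaryQuadratic E) : OddIrreducible E := by
  by_cases h2 : ℓ = 2
  · subst h2
    exact irreducible_two hE hno
  · exact irreducible_odd_prime hℓ h2 hE hno

/-- **A cycle whose length is a power of two.** -/
theorem irreducible_cycle {k : ℕ} (hE : finrank ℚ E = 2 ^ (k + 1))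
    (hcyc : HasCycleOnEmbeddings E) : OddIrreducible E := by
  classical
  intro P hodd hstab'
  have hstab : ∀ g : GQ, ∀ f ∈ P, tl g f ∈ P := hstab'
  by_contra hcon
  push Not at hcon
  obtain ⟨hP, f₀, hf₀, hf₀P⟩ := hcon
  obtain ⟨m₀, hm₀, hm₀0⟩ := exists_perp hodd hf₀ hf₀P
  obtain ⟨n₀, hn₀, hn₀0⟩ := Submodule.exists_mem_ne_zero_of_ne_bot hP
  have hX : Fintype.card (E →+* Qb) = 2 ^ (k + 1) := by rw [Embeddings.card, hE]
  obtain ⟨g, hg⟩ := hcyc
  obtain ⟨a⟩ : Nonempty (E →+* Qb) := ⟨(IsAlgClosed.lift : E →ₐ[ℚ] Qb).toRingHom⟩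
  let s : ℕ → (E →+* Qb) := fun i => act (g ^ i) a
  have hs0 : s 0 = a := by
    change act (g ^ 0) a = a
    rw [pow_zero, act_one]
  have hsl : ∀ i j, act (g ^ j) (s i) = s (i + j) := by
    intro i j
    change act (g ^ j) (act (g ^ i) a) = act (g ^ (i + j)) a
    rw [← act_mul, ← pow_add, add_comm]
  have hsurj : ∀ τ : E →+* Qb, ∃ n, s n = τ := by
    intro τ
    obtain ⟨n, hn⟩ := hg a τ
    exact ⟨n, RingHom.ext hn⟩
  -- the minimal period
  set N := Function.minimalPeriod (act g) a with hN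
  have hNpos : 0 < N := by
    rw [hN, Function.minimalPeriod_pos_iff_mem_periodicPts]
    have h1 : Function.Injective (act g : (E →+* Qb) → (E →+* Qb)) := by
      intro x y hxy
      rw [← act_inv_act g x, hxy, act_inv_act]
    exact h1.mem_periodicPts a
  have hper : ∀ i, s (i + N) = s i := by
    intro i
    rw [add_comm, ← hsl]
    have h1 : s N = a := by
      change act (g ^ N) a = a
      rw [act_pow]
      exact Function.iterate_minimalPeriod
    rw [h1]
  have hinj : ∀ i < N, ∀ j < N, s i = s j → i = j := by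
    intro i hi j hj hij
    have h3 : (act g)^[i] a = (act g)^[j] a := by rw [← act_pow, ← act_pow]; exact hij
    exact Function.iterate_injOn_Iio_minimalPeriod hi hj h3
  have hmod : ∀ i, s i = s (i % N) := by
    intro i
    have h3 : ∀ q r, s (r + q * N) = s r := by
      intro q r
      induction q with
      | zero => rw [zero_mul, add_zero]
      | succ q ih => rw [Nat.succ_mul, ← add_assoc, hper, ih]
    conv_lhs => rw [← Nat.mod_add_div i N, mul_comm]
    rw [h3]
  let T : Fin N → (E →+* Qb) := fun i => s i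
  have hT : Function.Bijective T := by
    constructor
    · intro i j hij
      exact Fin.ext (hinj i i.2 j j.2 hij)
    · intro τ
      obtain ⟨n, hn⟩ := hsurj τ
      exact ⟨⟨n % N, Nat.mod_lt _ hNpos⟩, by rw [← hn]; exact (hmod n).symm⟩
  have hNe : N = 2 ^ (k + 1) := by
    rw [← hX, ← Fintype.card_of_bijective hT, Fintype.card_fin]
  -- complex conjugation
  have hcj : ∀ i, s (i + 2 ^ k) = cj (s i) := by
    obtain ⟨t, ht⟩ := hsurj (cj a)
    have h1 : ∀ i, s (i + t) = cj (s i) := by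
      intro i
      rw [add_comm, ← hsl, ht, act_cj]
    have h2 : s (t + t) = s 0 := by
      rw [h1, ht, cj_cj, hs0]
    rw [hmod (t + t)] at h2
    have h4 := hinj _ (Nat.mod_lt _ hNpos) 0 hNpos h2
    have h5 : N ∣ t + t := Nat.dvd_of_mod_eq_zero h4
    have h6 : t % N ≠ 0 := by
      intro h6
      rw [hmod t, h6, hs0] at ht
      exact cj_ne a ht.symm
    have h7 : t % N = 2 ^ k := by
      have h8 : N = 2 * 2 ^ k := by rw [hNe]; ring
      obtain ⟨c, hc⟩ := h5
      have h9 : t = 2 ^ k * c := by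
        rw [h8] at hc
        have : 2 * t = 2 * (2 ^ k * c) := by rw [two_mul, hc]; ring
        exact Nat.eq_of_mul_eq_mul_left two_pos this
      have h10 : Odd c := by
        rw [← Nat.not_even_iff_odd]
        rintro ⟨d, hd⟩
        apply h6
        rw [h9, hd, h8]
        exact Nat.mod_eq_zero_of_dvd ⟨d, by ring⟩
      obtain ⟨d, rfl⟩ := h10
      rw [h9, h8, show 2 ^ k * (2 * d + 1) = 2 ^ k + 2 * 2 ^ k * d by ring,
        Nat.add_mul_mod_self_left]
      exact Nat.mod_eq_of_lt (by have : 0 < 2 ^ k := by positivity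
                                 omega)
    intro i
    rw [← h1 i, hmod (i + 2 ^ k), hmod (i + t), ← h7, Nat.add_mod_mod]
  have hsum : ∀ F : (E →+* Qb) → ℚ, ∑ σ, F σ = ∑ i ∈ Finset.range (2 ^ (k + 1)), F (s i) := by
    intro F
    rw [← hNe, ← Equiv.sum_comp (Equiv.ofBijective T hT)]
    exact (Finset.sum_range fun i => F (s i)).symm
  have hz : ∀ f : (E →+* Qb) → ℚ, IsOddFun f → (∀ i < 2 ^ k, f (s i) = 0) → f = 0 := by
    intro f hf hf0
    have h1 : ∀ i, i < N → f (s i) = 0 := by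
      intro i hi
      by_cases h2 : i < 2 ^ k
      · exact hf0 i h2
      · obtain ⟨j, rfl⟩ : ∃ j, i = j + 2 ^ k := ⟨i - 2 ^ k, by omega⟩
        rw [hcj]
        have h3 : f (cj (s j)) = - f (s j) := hf _
        rw [h3, hf0 j, neg_zero]
        rw [hNe, pow_succ] at hi
        omega
    funext σ
    obtain ⟨i, rfl⟩ := hT.2 σ
    exact h1 i i.2
  rcases circ_two (k := k) (fun i => n₀ (s i)) (fun i => m₀ (s i)) (fun i => by
      change n₀ (s (i + 2 ^ k)) = _
      rw [hcj]
      exact hodd n₀ hn₀ _) (fun i => by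
      change m₀ (s (i + 2 ^ k)) = _
      rw [hcj]
      exact hm₀.1 _) (fun j => by
      have h3 := (perp_stable hstab (g ^ j) hm₀).2 n₀ hn₀
      rw [hsum] at h3
      rw [← h3]
      refine Finset.sum_congr rfl fun i _ => ?_
      change _ = n₀ (s i) * m₀ (act (g ^ j) (s i))
      rw [hsl]) with h | h
  · exact hn₀0 (hz n₀ (hodd n₀ hn₀) h)
  · exact hm₀0 (hz m₀ hm₀.1 h)

end Pool.Agent.NH33.Ir
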