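import Pool.Agent.NH33.Ir.Crit2

/-!
# Criteria for the irreducibility of the odd representation: triple transitivity
-/

set_option autoImplicit false
set_option linter.unusedSectionVars false

namespace Pool.Agent.NH33.Ir

open NumberField Polynomial Module Pool.Agent.TH121.KT Pool.Agent.Y103.Hk Pool.Agent.Y103.Sh

variable {E : Type} [Field E] [NumberField E] [IsCMField E]

lemma apart_iff {σ τ : E →+* Qb} : Apart σ τ ↔ σ ≠ τ ∧ σ ≠ cj τ := Iff.rfl

lemma same_iff {σ τ : E →+* Qb} : Same σ τ ↔ σ = τ ∨ σ = cj τ := Iff.rfl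

lemma Apart.symm' {σ τ : E →+* Qb} (h : Apart σ τ) : Apart τ σ :=
  ⟨fun h' => h.1 h'.symm, fun h' => h.2 (by
    have h1 : τ = cj σ := h'
    change σ = cj τ
    rw [h1, cj_cj])⟩

lemma Apart.cj_left {σ τ : E →+* Qb} (h : Apart σ τ) : Apart (cj σ) τ := by
  constructor
  · intro h'
    apply h.2
    change σ = cj τ
    rw [← h', cj_cj]
  · intro h'
    apply h.1
    have h1 : cj σ = cj τ := h'
    rw [← cj_cj σ, h1, cj_cj]

/-- the invariant form -/
noncomputable def form (f : (E →+* Qb) → ℚ) (σ τ : E →+* Qb) : ℚ := by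
  classical
  exact ∑ x : (rho E).range, f (x.1 σ) * f (x.1 τ)

lemma form_eq (f : (E →+* Qb) → ℚ) [inst : Fintype (rho E).range] (σ τ : E →+* Qb) :
    form f σ τ = ∑ x : (rho E).range, f (x.1 σ) * f (x.1 τ) := by
  classical
  have key : ∀ i₁ i₂ : Fintype (rho E).range,
      @Finset.sum _ _ _ (@Finset.univ _ i₁) (fun x : (rho E).range => f (x.1 σ) * f (x.1 τ)) =
      @Finset.sum _ _ _ (@Finset.univ _ i₂) (fun x : (rho E).range => f (x.1 σ) * f (x.1 τ)) := by
    intro i₁ i₂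
    rw [Subsingleton.elim i₁ i₂]
  exact key _ inst

lemma form_comm (f : (E →+* Qb) → ℚ) (σ τ : E →+* Qb) : form f σ τ = form f τ σ := by
  classical
  rw [form_eq, form_eq]
  exact Finset.sum_congr rfl fun x _ => mul_comm _ _

lemma form_cj {f : (E →+* Qb) → ℚ} (hf : IsOddFun f) (σ τ : E →+* Qb) :
    form f (cj σ) τ = - form f σ τ := by
  classical
  rw [form_eq, form_eq, ← Finset.sum_neg_distrib]
  refine Finset.sum_congr rfl fun x _ => ?_
  obtain ⟨_, ⟨g, rfl⟩⟩ := x
  change f (act g (cj σ)) * f (act g τ) = - (f (act g σ) * f (act g τ))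
  rw [act_cj]
  have h1 : f (cj (act g σ)) = - f (act g σ) := hf _
  rw [h1]
  ring

lemma form_act (f : (E →+* Qb) → ℚ) (g : GQ) (σ τ : E →+* Qb) :
    form f (act g σ) (act g τ) = form f σ τ := by
  classical
  rw [form_eq, form_eq]
  refine Fintype.sum_equiv (Equiv.mulRight (⟨rho E g, g, rfl⟩ : (rho E).range)) _ _ fun x => ?_
  rfl

lemma form_mem {P : Submodule ℚ ((E →+* Qb) → ℚ)} (hP : ∀ g : GQ, ∀ f ∈ P, tl g f ∈ P)
    {f : (E →+* Qb) → ℚ} (hf : f ∈ P) (τ : E →+* Qb) : (fun σ => form f σ τ) ∈ P := by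
  classical
  have h1 : (fun σ => form f σ τ) =
      ∑ x : (rho E).range, f (x.1 τ) • (fun σ => f (x.1 σ)) := by
    funext σ
    rw [form_eq, Finset.sum_apply]
    refine Finset.sum_congr rfl fun x _ => ?_
    rw [Pi.smul_apply, smul_eq_mul, mul_comm]
  rw [h1]
  refine Submodule.sum_mem _ fun x _ => Submodule.smul_mem _ _ ?_
  obtain ⟨_, ⟨g, rfl⟩⟩ := x
  exact hP g f hf

lemma form_pos {f : (E →+* Qb) → ℚ} (hf : f ≠ 0) (σ : E →+* Qb) : 0 < form f σ σ := by
  classical
  rw [form_eq]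
  obtain ⟨τ, hτ⟩ : ∃ τ, f τ ≠ 0 := by
    by_contra hcon
    push Not at hcon
    exact hf (funext hcon)
  obtain ⟨g, hg⟩ := exists_act_eq σ τ
  refine Finset.sum_pos' (fun x _ => mul_self_nonneg _) ⟨⟨rho E g, g, rfl⟩, Finset.mem_univ _, ?_⟩
  change 0 < f (act g σ) * f (act g σ)
  rw [hg]
  exact mul_self_pos.2 hτ

/-- there is a third embedding -/
lemma exists_third {d : ℕ} (hE : finrank ℚ E = 2 * d) (hd : 3 ≤ d) (σ τ : E →+* Qb) :
    ∃ ρ, Apart σ ρ ∧ Apart τ ρ := by
  classical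
  have hX : Fintype.card (E →+* Qb) = 2 * d := by rw [Embeddings.card, hE]
  by_contra hcon
  push Not at hcon
  have h1 : ∀ ρ, ρ ∈ ({σ, cj σ, τ, cj τ} : Finset (E →+* Qb)) := by
    intro ρ
    by_contra h2
    rw [Finset.mem_insert, Finset.mem_insert, Finset.mem_insert, Finset.mem_singleton,
      not_or, not_or, not_or] at h2
    have h3 : Apart σ ρ := by
      constructor
      · exact fun h => h2.1 h.symm
      · intro h
        apply h2.2.1
        have h4 : σ = cj ρ := h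
        rw [h4, cj_cj]
    refine hcon ρ h3 ⟨fun h => h2.2.2.1 h.symm, fun h => h2.2.2.2 ?_⟩
    have h4 : τ = cj ρ := h
    rw [h4, cj_cj]
  have h2 : Fintype.card (E →+* Qb) ≤ ({σ, cj σ, τ, cj τ} : Finset (E →+* Qb)).card :=
    Finset.card_le_card fun x _ => h1 x
  have h3 : ({σ, cj σ, τ, cj τ} : Finset (E →+* Qb)).card ≤ 4 := Finset.card_le_four
  omega

/-- **An invariant symmetric form is diagonal**, triply transitive groups. -/
theorem sym_zero {d : ℕ} (hE : finrank ℚ E = 2 * d) (hd : 3 ≤ d)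
    (htt : IsTriplyTransitive E) (hno : NoImaginaryQuadratic E)
    {F : (E →+* Qb) → (E →+* Qb) → ℚ} (hsym : ∀ σ τ, F σ τ = F τ σ)
    (hcj1 : ∀ σ τ, F (cj σ) τ = - F σ τ) (hinv : ∀ (g : GQ) σ τ, F (act g σ) (act g τ) = F σ τ)
    {σ₁ τ₁ : E →+* Qb} (h₁₁ : Apart σ₁ τ₁) : F σ₁ τ₁ = 0 := by
  classical
  have hthird := exists_third hE hd
  have hcj2 : ∀ σ τ : E →+* Qb, F σ (cj τ) = - F σ τ := by
    intro σ τ
    rw [hsym, hcj1, hsym]
  -- the absolute value is constant
  have habs : ∀ σ τ σ' τ' : E →+* Qb, Apart σ τ → Apart σ' τ' →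
      |F σ τ| = |F σ' τ'| := by
    intro σ τ σ' τ' h h'
    obtain ⟨ρ, h1, h2⟩ := hthird σ τ
    obtain ⟨ρ', h1', h2'⟩ := hthird σ' τ'
    obtain ⟨g, h3, h4, -⟩ := htt σ τ ρ σ' τ' ρ' h h1 h2 h' h1' h2'
    have h5 := hinv g σ τ
    rw [← h5]
    have h3' : act g σ = σ' ∨ act g σ = cj σ' := h3
    have h4' : act g τ = τ' ∨ act g τ = cj τ' := h4
    rcases h3' with h6 | h6 <;> rcases h4' with h7 | h7 <;> rw [h6, h7]
    · rw [hcj2, abs_neg]
    · rw [hcj1, abs_neg]
    · rw [hcj1, hcj2, neg_neg]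
  obtain ⟨σ₀⟩ : Nonempty (E →+* Qb) := ⟨(IsAlgClosed.lift : E →ₐ[ℚ] Qb).toRingHom⟩
  obtain ⟨τ₀, h₀, -⟩ := hthird σ₀ σ₀
  by_cases hb : F σ₀ τ₀ = 0
  · have h1 := habs σ₁ τ₁ σ₀ τ₀ h₁₁ h₀
    rw [hb, abs_zero, abs_eq_zero] at h1
    exact h1
  · exfalso
    set B := |F σ₀ τ₀| with hB
    have hBpos : 0 < B := abs_pos.2 hb
    -- the triple products
    let t : (E →+* Qb) → (E →+* Qb) → (E →+* Qb) → ℚ := fun σ τ ρ =>
      F σ τ * F τ ρ * F ρ σ
    have ht1 : ∀ σ τ ρ, t (cj σ) τ ρ = t σ τ ρ := by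
      intro σ τ ρ
      simp only [t]
      rw [hcj1, hcj2]
      ring
    have ht2 : ∀ σ τ ρ, t σ (cj τ) ρ = t σ τ ρ := by
      intro σ τ ρ
      simp only [t]
      rw [hcj1, hcj2]
      ring
    have ht3 : ∀ σ τ ρ, t σ τ (cj ρ) = t σ τ ρ := by
      intro σ τ ρ
      simp only [t]
      rw [hcj1, hcj2]
      ring
    obtain ⟨ρ₀, h₁, h₂⟩ := hthird σ₀ τ₀
    have htc : ∀ σ τ ρ : E →+* Qb, Apart σ τ → Apart σ ρ → Apart τ ρ → t σ τ ρ = t σ₀ τ₀ ρ₀ := by
      intro σ τ ρ h1 h2 h3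
      obtain ⟨g, h4, h5, h6⟩ := htt σ τ ρ σ₀ τ₀ ρ₀ h1 h2 h3 h₀ h₁ h₂
      have h7 : t (act g σ) (act g τ) (act g ρ) = t σ τ ρ := by
        simp only [t]
        rw [hinv, hinv, hinv]
      rw [← h7]
      have h4' : act g σ = σ₀ ∨ act g σ = cj σ₀ := h4
      have h5' : act g τ = τ₀ ∨ act g τ = cj τ₀ := h5
      have h6' : act g ρ = ρ₀ ∨ act g ρ = cj ρ₀ := h6
      rcases h4' with h | h <;> rcases h5' with h' | h' <;> rcases h6' with h'' | h'' <;>
        rw [h, h', h''] <;> simp only [ht1, ht2, ht3]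
    have habs' : ∀ σ τ : E →+* Qb, Apart σ τ → F σ τ = B ∨ F σ τ = -B := by
      intro σ τ h
      have h1 := habs σ τ σ₀ τ₀ h h₀
      rw [← hB] at h1
      rcases abs_choice (F σ τ) with h2 | h2
      · left; rw [← h1, h2]
      · right; rw [← h1, h2, neg_neg]
    obtain ⟨ε, hε, hεt⟩ : ∃ ε : ℚ, (ε = 1 ∨ ε = -1) ∧ t σ₀ τ₀ ρ₀ = ε * B ^ 3 := by
      simp only [t]
      rcases habs' _ _ h₀ with h | h <;> rcases habs' _ _ h₂ with h' | h' <;>
        rcases habs' _ _ (Apart.symm' h₁) with h'' | h'' <;> rw [h, h', h'']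
      · exact ⟨1, Or.inl rfl, by ring⟩
      · exact ⟨-1, Or.inr rfl, by ring⟩
      · exact ⟨-1, Or.inr rfl, by ring⟩
      · exact ⟨1, Or.inl rfl, by ring⟩
      · exact ⟨-1, Or.inr rfl, by ring⟩
      · exact ⟨1, Or.inl rfl, by ring⟩
      · exact ⟨1, Or.inl rfl, by ring⟩
      · exact ⟨-1, Or.inr rfl, by ring⟩
    have hε2 : ε * ε = 1 := by
      rcases hε with h | h <;> rw [h] <;> norm_num
    have hBε : ε * B ≠ 0 := by
      intro h2
      rcases mul_eq_zero.1 h2 with h3 | h3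
      · rw [h3] at hε2
        norm_num at hε2
      · exact hBpos.ne' h3
    -- the half system
    let S : Set (E →+* Qb) := {σ | σ = σ₀ ∨ (Apart σ σ₀ ∧ F σ₀ σ = ε * B)}
    have hS : ∀ σ ∈ S, ∀ τ ∈ S, σ ≠ τ → F σ τ = ε * B := by
      rintro σ (rfl | ⟨hσ, hσ'⟩) τ (rfl | ⟨hτ, hτ'⟩) hne
      · exact absurd rfl hne
      · exact hτ'
      · rw [hsym]
        exact hσ'
      · have hst : Apart σ τ := by
          refine ⟨hne, fun h => ?_⟩
          have h1 : σ = cj τ := h
          rw [h1, hcj2] at hσ'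
          rw [hτ'] at hσ'
          exact hBε (by linarith)
        have h1 := htc σ₀ σ τ (Apart.symm' hσ) (Apart.symm' hτ) hst
        rw [hεt] at h1
        simp only [t] at h1
        rw [hσ', hsym τ σ₀, hτ'] at h1
        have h2 : B ^ 2 * (F σ τ - ε * B) = 0 := by
          have h3 : ε * B * F σ τ * (ε * B) = (ε * ε) * B ^ 2 * F σ τ := by ring
          rw [h3, hε2] at h1
          linear_combination h1
        have h3 := (mul_eq_zero.1 h2).resolve_left (by positivity)
        linarith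
    have hcov : ∀ σ : E →+* Qb, σ ∈ S ∨ cj σ ∈ S := by
      intro σ
      by_cases h1 : σ = σ₀
      · exact Or.inl (Or.inl h1)
      by_cases h2 : σ = cj σ₀
      · right
        left
        rw [h2, cj_cj]
      have h3 : Apart σ σ₀ := ⟨h1, h2⟩
      have h4 := habs' σ₀ σ (Apart.symm' h3)
      rcases hε with h5 | h5 <;> rcases h4 with h6 | h6
      · exact Or.inl (Or.inr ⟨h3, by rw [h6, h5, one_mul]⟩)
      · exact Or.inr (Or.inr ⟨Apart.cj_left h3, by rw [hcj2, h6, h5]; ring⟩)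
      · exact Or.inr (Or.inr ⟨Apart.cj_left h3, by rw [hcj2, h6, h5]; ring⟩)
      · exact Or.inl (Or.inr ⟨h3, by rw [h6, h5]; ring⟩)
    have hdisj : ∀ σ ∈ S, cj σ ∉ S := by
      rintro σ (rfl | ⟨hσ, hσ'⟩) (h | ⟨h, h'⟩)
      · exact cj_ne _ h
      · exact h.2 rfl
      · apply hσ.2
        change σ = cj σ₀
        rw [← h, cj_cj]
      · rw [hcj2, hσ'] at h'
        exact hBε (by linarith)
    -- the half system is permuted up to sign
    have hperm : ∀ g : GQ, ∀ σ ∈ S, ∀ τ ∈ S, act g σ ∈ S → act g τ ∈ S := by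
      intro g σ hσ τ hτ hgσ
      by_cases hst : σ = τ
      · rwa [← hst]
      rcases hcov (act g τ) with h | h
      · exact h
      · exfalso
        have h1 := hS σ hσ τ hτ hst
        have h2 : act g σ ≠ cj (act g τ) := by
          intro h2
          have h3 : σ = cj τ := by
            rw [← act_inv_act g σ, h2, ← act_cj, act_inv_act]
          apply hdisj τ hτ
          rwa [← h3]
        have h3 := hS _ hgσ _ h h2
        rw [hcj2, hinv, h1] at h3
        exact hBε (by linarith)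
    let u : (E →+* Qb) → ℚ := fun σ => if σ ∈ S then 1 else -1
    have hu : IsOddFun u := by
      intro σ
      change u (cj σ) = - u σ
      simp only [u]
      by_cases h1 : σ ∈ S
      · rw [if_pos h1, if_neg (hdisj σ h1)]
      · have h2 := (hcov σ).resolve_left h1
        rw [if_neg h1, if_pos h2, neg_neg]
    have hσ₀ : σ₀ ∈ S := Or.inl rfl
    refine quadratic_of_line hu (fun h => ?_) (fun g => ?_) hno
    · have := congrFun h σ₀
      simp only [u, if_pos hσ₀, Pi.zero_apply] at this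
      exact one_ne_zero this
    · by_cases hg : act g σ₀ ∈ S
      · refine ⟨1, ?_⟩
        rw [one_smul]
        have key : ∀ σ ∈ S, act g σ ∈ S := fun σ hσ => hperm g σ₀ hσ₀ σ hσ hg
        funext σ
        change u (act g σ) = u σ
        by_cases h1 : σ ∈ S
        · simp only [u]
          rw [if_pos h1, if_pos (key σ h1)]
        · have h2 := (hcov σ).resolve_left h1
          have h3 := key _ h2
          rw [act_cj] at h3
          have h4 : act g σ ∉ S := fun h5 => hdisj _ h5 h3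
          simp only [u]
          rw [if_neg h1, if_neg h4]
      · refine ⟨-1, ?_⟩
        have key : ∀ σ ∈ S, act g σ ∉ S := by
          intro σ hσ h
          exact hg (hperm g σ hσ σ₀ hσ₀ h)
        funext σ
        change u (act g σ) = (-1 : ℚ) * u σ
        by_cases h1 : σ ∈ S
        · simp only [u]
          rw [if_pos h1, if_neg (key σ h1)]
          norm_num
        · have h2 := (hcov σ).resolve_left h1
          have h3 := key _ h2
          rw [act_cj] at h3
          have h4 : act g σ ∈ S := by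
            rcases hcov (act g σ) with h5 | h5
            · exact h5
            · exact absurd h5 h3
          simp only [u]
          rw [if_neg h1, if_pos h4]
          norm_num

/-- an invariant form without entries outside the diagonal -/
lemma form_diag {f : (E →+* Qb) → ℚ} (hfo : IsOddFun f)
    (hzero : ∀ σ τ : E →+* Qb, Apart σ τ → form f σ τ = 0) (σ₀ : E →+* Qb) :
    (fun σ => form f σ σ₀) = form f σ₀ σ₀ • dl σ₀ := by
  classical
  funext σ
  rw [Pi.smul_apply, smul_eq_mul, dl_apply]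
  by_cases h2 : σ = σ₀
  · subst h2
    rw [if_pos rfl, if_neg (cj_ne σ).symm]
    ring
  · by_cases h3 : σ = cj σ₀
    · subst h3
      rw [if_neg h2, if_pos rfl, form_cj hfo]
      ring
    · rw [if_neg h2, if_neg h3, hzero σ σ₀ ⟨h2, h3⟩]
      ring

/-- **Irreducibility** from the absence of invariant symmetric forms. -/
theorem irreducible_of_forms (h : ∀ f : (E →+* Qb) → ℚ, IsOddFun f →
    ∀ σ τ : E →+* Qb, Apart σ τ → form f σ τ = 0) : OddIrreducible E := by
  classical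
  intro P hodd hstab'
  have hstab : ∀ g : GQ, ∀ f ∈ P, tl g f ∈ P := hstab'
  by_cases hP : P = ⊥
  · exact Or.inl hP
  right
  obtain ⟨f, hfP, hf0⟩ := Submodule.exists_mem_ne_zero_of_ne_bot hP
  have hfo : IsOddFun f := hodd f hfP
  obtain ⟨σ₀⟩ : Nonempty (E →+* Qb) := ⟨(IsAlgClosed.lift : E →ₐ[ℚ] Qb).toRingHom⟩
  have h2 := form_mem hstab hfP σ₀
  rw [form_diag hfo (h f hfo) σ₀] at h2
  have h3 : dl σ₀ ∈ P := (Submodule.smul_mem_iff _ (form_pos hf0 σ₀).ne').1 h2
  exact fun f hf => all_of_dl (all_of_one hstab h3) hf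

/-- **Triple transitivity.** -/
theorem irreducible_triple {d : ℕ} (hE : finrank ℚ E = 2 * d) (hd : 3 ≤ d)
    (htt : IsTriplyTransitive E) (hno : NoImaginaryQuadratic E) : OddIrreducible E :=
  irreducible_of_forms fun f hf _ _ h => sym_zero hE hd htt hno (F := form f) (form_comm f)
    (form_cj hf) (form_act f) h

end Pool.Agent.NH33.Ir
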