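import Pool.Agent.Y103.Sh.Defs

/-!
# CM fields whose odd Galois representation is irreducible: definitions
-/

set_option autoImplicit false

open NumberField

namespace Pool.Agent.NH33.Ir

/-- The function `f` on the embeddings of the CM field `E` is *odd*: it takes opposite values at
complex conjugate embeddings. -/
def IsOddFun {E : Type} [Field E] [NumberField E] [IsCMField E]
    (f : (E →+* AlgebraicClosure ℚ) → ℚ) : Prop :=
  ∀ σ, f (σ.comp (IsCMField.complexConj E : E →+* E)) = - f σ

/-- The representation of the Galois group of `ℚ` on the odd rational functions on the embeddings of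
the CM field `E` (a vector space of dimension `[E : ℚ] / 2`) is *irreducible*: each subspace of odd
functions which is stable under the Galois group is zero or contains all odd functions. -/
def OddIrreducible (E : Type) [Field E] [NumberField E] [IsCMField E] : Prop :=
  ∀ P : Submodule ℚ ((E →+* AlgebraicClosure ℚ) → ℚ), (∀ f ∈ P, IsOddFun f) →
    (∀ g : AlgebraicClosure ℚ ≃ₐ[ℚ] AlgebraicClosure ℚ, ∀ f ∈ P,
      (fun σ : E →+* AlgebraicClosure ℚ =>
        f ((g : AlgebraicClosure ℚ →+* AlgebraicClosure ℚ).comp σ)) ∈ P) →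
    P = ⊥ ∨ ∀ f, IsOddFun f → f ∈ P

/-- The field `E` has no embedding into the field `L`. -/
def NotContained (E : Type) [Field E] [NumberField E]
    (L : IntermediateField ℚ (AlgebraicClosure ℚ)) : Prop :=
  ∀ σ : E →+* AlgebraicClosure ℚ, ∃ x, σ x ∉ L

/-- The square of no element of `E` is a negative rational number (`E` does not contain an imaginary
quadratic field). -/
def NoImaginaryQuadratic (E : Type) [Field E] : Prop :=
  ∀ (x : E) (d : ℚ), d < 0 → x ^ 2 ≠ (d : E)

/-- Some automorphism permutes the embeddings of `E` cyclically (for example, some prime number is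
inert in `E`). -/
def HasCycleOnEmbeddings (E : Type) [Field E] : Prop :=
  ∃ g : AlgebraicClosure ℚ ≃ₐ[ℚ] AlgebraicClosure ℚ, ∀ σ τ : E →+* AlgebraicClosure ℚ,
    ∃ n : ℕ, ∀ x, (g ^ n) (σ x) = τ x

/-- The embeddings are different and not conjugate. -/
def Apart {E : Type} [Field E] [NumberField E] [IsCMField E]
    (σ τ : E →+* AlgebraicClosure ℚ) : Prop :=
  σ ≠ τ ∧ σ ≠ τ.comp (IsCMField.complexConj E : E →+* E)

/-- The embeddings are equal or conjugate. -/
def Same {E : Type} [Field E] [NumberField E] [IsCMField E]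
    (σ τ : E →+* AlgebraicClosure ℚ) : Prop :=
  σ = τ ∨ σ = τ.comp (IsCMField.complexConj E : E →+* E)

/-- The Galois group acts triply transitively on the pairs of complex conjugate embeddings. -/
def IsTriplyTransitive (E : Type) [Field E] [NumberField E] [IsCMField E] : Prop :=
  ∀ σ₁ σ₂ σ₃ τ₁ τ₂ τ₃ : E →+* AlgebraicClosure ℚ, Apart σ₁ σ₂ → Apart σ₁ σ₃ → Apart σ₂ σ₃ →
    Apart τ₁ τ₂ → Apart τ₁ τ₃ → Apart τ₂ τ₃ →
    ∃ g : AlgebraicClosure ℚ ≃ₐ[ℚ] AlgebraicClosure ℚ,
      Same ((g : AlgebraicClosure ℚ →+* AlgebraicClosure ℚ).comp σ₁) τ₁ ∧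
      Same ((g : AlgebraicClosure ℚ →+* AlgebraicClosure ℚ).comp σ₂) τ₂ ∧
      Same ((g : AlgebraicClosure ℚ →+* AlgebraicClosure ℚ).comp σ₃) τ₃

/-- Either the odd representation of `E` is irreducible, or one of four conditions holds which imply
this: the Galois group contains all changes of sign; the degree of `E` is `2 ℓ` with a prime number
`ℓ` and `E` does not contain an imaginary quadratic field; the degree of `E` is a power of two and
some automorphism permutes the embeddings cyclically; the degree of `E` is at least six, the Galois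
group acts triply transitively on the pairs of conjugate embeddings and `E` does not contain an
imaginary quadratic field. -/
def IsGoodField (E : Type) [Field E] [NumberField E] [IsCMField E] : Prop :=
  OddIrreducible E ∨ Y103.Sh.HasSignChanges E ∨
    (∃ ℓ : ℕ, ℓ.Prime ∧ Module.finrank ℚ E = 2 * ℓ ∧ NoImaginaryQuadratic E) ∨
    (∃ m : ℕ, Module.finrank ℚ E = 2 ^ (m + 1) ∧ HasCycleOnEmbeddings E) ∨
    ∃ d : ℕ, 3 ≤ d ∧ Module.finrank ℚ E = 2 * d ∧ IsTriplyTransitive E ∧ NoImaginaryQuadratic E

/-- The number `β` is *foreign* to the fields `E i`: it is a root of a nonzero rational polynomial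
`Q`, and either the slopes of the roots of `Q` at the place `ι` are determined by a Galois extension
`L` of `ℚ` into which none of the fields `E i` embeds (for example `L` contains the roots of `Q`), or
the degrees of the fields `E i` are `2 ℓ` with prime numbers `ℓ` greater than the degree of `Q`. -/
def IsForeign {p : ℕ} [Fact p.Prime] (ι : AlgebraicClosure ℚ →+* PadicAlgCl p) {r : ℕ}
    (E : Fin r → Type) [∀ i, Field (E i)] [∀ i, NumberField (E i)]
    {Ω : Type*} [Field Ω] [CharZero Ω] (β : Ω) : Prop :=
  (∃ L : IntermediateField ℚ (AlgebraicClosure ℚ), Y103.Hk.IsStable L ∧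
    (∀ i, NotContained (E i) L) ∧ Y103.Hk.SlopeRoot ι L β) ∨
  ∃ Q : Polynomial ℚ, Q ≠ 0 ∧ Polynomial.aeval β Q = 0 ∧
    ∀ i, ∃ ℓ : ℕ, ℓ.Prime ∧ Module.finrank ℚ (E i) = 2 * ℓ ∧ Q.natDegree < ℓ

/-- The degree of the algebraic number `ν` is smaller than the degrees of the fields `E i`: it is a
root of a nonzero rational polynomial of smaller degree. -/
def HasSmallDegree {r : ℕ} (E : Fin r → Type) [∀ i, Field (E i)] [∀ i, NumberField (E i)]
    {Ω : Type*} [Field Ω] [CharZero Ω] (ν : Ω) : Prop :=
  ∃ Q : Polynomial ℚ, Q ≠ 0 ∧ Polynomial.aeval ν Q = 0 ∧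
    ∀ i, Q.natDegree < Module.finrank ℚ (E i)

end Pool.Agent.NH33.Ir
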