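import Pool.Agent.NH33.Ir.Crit2

/-!
# The field generated by the roots of a polynomial of small degree
-/

set_option autoImplicit false
set_option linter.unusedSectionVars false

namespace Pool.Agent.NH33.Ir

open NumberField Polynomial Module Pool.Agent.TH121.KT Pool.Agent.Y103.Hk Pool.Agent.Y103.Sh

/-- the field generated by the roots -/
noncomputable def rootField (Q : ℚ[X]) : IntermediateField ℚ Qb :=
  IntermediateField.adjoin ℚ (Q.rootSet Qb)

lemma mem_rootField {Q : ℚ[X]} (hQ : Q ≠ 0) {γ : Qb} (hγ : aeval γ Q = 0) : γ ∈ rootField Q :=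
  IntermediateField.subset_adjoin ℚ _ (mem_rootSet.2 ⟨hQ, hγ⟩)

lemma act_root {Q : ℚ[X]} {γ : Qb} (hγ : γ ∈ Q.rootSet Qb) (g : GQ) : g γ ∈ Q.rootSet Qb := by
  rw [mem_rootSet] at hγ ⊢
  refine ⟨hγ.1, ?_⟩
  rw [Polynomial.aeval_algHom_apply g γ Q, hγ.2, map_zero]

lemma rootField_stable (Q : ℚ[X]) : IsStable (rootField Q) := by
  intro g x hx
  unfold rootField at hx ⊢
  induction hx using IntermediateField.adjoin_induction with
  | mem x hx => exact IntermediateField.subset_adjoin ℚ _ (act_root hx g)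
  | algebraMap x =>
    rw [AlgEquiv.commutes]
    exact IntermediateField.algebraMap_mem _ x
  | add x y _ _ hx hy => rw [map_add]; exact add_mem hx hy
  | inv x _ hx => rw [map_inv₀]; exact inv_mem hx
  | mul x y _ _ hx hy => rw [map_mul]; exact mul_mem hx hy

lemma fix_rootField {Q : ℚ[X]} {g : GQ} (hg : ∀ γ ∈ Q.rootSet Qb, g γ = γ) :
    ∀ x ∈ rootField Q, g x = x := by
  intro x hx
  unfold rootField at hx
  induction hx using IntermediateField.adjoin_induction with
  | mem x hx => exact hg x hx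
  | algebraMap x => rw [AlgEquiv.commutes]
  | add x y _ _ hx hy => rw [map_add, hx, hy]
  | inv x _ hx => rw [map_inv₀, hx]
  | mul x y _ _ hx hy => rw [map_mul, hx, hy]

/-- the permutation of the roots -/
noncomputable def rootPerm (Q : ℚ[X]) (g : GQ) : Equiv.Perm (Q.rootSet Qb) where
  toFun γ := ⟨g γ.1, act_root γ.2 g⟩
  invFun γ := ⟨g⁻¹ γ.1, act_root γ.2 g⁻¹⟩
  left_inv γ := Subtype.ext (AlgEquiv.symm_apply_apply g γ.1)
  right_inv γ := Subtype.ext (AlgEquiv.apply_symm_apply g γ.1)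

lemma rootPerm_pow (Q : ℚ[X]) (g : GQ) (n : ℕ) (γ : Q.rootSet Qb) :
    (((rootPerm Q g) ^ n) γ).1 = (g ^ n) γ.1 := by
  induction n with
  | zero => rfl
  | succ n ih =>
    rw [pow_succ', pow_succ']
    change g (((rootPerm Q g) ^ n) γ).1 = g ((g ^ n) γ.1)
    rw [ih]

variable {E : Type} [Field E] [NumberField E] [IsCMField E]

/-- **Small degree.** -/
theorem notContained_rootField {ℓ : ℕ} (hℓ : ℓ.Prime) (hE : finrank ℚ E = 2 * ℓ) {Q : ℚ[X]}
    (hQ : Q.natDegree < ℓ) : NotContained E (rootField Q) := by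
  classical
  intro σ
  by_contra hcon
  push Not at hcon
  have hX : Fintype.card (E →+* Qb) = 2 * ℓ := by rw [Embeddings.card, hE]
  obtain ⟨g, hg, a, ha⟩ := exists_order (E := E) hℓ (by rw [hX]; exact Dvd.intro_left 2 rfl)
  -- all embeddings
  have hall : ∀ (τ : E →+* Qb) x, τ x ∈ rootField Q := by
    intro τ x
    obtain ⟨h, hh⟩ := exists_act_eq σ τ
    rw [← hh]
    exact rootField_stable Q h _ (hcon x)
  -- a power of `g` fixes the roots
  set m : ℕ := Nat.factorial (Fintype.card (Q.rootSet Qb)) with hm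
  have h1 : (rootPerm Q g) ^ m = 1 := by
    rw [hm, ← Fintype.card_perm]
    exact pow_card_eq_one
  have h2 : ∀ x ∈ rootField Q, (g ^ m) x = x := by
    refine fix_rootField fun γ hγ => ?_
    have h3 := rootPerm_pow Q g m ⟨γ, hγ⟩
    rw [h1] at h3
    exact h3.symm
  have h3 : ∀ τ : E →+* Qb, act (g ^ m) τ = τ := by
    intro τ
    ext x
    exact h2 _ (hall τ x)
  have hcop : Nat.Coprime m ℓ := by
    rw [Nat.coprime_comm, Nat.Prime.coprime_iff_not_dvd hℓ, hm, Nat.Prime.dvd_factorial hℓ,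
      not_le]
    refine lt_of_le_of_lt ?_ hQ
    rw [← Nat.card_eq_fintype_card, Nat.card_coe_set_eq]
    exact ncard_rootSet_le Q Qb
  -- `g` acts trivially
  have h4 : ((rho E) g) ^ m = 1 := by
    rw [← map_pow]
    ext τ x
    change (act (g ^ m) τ) x = τ x
    rw [h3]
  have h5 : ((rho E) g) ^ ℓ = 1 := by
    rw [← map_pow]
    ext τ x
    change (act (g ^ ℓ) τ) x = τ x
    rw [hg]
  have h6 : orderOf (rho E g) = 1 := by
    have h7 := Nat.dvd_gcd (orderOf_dvd_of_pow_eq_one h4) (orderOf_dvd_of_pow_eq_one h5)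
    rw [hcop.gcd_eq_one] at h7
    exact Nat.dvd_one.1 h7
  rw [orderOf_eq_one_iff] at h6
  exact ha (DFunLike.congr_fun h6 a)

end Pool.Agent.NH33.Ir
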