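import Pool.Agent.NH33.Ir.Main2
import Pool.Agent.NH33.Ir.Crit3
import Pool.Agent.NH33.Ir.Deg

/-!
# Products of varieties given by fields with an irreducible odd representation
-/

set_option autoImplicit false
set_option linter.unusedSectionVars false

open CategoryTheory AlgebraicGeometry NumberField
open scoped TensorProduct

universe u v

namespace Pool.Agent.NH33.Ir

open Pool.Agent.H914 Pool.Agent.H914.VarClass Pool.Agent.H914.VarClass.Obj
  Pool.Agent.H914.WeilCohomology Pool.Agent.H281R3.HT Pool.Agent.W552 Pool.Agent.W534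
  Pool.Agent.W458.RK Pool.Agent.W458.MF Pool.Agent.TH132.A Pool.Agent.W536.RR
  Pool.Agent.TH121.KT Pool.Agent.Y103.Hk Pool.Agent.Y103.Sh

variable {k : Type u} [Field k] {𝒱 : VarClass k} {ops : CycleOps 𝒱}
  {W : WeilCohomology.{u, v} ops} {p : ℕ} [Fact p.Prime] {Φ : FrobSystem W p}
  {ι : Qb →+* PadicAlgCl p}
  {r : ℕ} {X : Fin r → 𝒱.Obj} {b e : Fin r → ℕ} {E : Fin r → Type} [∀ i, Field (E i)]
  [∀ i, NumberField (E i)] [∀ i, IsCMField (E i)]
  {α : ∀ i, E i} {Z U : 𝒱.Obj}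

theorem irreducible_of_good {E : Type} [Field E] [NumberField E] [IsCMField E]
    (h : IsGoodField E) : OddIrreducible E := by
  rcases h with h | h | ⟨ℓ, hℓ, h1, h2⟩ | ⟨m, h1, h2⟩ | ⟨d, hd, h1, h2, h3⟩
  · exact h
  · exact irreducible_of_signs h
  · exact irreducible_prime hℓ h1 h2
  · exact irreducible_cycle h1 h2
  · exact irreducible_triple h1 hd h2 h3

lemma exists_notMem_closure {E E' : Type} [Field E] [NumberField E] [IsCMField E]
    [Field E'] [NumberField E'] [IsCMField E'] (h : galoisClosure E ≠ galoisClosure E') :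
    NotContained E (galoisClosure E') ∨ NotContained E' (galoisClosure E) := by
  by_contra hcon
  rw [not_or] at hcon
  obtain ⟨h1, h2⟩ := hcon
  unfold NotContained at h1 h2
  push Not at h1 h2
  obtain ⟨σ, hσ⟩ := h1
  obtain ⟨τ, hτ⟩ := h2
  have key : ∀ {F F' : Type} [Field F] [NumberField F] [IsCMField F] [Field F'] [NumberField F']
      [IsCMField F'] {σ : F →+* Qb}, (∀ x, σ x ∈ galoisClosure F') →
      galoisClosure F ≤ galoisClosure F' := by
    intro F F' _ _ _ _ _ _ σ hσ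
    refine iSup_le fun ρ => ?_
    rintro _ ⟨x, rfl⟩
    obtain ⟨g, hg⟩ := exists_act_eq σ ρ.toRingHom
    have h3 := stable_closure F' g _ (hσ x)
    have h4 : g (σ x) = ρ x := RingHom.congr_fun hg x
    change ρ x ∈ galoisClosure F'
    rw [← h4]
    exact h3
  exact h (le_antisymm (key hσ) (key hτ))

theorem famOK_of_good (hE : ∀ i, IsGoodField (E i))
    (hne : ∀ i j, i ≠ j → galoisClosure (E i) ≠ galoisClosure (E j))
    (hu : ∀ i (φ : E i →+* ℂ), ‖φ (α i)‖ = 1)
    (hns : ∀ i, ∃ σ : E i →+* Qb, ‖ι (σ (α i))‖ ≠ 1) :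
    FamOK ι α {L | IsStable L ∧ ∀ i, NotContained (E i) L} where
  unitary := hu
  free i := free_of_irreducible (irreducible_of_good (hE i)) (hu i) (hns i)
  stable L hL := hL.1
  fields i L hL := noInv_of_irreducible (irreducible_of_good (hE i)) hL.1 (hL.2 i)
  pair i j hij := by
    rcases exists_notMem_closure (hne i j hij) with h | h
    · exact Or.inl (noInv_of_irreducible (irreducible_of_good (hE i)) (stable_closure _) h)
    · exact Or.inr (noInv_of_irreducible (irreducible_of_good (hE j)) (stable_closure _) h)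

lemma slopes_of_foreign (hU : HasForeignEigenvalues Φ ι E U) (ν : W.K)
    (hν : Module.End.HasEigenvalue (W.map (Φ.Fr U)).toLinearMap ν) :
    IsSlopeProduct ι {L | IsStable L ∧ ∀ i, NotContained (E i) L} ν ∨ HasSmallDegree E ν := by
  rcases hU ν hν with h | ⟨t, l, ht, hl, h⟩
  · exact Or.inr h
  left
  refine ⟨t, l, ht, hl, fun β hβ => ?_⟩
  rcases h β hβ with ⟨L, h1, h2, h3⟩ | ⟨Q, hQ, hQβ, hdeg⟩
  · exact ⟨L, ⟨h1, h2⟩, h3⟩
  · refine ⟨rootField Q, ⟨rootField_stable Q, fun i => ?_⟩, Q, hQ, ?_, hQβ⟩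
    · obtain ⟨ℓ, hℓ, h1, h2⟩ := hdeg i
      exact notContained_rootField hℓ h1 h2
    · intro h hh γ hγ
      rw [hh γ (mem_rootField hQ hγ)]

/-- **The Tate conjecture for products.** -/
theorem final [IsAlgClosed W.K] (hE : ∀ i, IsGoodField (E i))
    (hne : ∀ i j, i ≠ j → galoisClosure (E i) ≠ galoisClosure (E j))
    (hu : ∀ i (φ : E i →+* ℂ), ‖φ (α i)‖ = 1)
    (hns : ∀ i, ∃ σ : E i →+* Qb, ‖ι (σ (α i))‖ ≠ 1)
    (he : ∀ i, 0 < e i) (hX : ∀ i, TateIn Φ ((X i).prod (X i)) (b i))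
    (hZ : IsGeneratedFrom Φ X b e α Z) :
    (∀ c, SemisimpleTateIn Φ Z c) ∧ HomIsNum W Z ∧
    ∀ U : 𝒱.Obj, HasForeignEigenvalues Φ ι E U →
      (HasCycle W Z 0 → (HomIsNum W (Z.prod U) ↔ HomIsNum W U)) ∧ ∀ c,
      (TateIn Φ (Z.prod U) c ↔ ∀ i ≤ c, HasCycle W Z i → TateIn Φ U (c - i)) ∧
      (SemisimpleTateIn Φ (Z.prod U) c ↔
        ∀ i ≤ c, HasCycle W Z i → SemisimpleTateIn Φ U (c - i)) := by
  obtain ⟨h1, h2, h3⟩ := main_small (pairs_of_tate hu he hX) he hZ
    (famOK_of_good hE hne hu hns).triv fun i => irreducible_of_good (hE i)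
  exact ⟨h1, h2, fun U hU => h3 U (slopes_of_foreign hU)⟩

end Pool.Agent.NH33.Ir
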