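import Pool.Agent.NH33.Ir.Defs

/-!
# Varieties whose cohomology is generated by eigenvectors given by several numbers: definitions
-/

set_option autoImplicit false

open CategoryTheory AlgebraicGeometry NumberField

universe u v

namespace Pool.Agent.NH33.Ir

open Pool.Agent.H914 Pool.Agent.H914.VarClass Pool.Agent.H914.VarClass.Obj
  Pool.Agent.H914.WeilCohomology Pool.Agent.H281R3.HT Pool.Agent.W534 Pool.Agent.Y103.Hk

/-- The element `x` of `V` is an eigenvector of some `F s`, `s > 0`, with an eigenvalue `μ` which is,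
up to a root of unity, the `s`-th power of the product of `(p ^ r) ^ (b / 2)` and of an `e`-th root of
`β`: we have `μ ^ (2 e N) = p ^ (r s b e N) β ^ (2 s N)` for some `N > 0`. -/
def IsEigenOf {K H : Type*} [Field K] [Ring H] [Algebra K H] (V : Submodule K H)
    (F : ℕ → H →ₐ[K] H) (p r b e : ℕ) (β : K) (x : H) : Prop :=
  x ∈ V ∧ ∃ (s N : ℕ) (μ : K), 0 < s ∧ 0 < N ∧ F s x = μ • x ∧
    μ ^ (2 * (e * N)) = (p : K) ^ (r * s * (b * (e * N))) * β ^ (2 * (s * N))

/-- The classes in `H^b(X)` which are eigenvectors of a power `F ^ s` of the Frobenius endomorphism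
`F` of `X` (over the field with `q = p ^ Φ.e X` elements), with an eigenvalue which is, up to a root
of unity, the `s`-th power of the product of `q ^ (b / 2)` and of an `e`-th root of `σ α`. -/
def eigenvectors {k : Type u} [Field k] {𝒱 : VarClass k} {ops : CycleOps 𝒱}
    {W : WeilCohomology.{u, v} ops} {p : ℕ} (Φ : FrobSystem W p) (X : 𝒱.Obj) (b e : ℕ)
    {E : Type} [Field E] (α : E) (σ : E →+* W.K) : Set (W.H X) :=
  {x | IsEigenOf (W.gr X b) (fun s => W.map (W534.iter (Φ.Fr X) s)) p (Φ.e X) b e (σ α) x}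

/-- The images under algebraic correspondences from `X` to `Z` of the `eigenvectors`, for all
embeddings. -/
def images {k : Type u} [Field k] {𝒱 : VarClass k} {ops : CycleOps 𝒱}
    {W : WeilCohomology.{u, v} ops} {p : ℕ} (Φ : FrobSystem W p) (X : 𝒱.Obj) (b e : ℕ)
    {E : Type} [Field E] (α : E) (Z : 𝒱.Obj) : Set (W.H Z) :=
  {a | ∃ c ∈ cycleClasses W (X.prod Z), ∃ σ, ∃ x ∈ eigenvectors Φ X b e α σ, a = W.corr c x}

/-- The cohomology algebra of `Z` is generated by the classes of algebraic cycles and by the images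
under algebraic correspondences from the varieties `X i` of the eigenvectors of Frobenius in
`H^{b i}(X i)` given by the conjugates of the numbers `α i`. -/
def IsGeneratedFrom {k : Type u} [Field k] {𝒱 : VarClass k} {ops : CycleOps 𝒱}
    {W : WeilCohomology.{u, v} ops} {p : ℕ} (Φ : FrobSystem W p) {r : ℕ} (X : Fin r → 𝒱.Obj)
    (b e : Fin r → ℕ) {E : Fin r → Type} [∀ i, Field (E i)] (α : ∀ i, E i) (Z : 𝒱.Obj) : Prop :=
  Generates W.K (cycleClasses W Z ∪ ⋃ i, images Φ (X i) (b i) (e i) (α i) Z)

/-- Each eigenvalue of the Frobenius endomorphism of `U` on the cohomology has a degree which is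
smaller than the degrees of the fields `E i` (for example: all Betti numbers of `U` are smaller), or is,
up to a power, a product of numbers which are foreign to the fields `E i`. -/
def HasForeignEigenvalues {k : Type u} [Field k] {𝒱 : VarClass k} {ops : CycleOps 𝒱}
    {W : WeilCohomology.{u, v} ops} {p : ℕ} [Fact p.Prime] (Φ : FrobSystem W p)
    (ι : AlgebraicClosure ℚ →+* PadicAlgCl p) {r : ℕ} (E : Fin r → Type) [∀ i, Field (E i)]
    [∀ i, NumberField (E i)] (U : 𝒱.Obj) : Prop :=
  ∀ ν : W.K, Module.End.HasEigenvalue (W.map (Φ.Fr U)).toLinearMap ν →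
    HasSmallDegree E ν ∨
      ∃ (t : ℕ) (l : List W.K), 0 < t ∧ ν ^ t = l.prod ∧ ∀ β ∈ l, IsForeign ι E β

end Pool.Agent.NH33.Ir
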