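import Pool.Agent.NH33.Ir.Times
import Pool.Agent.Y103.Hk.Main2

/-!
# The Tate conjecture for generated varieties and their products: the general theorem
-/

set_option autoImplicit false
set_option linter.unusedSectionVars false

open CategoryTheory AlgebraicGeometry NumberField
open scoped TensorProduct

universe u v

namespace Pool.Agent.NH33.Ir

open Pool.Agent.H914 Pool.Agent.H914.VarClass Pool.Agent.H914.VarClass.Obj
  Pool.Agent.H914.WeilCohomology Pool.Agent.H281R3.HT Pool.Agent.W552 Pool.Agent.W534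
  Pool.Agent.W458.RK Pool.Agent.W458.MF Pool.Agent.TH132.A Pool.Agent.W536.RR
  Pool.Agent.TH121.KT Pool.Agent.Y103.Hk

variable {k : Type u} [Field k] {𝒱 : VarClass k} {ops : CycleOps 𝒱}
  {W : WeilCohomology.{u, v} ops} {p : ℕ} [Fact p.Prime] {Φ : FrobSystem W p}
  {ι : Qb →+* PadicAlgCl p}
  {r : ℕ} {X : Fin r → 𝒱.Obj} {b e : Fin r → ℕ} {E : Fin r → Type} [∀ i, Field (E i)]
  [∀ i, NumberField (E i)] [∀ i, IsCMField (E i)]
  {α : ∀ i, E i} {Z U : 𝒱.Obj}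

/-- **The conclusion**: if the products of `Z` with all varieties with the property satisfy the Tate
conjecture up to the other factor. -/
theorem main_of_times [IsAlgClosed W.K] {𝓛 : Set (IntermediateField ℚ Qb)}
    (hTT : TateTimesP Φ (IsSlopeProduct ι 𝓛) Z) :
    (∀ c, SemisimpleTateIn Φ Z c) ∧ HomIsNum W Z ∧
    ∀ U : 𝒱.Obj, HasSlopes Φ ι 𝓛 U →
      (HasCycle W Z 0 → (HomIsNum W (Z.prod U) ↔ HomIsNum W U)) ∧ ∀ c,
      (TateIn Φ (Z.prod U) c ↔ ∀ i ≤ c, HasCycle W Z i → TateIn Φ U (c - i)) ∧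
      (SemisimpleTateIn Φ (Z.prod U) c ↔
        ∀ i ≤ c, HasCycle W Z i → SemisimpleTateIn Φ U (c - i)) := by
  have hp := (Fact.out : p.Prime).one_lt
  have hPpow : ∀ (ν : W.K) (n : ℕ), 0 < n → IsSlopeProduct ι 𝓛 ν → IsSlopeProduct ι 𝓛 (ν ^ n) :=
    fun ν n _ h => inM_pow ν n h
  refine ⟨fun c => Y138.TU.semisimple_of_times hp hTT (inM_one _) c,
    homEqNum_of_tateTimesP hp hTT (inM_one _), fun U hU => ⟨fun h0 => ?_, fun c => ?_⟩⟩
  · exact homEqNum_prod_iff (fun z hz => tens_of_tateTimesP hp hTT (inM_one _) hPpow hU hz)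
      (homEqNum_of_tateTimesP hp hTT (inM_one _)) (one_ne_of_hasCycle h0)
  simp only [hasCycle_iff]
  have key : ∀ b, Y138.TU.TateK Φ (Z.prod U) b c ↔
      ∀ i ≤ c, (∃ x, Z.IsCyc i x ∧ ¬ HomEq W x 0) → Y138.TU.TateK Φ U b (c - i) := fun b =>
    Y138.TU.tateK_prod_iff hp hTT (inM_one _) hPpow hU
  refine ⟨?_, ?_⟩
  · rw [Y138.TU.tateIn_iff, key 1]
    simp only [Y138.TU.tateIn_iff]
  · simp only [Y138.TU.semisimple_iff, key]
    constructor
    · intro h i hi hx a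
      exact h a i hi hx
    · intro h a i hi hx
      exact h i hi hx a

/-- **The general theorem.** -/
theorem main_gen [IsAlgClosed W.K] (hP : PairsAlg Φ X b e α) (he : ∀ i, 0 < e i)
    (hZ : IsGeneratedFrom Φ X b e α Z) {𝓛 : Set (IntermediateField ℚ Qb)}
    (H : Triv ι α 𝓛) :
    (∀ c, SemisimpleTateIn Φ Z c) ∧ HomIsNum W Z ∧
    ∀ U : 𝒱.Obj, HasSlopes Φ ι 𝓛 U →
      (HasCycle W Z 0 → (HomIsNum W (Z.prod U) ↔ HomIsNum W U)) ∧ ∀ c,
      (TateIn Φ (Z.prod U) c ↔ ∀ i ≤ c, HasCycle W Z i → TateIn Φ U (c - i)) ∧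
      (SemisimpleTateIn Φ (Z.prod U) c ↔
        ∀ i ≤ c, HasCycle W Z i → SemisimpleTateIn Φ U (c - i)) :=
  main_of_times (tateTimesP_gen hP he hZ H)

end Pool.Agent.NH33.Ir
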