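import Pool.Agent.NH33.Ir.Small
import Pool.Agent.NH33.Ir.Bal

/-!
# Relations with numbers of small degree
-/

set_option autoImplicit false
set_option linter.unusedSectionVars false

namespace Pool.Agent.NH33.Ir

open NumberField Polynomial Module Pool.Agent.TH121.KT Pool.Agent.Y103.Hk Pool.Agent.Y103.Sh
  Pool.Agent.NH33.Nw

variable {r : ℕ} {E : Fin r → Type} [∀ i, Field (E i)] [∀ i, NumberField (E i)]
  [∀ i, IsCMField (E i)] {p : ℕ} [Fact p.Prime] {ι : Qb →+* PadicAlgCl p} {α : ∀ i, E i}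
  {𝓛 : Set (IntermediateField ℚ Qb)}

/-- the exponents are invariant under the stabiliser -/
theorem inv_of_rel (H : Triv ι α 𝓛) {N : ∀ i, (E i →+* Qb) → ℕ} {w : Fin r → ℕ}
    (hw : ∀ i, 0 < w i) {W : ℕ} {ν : Qb} (hν0 : ν ≠ 0) {x₀ : ℚ}
    (hrel : (∏ i, ∏ σ : E i →+* Qb, (σ (α i)) ^ (w i * N i σ)) * ν ^ W = (x₀ : Qb))
    (h : GQ) (hh : h ν = ν) (i : Fin r) (σ : E i →+* Qb) :
    TH121.KT.odd (N i) (act h σ) = TH121.KT.odd (N i) σ := by
  classical
  have hsum : ∀ g : GQ, ∑ i, (w i : ℝ) * FF ι (α i) (N i) g + W * Real.log ‖ι (g ν)‖ =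
      Real.log ‖ι (x₀ : Qb)‖ := by
    intro g
    have h1 := congrArg (fun z => Real.log ‖ι (g z)‖) hrel
    simp only [map_mul, map_pow, map_prod, norm_mul, norm_pow, norm_prod, map_ratCast] at h1
    have hne : ‖ι (g ν)‖ ≠ 0 := by
      rw [norm_ne_zero_iff, ne_eq, map_eq_zero, map_eq_zero]
      exact hν0
    have hne1 : ∀ i (σ : E i →+* Qb), ‖ι (g (σ (α i)))‖ ^ (w i * N i σ) ≠ 0 := fun i σ =>
      pow_ne_zero _ (norm_pos' (H.unitary i) (act g σ)).ne'
    rw [Real.log_mul, Real.log_prod, Real.log_pow] at h1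
    rotate_left
    · intro i _
      exact Finset.prod_ne_zero_iff.2 fun σ _ => hne1 i σ
    · exact Finset.prod_ne_zero_iff.2 fun i _ => Finset.prod_ne_zero_iff.2 fun σ _ => hne1 i σ
    · exact pow_ne_zero _ hne
    rw [map_ratCast, ← h1]
    congr 1
    refine Finset.sum_congr rfl fun i _ => ?_
    rw [Real.log_prod]
    · unfold FF
      rw [Finset.mul_sum]
      refine Finset.sum_congr rfl fun σ _ => ?_
      rw [Real.log_pow]
      push_cast
      ring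
    · intro σ _
      exact hne1 i σ
  let f : ∀ i, (E i →+* Qb) → ℚ := fun i σ => (TH121.KT.odd (N i) σ : ℤ)
  have hf : ∀ i, IsOddFun (f i) := by
    intro i σ
    change ((TH121.KT.odd (N i) (cj σ) : ℤ) : ℚ) = - ((TH121.KT.odd (N i) σ : ℤ) : ℚ)
    rw [odd_cj]
    push_cast
    ring
  have hLg : ∀ i g, Lg ι (α i) (f i) g = 2 * FF ι (α i) (N i) g := by
    intro i g
    rw [← two_FF (H.unitary i) (N i) g]
    unfold Lg
    refine Finset.sum_congr rfl fun σ _ => ?_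
    simp only [f]
    push_cast
    ring
  have hh' : h⁻¹ ν = ν := by
    have h1 : h⁻¹ (h ν) = ν := AlgEquiv.symm_apply_apply h ν
    rwa [hh] at h1
  have h1 := H.zero [] (fun i => (w i : ℚ) • (tl h⁻¹⁻¹ (f i) - f i))
    (fun L hL => absurd hL List.not_mem_nil)
    (fun i => odd_smul (odd_sub (odd_tl (hf i) _) (hf i)) _) (by
      intro g
      change ∑ i, Lg ι (α i) ((w i : ℚ) • (tl h⁻¹⁻¹ (f i) - f i)) g = 0
      have h2 : ∀ i, Lg ι (α i) ((w i : ℚ) • (tl h⁻¹⁻¹ (f i) - f i)) g =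
          2 * ((w i : ℝ) * FF ι (α i) (N i) (g * h⁻¹)) -
            2 * ((w i : ℝ) * FF ι (α i) (N i) g) := by
        intro i
        rw [Lg_smul, Lg_sub, Lg_tl, hLg, hLg]
        push_cast
        ring
      rw [Finset.sum_congr rfl fun i _ => h2 i, Finset.sum_sub_distrib, ← Finset.mul_sum,
        ← Finset.mul_sum]
      have h3 := hsum (g * h⁻¹)
      have h4 := hsum g
      have h5 : (g * h⁻¹) ν = g ν := by
        change g (h⁻¹ ν) = g ν
        rw [hh']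
      rw [h5] at h3
      linarith) i
  have h2 := congrFun h1 σ
  have h3 : (w i : ℚ) * (f i (act h⁻¹⁻¹ σ) - f i σ) = 0 := h2
  have h4 : (w i : ℚ) ≠ 0 := by exact_mod_cast (hw i).ne'
  have h5 := (mul_eq_zero.1 h3).resolve_left h4
  rw [inv_inv] at h5
  have h6 : ((TH121.KT.odd (N i) (act h σ) : ℤ) : ℚ) = ((TH121.KT.odd (N i) σ : ℤ) : ℚ) :=
    sub_eq_zero.1 h5
  exact_mod_cast h6

/-- **Balance**, small degree. -/
theorem balanced_small (H : Triv ι α 𝓛) (hE : ∀ i, OddIrreducible (E i))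
    {N : ∀ i, (E i →+* Qb) → ℕ} {w : Fin r → ℕ} (hw : ∀ i, 0 < w i) {W : ℕ} {ν : Qb}
    (hν : HasSmallDegree E ν) (hν0 : ν ≠ 0) {x₀ : ℚ}
    (hrel : (∏ i, ∏ σ : E i →+* Qb, (σ (α i)) ^ (w i * N i σ)) * ν ^ W = (x₀ : Qb))
    (i : Fin r) (σ : E i →+* Qb) : N i σ = N i (cj σ) := by
  classical
  obtain ⟨Q, hQ, hQν, hdeg⟩ := hν
  by_contra hne
  let f : ∀ i, (E i →+* Qb) → ℚ := fun i σ => (TH121.KT.odd (N i) σ : ℤ)
  have hf : ∀ i, IsOddFun (f i) := by
    intro i σ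
    change ((TH121.KT.odd (N i) (cj σ) : ℤ) : ℚ) = - ((TH121.KT.odd (N i) σ : ℤ) : ℚ)
    rw [odd_cj]
    push_cast
    ring
  have hinv : ∀ h : GQ, h ν = ν → ∀ i σ, f i (act h σ) = f i σ := by
    intro h hh i σ
    change ((TH121.KT.odd (N i) (act h σ) : ℤ) : ℚ) = ((TH121.KT.odd (N i) σ : ℤ) : ℚ)
    rw [inv_of_rel H hw hν0 hrel h hh]
  have hfi : f i ≠ 0 := by
    intro h0
    have h1 := congrFun h0 σ
    change ((TH121.KT.odd (N i) σ : ℤ) : ℚ) = 0 at h1
    have h2 : TH121.KT.odd (N i) σ = 0 := by exact_mod_cast h1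
    unfold TH121.KT.odd at h2
    omega
  have h1 := finrank_le_card (hE i) (X := Cj ν) (fun γ σ => co ν f i σ γ)
    (fun γ σ => co_cj hf i σ γ) (fun g γ => ⟨gact ν g⁻¹ γ, by
      funext τ
      change co ν f i τ (gact ν g⁻¹ γ) = co ν f i (act g τ) γ
      rw [← co_gact hinv g i τ (gact ν g⁻¹ γ)]
      congr 1
      apply Subtype.ext
      rw [gact_val, gact_val]
      exact AlgEquiv.apply_symm_apply g γ.1⟩)
    (x₀ := base ν) (by
      intro h
      apply hfi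
      funext τ
      rw [← co_base hinv i τ]
      exact congrFun h τ)
  have h2 : Fintype.card (Cj ν) ≤ (minpoly ℚ ν).natDegree := by
    rw [← Nat.card_eq_fintype_card, Nat.card_coe_set_eq]
    exact ncard_rootSet_le _ _
  have h3 := natDegree_le_of_dvd (minpoly.dvd ℚ ν hQν) hQ
  have h4 := hdeg i
  omega

/-- **Balance**, small degree, in an algebraically closed field. -/
theorem balanced_small_closed (H : Triv ι α 𝓛) (hE : ∀ i, OddIrreducible (E i))
    {Ω : Type*} [Field Ω] [CharZero Ω] [IsAlgClosed Ω]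
    {N : ∀ i, (E i →+* Ω) → ℕ} {w : Fin r → ℕ} (hw : ∀ i, 0 < w i) {W : ℕ}
    {ν : Ω} (hν : HasSmallDegree E ν) (hν0 : ν ≠ 0) {x₀ : ℚ}
    (hrel : (∏ i, ∏ σ : E i →+* Ω, (σ (α i)) ^ (w i * N i σ)) * ν ^ W = (x₀ : Ω))
    (i : Fin r) (σ : E i →+* Ω) : N i σ = N i (cj σ) := by
  classical
  obtain ⟨Q, hQ, hQν, hdeg⟩ := hν
  let τ : Qb →ₐ[ℚ] Ω := IsAlgClosed.lift
  obtain ⟨ν', hQν', hν'⟩ := exists_root (τ : Qb →+* Ω) hQ hQν
  have hν'' : τ ν' = ν := hν'
  have hbij : ∀ i, Function.Bijective (fun ρ : E i →+* Qb => (τ : Qb →+* Ω).comp ρ) := by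
    intro i
    constructor
    · intro ρ ρ' h
      ext x
      exact τ.injective (RingHom.congr_fun h x)
    · intro σ
      obtain ⟨ρ, hρ⟩ := exists_lift (τ : Qb →+* Ω) σ
      exact ⟨ρ, hρ⟩
  let N' : ∀ i, (E i →+* Qb) → ℕ := fun i ρ => N i ((τ : Qb →+* Ω).comp ρ)
  have hprod : ∏ i, ∏ σ : E i →+* Ω, (σ (α i)) ^ (w i * N i σ) =
      τ (∏ i, ∏ ρ : E i →+* Qb, (ρ (α i)) ^ (w i * N' i ρ)) := by
    rw [map_prod]
    refine Finset.prod_congr rfl fun i _ => ?_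
    rw [map_prod]
    refine (Fintype.prod_equiv (Equiv.ofBijective _ (hbij i)) _ _ fun ρ => ?_).symm
    rw [map_pow]
    rfl
  have hν'0 : ν' ≠ 0 := by
    rintro rfl
    apply hν0
    rw [← hν'', map_zero]
  have hbal := balanced_small H hE (N := N') hw (ν := ν') ⟨Q, hQ, hQν', hdeg⟩ hν'0 (W := W)
    (x₀ := x₀) (by
    refine τ.injective ?_
    change τ (_ * _) = τ _
    rw [map_mul, ← hprod, map_pow, hν'', map_ratCast]
    exact hrel)
  obtain ⟨ρ, rfl⟩ := (hbij i).2 σ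
  exact hbal i ρ

/-- powers -/
lemma small_pow {Ω : Type*} [Field Ω] [CharZero Ω] {ν : Ω} (h : HasSmallDegree E ν) (n : ℕ) :
    HasSmallDegree E (ν ^ n) := by
  obtain ⟨Q, hQ, hQν, hdeg⟩ := h
  have hint : IsIntegral ℚ ν := IsAlgebraic.isIntegral ⟨Q, hQ, hQν⟩
  refine ⟨minpoly ℚ (ν ^ n), minpoly.ne_zero (hint.pow n), minpoly.aeval _ _, fun i => ?_⟩
  refine lt_of_le_of_lt ?_ (hdeg i)
  refine le_trans ?_ (natDegree_le_of_dvd (minpoly.dvd ℚ ν hQν) hQ)
  rw [← IntermediateField.adjoin.finrank hint, ← IntermediateField.adjoin.finrank (hint.pow n)]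
  have : FiniteDimensional ℚ (IntermediateField.adjoin ℚ {ν}) :=
    IntermediateField.adjoin.finiteDimensional hint
  have hle : IntermediateField.adjoin ℚ {ν ^ n} ≤ IntermediateField.adjoin ℚ {ν} := by
    rw [IntermediateField.adjoin_simple_le_iff]
    exact pow_mem (IntermediateField.mem_adjoin_simple_self ℚ ν) n
  exact LinearMap.finrank_le_finrank_of_injective
    (f := (IntermediateField.inclusion hle).toLinearMap) (IntermediateField.inclusion hle).injective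

end Pool.Agent.NH33.Ir
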