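import Pool.Agent.NH33.Ir.Word
import Pool.Agent.NH33.Ir.Bal
import Pool.Agent.Y103.Hk.Times2
import Pool.Agent.Y138.TU.Final

/-!
# The Tate conjecture for generated varieties and their products with other varieties
-/

set_option autoImplicit false
set_option linter.unusedSectionVars false

open CategoryTheory AlgebraicGeometry NumberField Polynomial
open scoped TensorProduct

universe u v

namespace Pool.Agent.NH33.Ir

open Pool.Agent.H914 Pool.Agent.H914.VarClass Pool.Agent.H914.VarClass.Obj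
  Pool.Agent.H914.WeilCohomology Pool.Agent.H281R3.HT Pool.Agent.W552 Pool.Agent.W534
  Pool.Agent.W458.RK Pool.Agent.W458.MF Pool.Agent.TH132.A Pool.Agent.W536.RR
  Pool.Agent.TH121.KT Pool.Agent.Y103.Hk

variable {k : Type u} [Field k] {𝒱 : VarClass k} {ops : CycleOps 𝒱}
  {W : WeilCohomology.{u, v} ops} {p : ℕ} [Fact p.Prime] {Φ : FrobSystem W p}
  {ι : Qb →+* PadicAlgCl p}
  {r : ℕ} {X : Fin r → 𝒱.Obj} {b e : Fin r → ℕ} {E : Fin r → Type} [∀ i, Field (E i)]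
  [∀ i, NumberField (E i)] [∀ i, IsCMField (E i)]
  {α : ∀ i, E i} {Z U : 𝒱.Obj}

open Classical in
/-- the multiplicities -/
noncomputable def mult (L : List (Lt Φ X b e α Z)) (i : Fin r) (σ : E i →+* W.K) : ℕ :=
  (L.map Lt.label).count ⟨i, σ⟩

/-- a product over a list of letters -/
lemma prod_letters (w : Fin r → ℕ) (L : List (Lt Φ X b e α Z)) :
    (L.map fun l => (l.σ (α l.i)) ^ w l.i).prod =
      ∏ i, ∏ σ : E i →+* W.K, (σ (α i)) ^ (w i * mult L i σ) := by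
  classical
  have h1 : (L.map fun l => (l.σ (α l.i)) ^ w l.i) =
      (L.map Lt.label).map fun x : Σ i, (E i →+* W.K) => (x.2 (α x.1)) ^ w x.1 := by
    rw [List.map_map]
    rfl
  rw [h1, Finset.prod_list_map_count, Finset.prod_subset (Finset.subset_univ _),
    Fintype.prod_sigma]
  · refine Finset.prod_congr rfl fun i _ => Finset.prod_congr rfl fun σ _ => ?_
    rw [← pow_mul, mult]
  · intro x _ hx
    rw [List.mem_toFinset] at hx
    rw [List.count_eq_zero_of_not_mem hx, pow_zero]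

/-- **The Tate conjecture for the products of `Z` with all varieties with such slopes.** -/
theorem tateTimesP_gen [IsAlgClosed W.K] (hP : PairsAlg Φ X b e α) (he : ∀ i, 0 < e i)
    (hZ : IsGeneratedFrom Φ X b e α Z) {𝓛 : Set (IntermediateField ℚ Qb)}
    (H : Triv ι α 𝓛) : TateTimesP Φ (IsSlopeProduct ι 𝓛) Z := by
  classical
  intro s hs V _ _ _ G hG c a x hx
  have hp0 : (p : W.K) ≠ 0 := by exact_mod_cast (Fact.out : p.Prime).ne_zero
  have hpq : (p : ℚ) ≠ 0 := by exact_mod_cast (Fact.out : p.Prime).ne_zero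
  have hcard : ∀ t, ((card Φ Z t : ℚ)) ≠ 0 := by
    intro t
    rw [W534.card]
    push_cast
    exact pow_ne_zero _ hpq
  have hQ : ∀ t, (card Φ Z t : W.K) ≠ 0 := fun t => card_ne Φ t
  refine (tensor_killed (F := frob Φ Z s) (G := G) (card Φ Z s : W.K) (hQ s) c
    (fun i => cycSub W Z i) (fun i y hy => cyc_killed Φ hy) ?_ a x).1 hx
  intro μ ν N hN hν hrel
  refine le_trans ?_ algSpan_le_cyc
  intro y hy
  have hνM := hG ν hν
  have hν0 : ν ≠ 0 := by
    rintro rfl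
    rw [mul_zero, zero_pow hN.ne'] at hrel
    exact pow_ne_zero _ (zpow_ne_zero _ (hQ s)) hrel.symm
  obtain ⟨t₀, ht₀, h0⟩ := span_good (span_words hZ y)
  have h1 := h0 s hs
  set T := t₀ * s with hTdef
  have hTs : T = s * t₀ := mul_comm t₀ s
  have h2 : y ∈ Module.End.maxGenEigenspace (frob Φ Z T) (μ ^ t₀) := by
    rw [hTs, frob_mul_eq]
    exact gen_pow_of_gen hy _
  have heig : ∀ v ∈ GoodWords Φ X b e α Z T, ∃ (ω : W.K) (A : ℤ) (M : ℕ)
      (L : List (Lt Φ X b e α Z)) (C : W.H Z), frob Φ Z T v = ω • v ∧ 0 < M ∧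
      C ∈ algSpan W Z ∧ v = wordVal L * C ∧
      ω ^ (2 * (∏ j, (e j * Φ.e (X j))) * M) = (card Φ Z T : W.K) ^ A *
        ∏ i, ∏ σ : E i →+* W.K, (σ (α i)) ^ (expo Φ X e Z T M i * mult L i σ) := by
    rintro v ⟨L, j, M, c, hM, hc, hL, hcyc, rfl⟩
    obtain ⟨ω, A, h3, h4⟩ := word_eigen L hL
    refine ⟨ω * (card Φ Z T : W.K) ^ j, A + (j * (2 * (∏ j, (e j * Φ.e (X j))) * M) : ℕ), M, L,
      W.cl Z c, ?_, hM, cl_mem_algSpan hc, rfl, ?_⟩
    · rw [frob_mul_apply, h3, hcyc, smul_mul_smul_comm]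
    · rw [mul_pow, h4, prod_letters, zpow_add₀ (hQ T), zpow_natCast, ← pow_mul]
      ring
  have h3 := mem_span_gen (T := frob Φ Z T) (fun v hv => by
    obtain ⟨ω, _, _, _, _, h, _⟩ := heig v hv
    exact ⟨ω, eig_mem_gen h⟩) h1 h2
  refine (Submodule.span_le (p := algSpan W Z)).2 ?_ h3
  rintro v ⟨hv, hvμ⟩
  by_cases hv0 : v = 0
  · rw [hv0]
    exact Submodule.zero_mem _
  obtain ⟨ω, A, M, Lw, C, h4, hM, hC, hvL, h5⟩ := heig v hv
  have h6 : ω = μ ^ t₀ := eq_of_mem_gen (eig_mem_gen h4) hvμ hv0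
  -- the relation
  let E' : ℕ := 2 * (∏ j, (e j * Φ.e (X j))) * M
  have hE : 0 < E' := Nat.mul_pos (Nat.mul_pos two_pos (Finset.prod_pos fun j _ =>
    Nat.mul_pos (he j) (Φ.e_pos _))) hM
  let w : Fin r → ℕ := expo Φ X e Z T M
  have hTpos : 0 < T := Nat.mul_pos ht₀ hs
  have hw : ∀ i, 0 < w i := fun i => Nat.mul_pos (Nat.mul_pos (Nat.mul_pos two_pos
    (Nat.mul_pos hTpos (Φ.e_pos _))) hM) (Finset.prod_pos fun j _ =>
    Nat.mul_pos (he j) (Φ.e_pos _))
  let x₀ : ℚ := ((card Φ Z s : ℚ) ^ c) ^ (N * (t₀ * E')) * (((card Φ Z T : ℚ) ^ A) ^ N)⁻¹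
  have h7 : (∏ i, ∏ σ : E i →+* W.K, (σ (α i)) ^ (N * w i * mult Lw i σ)) *
      ν ^ (N * (t₀ * E')) = (x₀ : W.K) := by
    have h8 : (μ * ν) ^ (N * (t₀ * E')) = ((card Φ Z s : W.K) ^ c) ^ (N * (t₀ * E')) := by
      rw [pow_mul, hrel, ← pow_mul]
    have h9 : μ ^ (N * (t₀ * E')) = ((card Φ Z T : W.K) ^ A) ^ N *
        ∏ i, ∏ σ : E i →+* W.K, (σ (α i)) ^ (N * w i * mult Lw i σ) := by
      have h90 : ∏ i, ∏ σ : E i →+* W.K, (σ (α i)) ^ (N * w i * mult Lw i σ) =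
          (∏ i, ∏ σ : E i →+* W.K, (σ (α i)) ^ (w i * mult Lw i σ)) ^ N := by
        rw [← Finset.prod_pow]
        refine Finset.prod_congr rfl fun i _ => ?_
        rw [← Finset.prod_pow]
        refine Finset.prod_congr rfl fun σ _ => ?_
        rw [← pow_mul]
        congr 1
        ring
      rw [h90, ← mul_pow, ← h5, h6, ← pow_mul, ← pow_mul]
      congr 1
      simp only [E']
      ring
    rw [mul_pow, h9] at h8
    have h10 : (x₀ : W.K) = ((card Φ Z s : W.K) ^ c) ^ (N * (t₀ * E')) *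
        (((card Φ Z T : W.K) ^ A) ^ N)⁻¹ := by
      simp only [x₀]
      push_cast
      rfl
    have h11 : ((card Φ Z T : W.K) ^ A) ^ N ≠ 0 := pow_ne_zero _ (zpow_ne_zero _ (hQ T))
    rw [h10, ← h8]
    generalize ((card Φ Z T : W.K) ^ A) ^ N = B at h11
    field_simp
  have hbal := balanced_closed H (N := mult Lw) (w := fun i => N * w i)
    (fun i => Nat.mul_pos hN (hw i)) hνM hν0 h7
  rw [hvL]
  refine algSpan_mul (balanced_alg hP Lw.length Lw le_rfl ?_) hC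
  rintro ⟨i, σ⟩
  have h12 := hbal i σ
  unfold mult at h12
  exact h12

/-- an eigenvector at a good level -/
lemma eigen_level {X : 𝒱.Obj} {b e : ℕ} {E : Type} [Field E] {α : E} {σ : E →+* W.K} {x : W.H X}
    (hx : x ∈ eigenvectors Φ X b e α σ) : ∃ s, 0 < s ∧ ∀ t, 0 < t → ∃ (N : ℕ) (μ : W.K), 0 < N ∧
      frob Φ X (s * t) x = μ • x ∧
      μ ^ (2 * (e * N)) = (card Φ X (s * t) : W.K) ^ (b * (e * N)) * (σ α) ^ (2 * (s * t * N)) := by
  obtain ⟨-, s, N, μ, hs, hN, hμ, hrel⟩ := hx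
  refine ⟨s, hs, fun t ht => ⟨N, μ ^ t, hN, ?_, ?_⟩⟩
  · rw [frob_mul_eq]
    clear hrel ht
    induction t with
    | zero => rw [pow_zero, pow_zero, one_smul]; rfl
    | succ t ih =>
      rw [pow_succ', Module.End.mul_apply, ih, map_smul]
      change μ ^ t • W.map (W534.iter (Φ.Fr X) s) x = _
      rw [hμ, smul_smul, pow_succ]
  · rw [← pow_mul, mul_comm t, pow_mul, hrel, mul_pow, ← pow_mul, ← pow_mul, W534.card,
      Nat.cast_pow, ← pow_mul]
    congr 2 <;> ring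

/-- **The Tate conjecture for the squares of the pieces.** -/
theorem pairs_of_tate (hu : ∀ i, ∀ φ : E i →+* ℂ, ‖φ (α i)‖ = 1) (he : ∀ i, 0 < e i)
    (h : ∀ i, TateIn Φ ((X i).prod (X i)) (b i)) : PairsAlg Φ X b e α := by
  intro i σ x y hx hy
  have hσ : σ (α i) ≠ 0 := by
    rw [ne_eq, map_eq_zero]
    exact TH121.KT.alpha_ne (hu i)
  obtain ⟨s₁, hs₁, h1⟩ := eigen_level hx
  obtain ⟨s₂, hs₂, h2⟩ := eigen_level hy
  obtain ⟨a₁, b₁, ha₁, hb₁, hab₁, hf1⟩ := frob_comm Φ (fst (X i) (X i))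
  obtain ⟨a₂, b₂, ha₂, hb₂, hab₂, hf2⟩ := frob_comm Φ (snd (X i) (X i))
  -- the level on `X`
  have hlev : b₁ * (a₂ * (s₁ * s₂)) = b₂ * (a₁ * (s₁ * s₂)) := by
    have h3 : b₁ * a₂ * Φ.e (X i) = b₂ * a₁ * Φ.e (X i) := by
      calc b₁ * a₂ * Φ.e (X i) = a₂ * (b₁ * Φ.e (X i)) := by ring
        _ = a₂ * (a₁ * Φ.e ((X i).prod (X i))) := by rw [hab₁]
        _ = a₁ * (a₂ * Φ.e ((X i).prod (X i))) := by ring
        _ = b₂ * a₁ * Φ.e (X i) := by rw [hab₂]; ring
    have h4 := Nat.eq_of_mul_eq_mul_right (Φ.e_pos (X i)) h3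
    calc b₁ * (a₂ * (s₁ * s₂)) = b₁ * a₂ * (s₁ * s₂) := by ring
      _ = _ := by rw [h4]; ring
  set M := b₁ * (a₂ * (s₁ * s₂)) with hM
  have hMpos : 0 < M := by positivity
  obtain ⟨N, μ, hN, hμ, hrel⟩ := h1 (b₁ * (a₂ * s₂)) (by positivity)
  obtain ⟨N', μ', hN', hμ', hrel'⟩ := h2 (b₁ * (a₂ * s₁)) (by positivity)
  rw [show s₁ * (b₁ * (a₂ * s₂)) = M by rw [hM]; ring] at hμ hrel
  rw [show s₂ * (b₁ * (a₂ * s₁)) = M by rw [hM]; ring] at hμ' hrel'
  set T := a₁ * a₂ * (s₁ * s₂) with hT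
  have hTpos : 0 < T := by positivity
  have hTM : Φ.e ((X i).prod (X i)) * T = Φ.e (X i) * M := by
    calc Φ.e ((X i).prod (X i)) * T = (a₁ * Φ.e ((X i).prod (X i))) * (a₂ * (s₁ * s₂)) := by
          rw [hT]; ring
      _ = Φ.e (X i) * M := by rw [hab₁, hM]; ring
  have hF : frob Φ ((X i).prod (X i)) T (H281R3.HT.ext W x y) =
      (μ * μ') • H281R3.HT.ext W x y := by
    have h3 := hf1 (a₂ * (s₁ * s₂)) x
    have h4 := hf2 (a₁ * (s₁ * s₂)) y
    rw [show a₁ * (a₂ * (s₁ * s₂)) = T by rw [hT]; ring] at h3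
    rw [show a₂ * (a₁ * (s₁ * s₂)) = T by rw [hT]; ring, ← hlev] at h4
    change W.map (W534.iter (Φ.Fr ((X i).prod (X i))) T)
      (W.map (fst (X i) (X i)) x * W.map (snd (X i) (X i)) y) = _
    rw [map_mul, h3, h4]
    change W.map (fst (X i) (X i)) (frob Φ (X i) M x) *
      W.map (snd (X i) (X i)) (frob Φ (X i) M y) = _
    rw [hμ, hμ', map_smul, map_smul, smul_mul_smul_comm]
    rfl
  set e' := e i * N * N' with he'
  have hpow : (μ * μ') ^ (2 * e') = (card Φ (X i) M : W.K) ^ (b i * (2 * e')) := by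
    have h3 : μ ^ (2 * e') = (card Φ (X i) M : W.K) ^ (b i * e') *
        σ (α i) ^ (2 * (M * N * N')) := by
      rw [show 2 * e' = 2 * (e i * N) * N' by rw [he']; ring, pow_mul, hrel, mul_pow, ← pow_mul,
        ← pow_mul]
      congr 2
      · rw [he']; ring
      · ring
    have h4 : μ' ^ (2 * e') = (card Φ (X i) M : W.K) ^ (b i * e') *
        (cj σ (α i)) ^ (2 * (M * N * N')) := by
      rw [show 2 * e' = 2 * (e i * N') * N by rw [he']; ring, pow_mul, hrel', mul_pow, ← pow_mul,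
        ← pow_mul]
      congr 2
      · rw [he']; ring
      · ring
    rw [mul_pow, h3, h4, cj_val (hu i), inv_pow]
    have h5 : σ (α i) ^ (2 * (M * N * N')) ≠ 0 := pow_ne_zero _ hσ
    have h6 : (card Φ (X i) M : W.K) ^ (b i * (2 * e')) =
        (card Φ (X i) M : W.K) ^ (b i * e') * (card Φ (X i) M : W.K) ^ (b i * e') := by
      rw [← pow_add]
      congr 1
      ring
    rw [h6]
    field_simp
  have he'pos : 0 < e' := Nat.mul_pos (Nat.mul_pos (he i) hN) hN'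
  have hmem : H281R3.HT.ext W x y ∈ W.gr ((X i).prod (X i)) (2 * b i) := by
    have h3 := W.mul_mem (W.map_mem (fst (X i) (X i)) hx.1) (W.map_mem (snd (X i) (X i)) hy.1)
    rwa [← two_mul] at h3
  have h3 := h i (H281R3.HT.ext W x y) ⟨hmem, T * (2 * e'), by positivity, ?_⟩
  · refine (Submodule.span_le.2 ?_ : spanCycles W _ _ ≤ algSpan W _) h3
    rintro _ ⟨_, _, z, hz, rfl⟩
    exact cl_mem_algSpan hz
  · have h4 : ∀ r, frob Φ ((X i).prod (X i)) (T * r) (H281R3.HT.ext W x y) =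
        (μ * μ') ^ r • H281R3.HT.ext W x y := by
      intro r
      rw [frob_mul_eq]
      induction r with
      | zero => rw [pow_zero, pow_zero, one_smul]; rfl
      | succ r ih => rw [pow_succ', Module.End.mul_apply, ih, map_smul, hF, smul_smul, pow_succ]
    have h5 := h4 (2 * e')
    rw [hpow, W534.card, Nat.cast_pow, ← pow_mul] at h5
    rw [frob_apply] at h5
    rw [h5]
    congr 2
    calc Φ.e (X i) * M * (b i * (2 * e')) = (Φ.e (X i) * M) * (2 * e') * b i := by ring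
      _ = _ := by rw [← hTM]; ring

end Pool.Agent.NH33.Ir
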