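import Pool.Agent.NH33.Ir.Main
import Pool.Agent.NH33.Ir.SmallBal
import Pool.Agent.NH33.Nw.Times

/-!
# The general theorem, with numbers of small degree
-/

set_option autoImplicit false
set_option linter.unusedSectionVars false

open CategoryTheory AlgebraicGeometry NumberField
open scoped TensorProduct

universe u v

namespace Pool.Agent.NH33.Ir

open Pool.Agent.H914 Pool.Agent.H914.VarClass Pool.Agent.H914.VarClass.Obj
  Pool.Agent.H914.WeilCohomology Pool.Agent.H281R3.HT Pool.Agent.W552 Pool.Agent.W534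
  Pool.Agent.W458.RK Pool.Agent.W458.MF Pool.Agent.TH132.A Pool.Agent.W536.RR
  Pool.Agent.TH121.KT Pool.Agent.Y103.Hk Pool.Agent.NH33.Nw

variable {k : Type u} [Field k] {𝒱 : VarClass k} {ops : CycleOps 𝒱}
  {W : WeilCohomology.{u, v} ops} {p : ℕ} [Fact p.Prime] {Φ : FrobSystem W p}
  {ι : Qb →+* PadicAlgCl p}
  {r : ℕ} {X : Fin r → 𝒱.Obj} {b e : Fin r → ℕ} {E : Fin r → Type} [∀ i, Field (E i)]
  [∀ i, NumberField (E i)] [∀ i, IsCMField (E i)]
  {α : ∀ i, E i} {Z U : 𝒱.Obj}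

/-- **The general theorem**, with numbers of small degree. -/
theorem main_small [IsAlgClosed W.K] (hP : PairsAlg Φ X b e α) (he : ∀ i, 0 < e i)
    (hZ : IsGeneratedFrom Φ X b e α Z) {𝓛 : Set (IntermediateField ℚ Qb)}
    (H : Triv ι α 𝓛) (hE : ∀ i, OddIrreducible (E i)) :
    (∀ c, SemisimpleTateIn Φ Z c) ∧ HomIsNum W Z ∧
    ∀ U : 𝒱.Obj, (∀ ν : W.K, Module.End.HasEigenvalue (W.map (Φ.Fr U)).toLinearMap ν →
      IsSlopeProduct ι 𝓛 ν ∨ HasSmallDegree E ν) →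
      (HasCycle W Z 0 → (HomIsNum W (Z.prod U) ↔ HomIsNum W U)) ∧ ∀ c,
      (TateIn Φ (Z.prod U) c ↔ ∀ i ≤ c, HasCycle W Z i → TateIn Φ U (c - i)) ∧
      (SemisimpleTateIn Φ (Z.prod U) c ↔
        ∀ i ≤ c, HasCycle W Z i → SemisimpleTateIn Φ U (c - i)) := by
  obtain ⟨hA, hB, -⟩ := main_gen hP he hZ H
  refine ⟨hA, hB, fun U hU => ?_⟩
  have hp := (Fact.out : p.Prime).one_lt
  let PP : ℕ → W.K → Prop := fun _ ν => IsSlopeProduct ι 𝓛 ν ∨ HasSmallDegree E ν
  have hTT : TateTimesQ Φ PP Z := tateTimesQ_of hP he hZ fun {N w W' d ν x₀} hW hd hw hν hν0 hrel => by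
    have hw0 : ∀ i, 0 < w i := fun i => by
      refine Nat.pos_of_ne_zero fun h => ?_
      have h1 := hw i
      rw [h, zero_mul] at h1
      exact (Nat.mul_pos hW hd).ne h1
    rcases hν with hν | hν
    · exact balanced_closed H hw0 hν hν0 hrel
    · exact balanced_small_closed H hE hw0 hν hν0 hrel
  have h1 : ∀ d : ℕ, PP d (1 : W.K) := fun d => Or.inl (inM_one _)
  have hpow : ∀ (d : ℕ) (ν : W.K) (n : ℕ), 0 < n → PP d ν → PP (d * n) (ν ^ n) :=
    fun d ν n hn h => h.elim (fun h => Or.inl (inM_pow ν n h)) fun h => Or.inr (small_pow h n)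
  have hU' : ∀ ν : W.K, Module.End.HasEigenvalue (W.map (Φ.Fr U)).toLinearMap ν →
      PP (Φ.e U) ν := hU
  refine ⟨fun h0 => ?_, fun c => ?_⟩
  · exact homEqNum_prod_iff (fun z hz => tens_of_tateTimesQ hp hTT h1 hpow hU' hz)
      (homEqNum_of_tateTimesQ hp hTT h1) (one_ne_of_hasCycle h0)
  simp only [hasCycle_iff]
  have key : ∀ b, Y138.TU.TateK Φ (Z.prod U) b c ↔
      ∀ i ≤ c, (∃ x, Z.IsCyc i x ∧ ¬ HomEq W x 0) → Y138.TU.TateK Φ U b (c - i) := fun b =>
    tateK_prod_iffQ hp hTT h1 hpow hU'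
  refine ⟨?_, ?_⟩
  · rw [Y138.TU.tateIn_iff, key 1]
    simp only [Y138.TU.tateIn_iff]
  · simp only [Y138.TU.semisimple_iff, key]
    constructor
    · intro h i hi hx a
      exact h a i hi hx
    · intro h a i hi hx
      exact h i hi hx a

end Pool.Agent.NH33.Ir
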