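import Pool.Agent.NH33.Ir.Defs
import Pool.Agent.Y103.Sh.Arith

/-!
# Relations between the conjugates of several numbers
-/

set_option autoImplicit false
set_option linter.unusedSectionVars false

namespace Pool.Agent.NH33.Ir

open NumberField Polynomial Module Pool.Agent.TH121.KT Pool.Agent.Y103.Hk Pool.Agent.Y103.Sh

section one

variable {p : ℕ} [Fact p.Prime] {ι : Qb →+* PadicAlgCl p} {E : Type} [Field E] [NumberField E]
  [IsCMField E] {α : E}

/-- the slopes of a combination of conjugates -/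
noncomputable def Lg (ι : Qb →+* PadicAlgCl p) (α : E) (f : (E →+* Qb) → ℚ) (g : GQ) : ℝ :=
  ∑ σ : E →+* Qb, (f σ : ℝ) * Real.log ‖ι (g (σ α))‖

/-- the translate of a function -/
noncomputable def tl (h : GQ) (f : (E →+* Qb) → ℚ) : (E →+* Qb) → ℚ := fun σ => f (act h σ)

lemma odd_iff {f : (E →+* Qb) → ℚ} : IsOddFun f ↔ ∀ σ, f (cj σ) = - f σ := Iff.rfl

lemma odd_tl {f : (E →+* Qb) → ℚ} (hf : IsOddFun f) (h : GQ) : IsOddFun (tl h f) := by
  intro σ
  change f (act h (cj σ)) = - f (act h σ)
  rw [act_cj]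
  exact hf _

lemma odd_sub {f f' : (E →+* Qb) → ℚ} (hf : IsOddFun f) (hf' : IsOddFun f') :
    IsOddFun (f - f') := by
  intro σ
  rw [Pi.sub_apply, Pi.sub_apply, hf, hf']
  ring

lemma odd_add {f f' : (E →+* Qb) → ℚ} (hf : IsOddFun f) (hf' : IsOddFun f') :
    IsOddFun (f + f') := by
  intro σ
  rw [Pi.add_apply, Pi.add_apply, hf, hf']
  ring

lemma odd_smul {f : (E →+* Qb) → ℚ} (hf : IsOddFun f) (c : ℚ) : IsOddFun (c • f) := by
  intro σ
  rw [Pi.smul_apply, Pi.smul_apply, hf, smul_neg]

lemma odd_zero : IsOddFun (0 : (E →+* Qb) → ℚ) := by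
  intro σ
  simp

lemma Lg_tl (f : (E →+* Qb) → ℚ) (h g : GQ) : Lg ι α (tl h⁻¹ f) g = Lg ι α f (g * h) := by
  unfold Lg
  refine Fintype.sum_equiv ⟨act h⁻¹, act h, act_act_inv h, act_inv_act h⟩ _ _ fun σ => ?_
  change (f (act h⁻¹ σ) : ℝ) * Real.log ‖ι (g (σ α))‖ =
    (f (act h⁻¹ σ) : ℝ) * Real.log ‖ι ((g * h) (act h⁻¹ σ α))‖
  congr 4
  change g (σ α) = g (act h (act h⁻¹ σ) α)
  rw [act_act_inv]

lemma Lg_sub (f f' : (E →+* Qb) → ℚ) (g : GQ) :
    Lg ι α (f - f') g = Lg ι α f g - Lg ι α f' g := by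
  unfold Lg
  rw [← Finset.sum_sub_distrib]
  refine Finset.sum_congr rfl fun σ _ => ?_
  rw [Pi.sub_apply]
  push_cast
  ring

lemma Lg_add (f f' : (E →+* Qb) → ℚ) (g : GQ) :
    Lg ι α (f + f') g = Lg ι α f g + Lg ι α f' g := by
  unfold Lg
  rw [← Finset.sum_add_distrib]
  refine Finset.sum_congr rfl fun σ _ => ?_
  rw [Pi.add_apply]
  push_cast
  ring

lemma Lg_smul (c : ℚ) (f : (E →+* Qb) → ℚ) (g : GQ) : Lg ι α (c • f) g = c * Lg ι α f g := by
  unfold Lg
  rw [Finset.mul_sum]
  refine Finset.sum_congr rfl fun σ _ => ?_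
  rw [Pi.smul_apply, smul_eq_mul]
  push_cast
  ring

lemma Lg_zero (g : GQ) : Lg ι α (0 : (E →+* Qb) → ℚ) g = 0 := by
  unfold Lg
  simp

/-- There is no nonzero odd function on the embeddings of `E` which is invariant under the
automorphisms over `L`. -/
def NoInv (E : Type) [Field E] [NumberField E] [IsCMField E] (L : IntermediateField ℚ Qb) :
    Prop :=
  ∀ f : (E →+* Qb) → ℚ, IsOddFun f →
    (∀ h : GQ, (∀ x ∈ L, h x = x) → ∀ σ, f (act h σ) = f σ) → f = 0

/-- There are no relations between the conjugates of `α`. -/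
def Free (ι : Qb →+* PadicAlgCl p) (α : E) : Prop :=
  ∀ f : (E →+* Qb) → ℚ, IsOddFun f → (∀ g, Lg ι α f g = 0) → f = 0

/-- integral and rational functions -/
theorem free_of_noRel (h : NoRel ι α) : Free ι α := by
  classical
  intro f hf hL
  obtain ⟨N, hN⟩ := IsLocalization.exist_integer_multiples_of_finset (nonZeroDivisors ℤ)
    (Finset.univ.image f)
  have hN0 : ((N : ℤ) : ℚ) ≠ 0 := by
    have := nonZeroDivisors.ne_zero N.2
    exact_mod_cast this
  have hex : ∀ σ, ∃ m : ℤ, (m : ℚ) = (N : ℤ) * f σ := by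
    intro σ
    obtain ⟨m, hm⟩ := hN (f σ) (Finset.mem_image_of_mem f (Finset.mem_univ σ))
    refine ⟨m, ?_⟩
    rw [Algebra.smul_def] at hm
    simpa using hm
  choose m hm using hex
  have h1 := h.zero m (by
    intro σ
    have h2 : (m (cj σ) : ℚ) = ((- m σ : ℤ) : ℚ) := by
      rw [hm, Int.cast_neg, hm]
      have := hf σ
      change f (cj σ) = - f σ at this
      rw [this]
      ring
    exact_mod_cast h2) (by
    intro g
    have h2 : RR ι α m g = (N : ℤ) * Lg ι α f g := by
      unfold RR Lg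
      rw [Finset.mul_sum]
      refine Finset.sum_congr rfl fun σ _ => ?_
      have h3 : (m σ : ℝ) = ((N : ℤ) : ℝ) * (f σ : ℝ) := by
        have := congrArg (fun x : ℚ => (x : ℝ)) (hm σ)
        push_cast at this
        exact this
      rw [h3]
      ring
    rw [h2, hL, mul_zero])
  funext σ
  have h2 := hm σ
  rw [h1 σ, Int.cast_zero] at h2
  exact (mul_eq_zero.1 h2.symm).resolve_left hN0

/-- the odd function of an embedding -/
noncomputable def dl (σ : E →+* Qb) : (E →+* Qb) → ℚ := by
  classical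
  exact fun τ => (if τ = σ then 1 else 0) - (if τ = cj σ then 1 else 0)

lemma dl_apply [DecidableEq (E →+* Qb)] (σ τ : E →+* Qb) :
    dl σ τ = (if τ = σ then 1 else 0) - (if τ = cj σ then 1 else 0) := by
  unfold dl
  congr 1 <;> congr

lemma cj_ne (σ : E →+* Qb) : cj σ ≠ σ := Y138.KH.cj_ne_self σ

lemma odd_dl (σ : E →+* Qb) : IsOddFun (dl σ) := by
  classical
  intro τ
  change dl σ (cj τ) = - dl σ τ
  rw [dl_apply, dl_apply]
  have h1 : (cj τ = σ) ↔ (τ = cj σ) := by
    constructor
    · rintro rfl; rw [cj_cj]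
    · rintro rfl; rw [cj_cj]
  have h2 : (cj τ = cj σ) ↔ (τ = σ) := by
    constructor
    · intro h
      rw [← cj_cj τ, h, cj_cj]
    · rintro rfl; rfl
  simp only [h1, h2]
  ring

lemma dl_self (σ : E →+* Qb) : dl σ σ = 1 := by
  classical
  rw [dl_apply, if_pos rfl, if_neg (cj_ne σ).symm, sub_zero]

/-- **No invariants**, irreducible representations. -/
theorem noInv_of_irreducible (hE : OddIrreducible E) {L : IntermediateField ℚ Qb}
    (hL : IsStable L) (hEL : NotContained E L) : NoInv E L := by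
  classical
  intro f hf hinv
  let P : Submodule ℚ ((E →+* Qb) → ℚ) :=
    { carrier := {f | IsOddFun f ∧ ∀ h : GQ, (∀ x ∈ L, h x = x) → ∀ σ, f (act h σ) = f σ}
      add_mem' := by
        rintro a b ⟨ha, ha'⟩ ⟨hb, hb'⟩
        exact ⟨odd_add ha hb, fun h hh σ => by rw [Pi.add_apply, Pi.add_apply, ha' h hh, hb' h hh]⟩
      zero_mem' := ⟨odd_zero, fun h hh σ => rfl⟩
      smul_mem' := by
        rintro c a ⟨ha, ha'⟩
        exact ⟨odd_smul ha c, fun h hh σ => by rw [Pi.smul_apply, Pi.smul_apply, ha' h hh]⟩ }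
  rcases hE P (fun f hf => hf.1) (by
    rintro g f ⟨hf, hinv⟩
    refine ⟨odd_tl hf g, fun h hh σ => ?_⟩
    change f (act g (act h σ)) = f (act g σ)
    have h1 := hinv (g * h * g⁻¹) (stable_conj hL hh g) (act g σ)
    rw [← h1, ← act_mul, ← act_mul]
    congr 2
    group) with h | h
  · have h1 : f ∈ P := ⟨hf, hinv⟩
    rw [h] at h1
    exact (Submodule.mem_bot ℚ).1 h1
  · exfalso
    obtain ⟨σ⟩ : Nonempty (E →+* Qb) := ⟨(IsAlgClosed.lift : E →ₐ[ℚ] Qb).toRingHom⟩
    obtain ⟨x, hx⟩ := hEL σ
    apply hx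
    refine mem_of_fixed L fun k hk => ?_
    have h2 : dl σ (act k σ) = 1 := by
      rw [(h _ (odd_dl σ)).2 k hk σ, dl_self]
    rw [dl_apply] at h2
    have h3 : act k σ = σ := by
      by_contra hne
      rw [if_neg hne] at h2
      split_ifs at h2 <;> norm_num at h2
    exact RingHom.congr_fun h3 x

/-- **No invariants**, real intersections. -/
theorem noInv_of_real {L : IntermediateField ℚ Qb} (hL : IsStable L)
    (h : RealIntersection E L) : NoInv E L := by
  intro f hf hinv
  funext σ
  obtain ⟨h', hh', h1⟩ := isConj_iff.1 (isConjOver_of_real hL h σ)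
  have h2 := hinv h' hh' σ
  rw [h1] at h2
  have h3 := hf σ
  change f (cj σ) = - f σ at h3
  rw [h3] at h2
  change f σ = 0
  linarith

/-- **Irreducible representations**: all numbers are free. -/
theorem free_of_irreducible (hE : OddIrreducible E) (hu : ∀ φ : E →+* ℂ, ‖φ α‖ = 1)
    (hne : ∃ σ : E →+* Qb, ‖ι (σ α)‖ ≠ 1) : Free ι α := by
  classical
  intro f hf hL
  let P : Submodule ℚ ((E →+* Qb) → ℚ) :=
    { carrier := {f | IsOddFun f ∧ ∀ g : GQ, Lg ι α f g = 0}
      add_mem' := by
        rintro a b ⟨ha, ha'⟩ ⟨hb, hb'⟩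
        exact ⟨odd_add ha hb, fun g => by rw [Lg_add, ha', hb', add_zero]⟩
      zero_mem' := ⟨odd_zero, fun g => Lg_zero g⟩
      smul_mem' := by
        rintro c a ⟨ha, ha'⟩
        exact ⟨odd_smul ha c, fun g => by rw [Lg_smul, ha', mul_zero]⟩ }
  rcases hE P (fun f hf => hf.1) (by
    rintro g f ⟨hf, hinv⟩
    refine ⟨odd_tl hf g, fun k => ?_⟩
    have h1 := Lg_tl (ι := ι) (α := α) f g⁻¹ k
    rw [inv_inv] at h1
    exact h1.trans (hinv _)) with h | h
  · have h1 : f ∈ P := ⟨hf, hL⟩
    rw [h] at h1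
    exact (Submodule.mem_bot ℚ).1 h1
  · exfalso
    obtain ⟨σ, hσ⟩ := hne
    have h1 := (h _ (odd_dl σ)).2 1
    have h2 : Lg ι α (dl σ) 1 = 2 * Real.log ‖ι (σ α)‖ := by
      unfold Lg
      rw [← Finset.sum_subset (Finset.subset_univ {σ, cj σ})]
      · rw [Finset.sum_pair (cj_ne σ).symm, dl_self]
        have h3 : dl σ (cj σ) = -1 := by
          have := odd_dl σ σ
          change dl σ (cj σ) = - dl σ σ at this
          rw [this, dl_self]
        rw [h3]
        change ((1 : ℚ) : ℝ) * Real.log ‖ι (σ α)‖ + ((-1 : ℚ) : ℝ) * Real.log ‖ι (cj σ α)‖ = _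
        rw [cj_norm hu, Real.log_inv]
        push_cast
        ring
      · intro τ _ hτ
        rw [Finset.mem_insert, Finset.mem_singleton, not_or] at hτ
        rw [dl_apply, if_neg hτ.1, if_neg hτ.2]
        simp
    rw [h2] at h1
    have h3 : Real.log ‖ι (σ α)‖ ≠ 0 :=
      Real.log_ne_zero_of_pos_of_ne_one (norm_pos' hu σ) hσ
    apply h3
    linarith

end one

/-! ### Sums of invariant functions -/

/-- sums of functions which are invariant under the automorphisms over one of the fields -/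
def SumOf : List (IntermediateField ℚ Qb) → (GQ → ℝ) → Prop
  | [], w => ∀ g, w g = 0
  | L :: S, w => ∃ u w', LeftInv L u ∧ SumOf S w' ∧ ∀ g, w g = u g + w' g

lemma SumOf.congr {S : List (IntermediateField ℚ Qb)}
    {w w' : GQ → ℝ} (h : SumOf S w) (hww : ∀ g, w' g = w g) : SumOf S w' := by
  rwa [show w' = w from funext hww]

lemma SumOf.diff (k : GQ) :
    ∀ {S : List (IntermediateField ℚ Qb)} {w : GQ → ℝ}, SumOf S w →
      SumOf S fun g => w (g * k) - w g
  | [], w, hw => fun g => by
    change w (g * k) - w g = 0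
    rw [hw, hw, sub_zero]
  | _ :: _, w, ⟨u, w', h1, h2, h3⟩ =>
    ⟨_, _, h1.diff k, SumOf.diff k h2, fun g => by
      change w (g * k) - w g = (u (g * k) - u g) + (w' (g * k) - w' g)
      rw [h3, h3]
      ring⟩

section fam

variable {r : ℕ} {E : Fin r → Type} [∀ i, Field (E i)] [∀ i, NumberField (E i)]
  [∀ i, IsCMField (E i)] {p : ℕ} [Fact p.Prime] {ι : Qb →+* PadicAlgCl p} {α : ∀ i, E i}

/-- The conditions on a family of numbers and a set of fields. -/
structure FamOK (ι : Qb →+* PadicAlgCl p) (α : ∀ i, E i)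
    (𝓛 : Set (IntermediateField ℚ Qb)) : Prop where
  unitary : ∀ i, ∀ φ : E i →+* ℂ, ‖φ (α i)‖ = 1
  free : ∀ i, Free ι (α i)
  stable : ∀ L ∈ 𝓛, IsStable L
  fields : ∀ i, ∀ L ∈ 𝓛, NoInv (E i) L
  pair : ∀ i j, i ≠ j → NoInv (E i) (galoisClosure (E j)) ∨ NoInv (E j) (galoisClosure (E i))

variable {𝓛 : Set (IntermediateField ℚ Qb)}

lemma fix_closure {E : Type} [Field E] [NumberField E] [IsCMField E] {h : GQ}
    (hh : ∀ x ∈ galoisClosure E, h x = x) (σ : E →+* Qb) : act h σ = σ := by
  ext x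
  exact hh _ (mem_closure σ x)

/-- **The relations between the conjugates of several numbers are trivial.** -/
theorem zero_fam (H : FamOK ι α 𝓛) : ∀ (m : ℕ) (S : List (IntermediateField ℚ Qb))
    (f : ∀ i, (E i →+* Qb) → ℚ), (∀ L ∈ S, L ∈ 𝓛) →
    S.length + Nat.card {i // f i ≠ 0} ≤ m → (∀ i, IsOddFun (f i)) →
    SumOf S (fun g => ∑ i, Lg ι (α i) (f i) g) → ∀ i, f i = 0 := by
  classical
  intro m
  induction m with
  | zero =>
    intro S f _ hm _ _ i
    by_contra hne
    have h1 : 0 < Nat.card {i // f i ≠ 0} := by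
      rw [Nat.card_eq_fintype_card, Fintype.card_pos_iff]
      exact ⟨⟨i, hne⟩⟩
    omega
  | succ m ih =>
    intro S f hS hm hf hrel i
    by_contra hi
    -- the difference
    have hdiff : ∀ h : GQ, (∀ j, IsOddFun (tl h⁻¹ (f j) - f j)) ∧ ∀ g,
        ∑ j, Lg ι (α j) (tl h⁻¹ (f j) - f j) g =
          (fun g => ∑ i, Lg ι (α i) (f i) g) (g * h) - (fun g => ∑ i, Lg ι (α i) (f i) g) g := by
      intro h
      refine ⟨fun j => odd_sub (odd_tl (hf j) _) (hf j), fun g => ?_⟩
      rw [← Finset.sum_sub_distrib]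
      refine Finset.sum_congr rfl fun j _ => ?_
      rw [Lg_sub, Lg_tl]
    have hsupp : ∀ h : GQ, Nat.card {j // tl h⁻¹ (f j) - f j ≠ 0} ≤ Nat.card {i // f i ≠ 0} := by
      intro h
      rw [Nat.card_eq_fintype_card, Nat.card_eq_fintype_card]
      refine Fintype.card_le_of_injective (fun j => ⟨j.1, fun h0 => j.2 ?_⟩) ?_
      · rw [h0]
        funext σ
        simp [tl]
      · intro a b hab
        have hab' : a.1 = b.1 := congrArg (fun x : {i // f i ≠ 0} => x.1) hab
        exact Subtype.ext hab'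
    rcases S with _ | ⟨L, S⟩
    · -- no fields
      by_cases hone : ∀ j, j ≠ i → f j = 0
      · -- only one number
        apply hi
        refine H.free i (f i) (hf i) fun g => ?_
        have h1 : ∑ j, Lg ι (α j) (f j) g = 0 := hrel g
        rw [Finset.sum_eq_single i (fun j _ hj => by rw [hone j hj, Lg_zero])
          (fun h => absurd (Finset.mem_univ i) h)] at h1
        exact h1
      · push Not at hone
        obtain ⟨j, hji, hj⟩ := hone
        -- the symmetric statement
        have key : ∀ a b, a ≠ b → f a ≠ 0 → f b ≠ 0 → NoInv (E a) (galoisClosure (E b)) →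
            False := by
          intro a b hab ha hb hno
          apply ha
          refine hno (f a) (hf a) fun h hh σ => ?_
          have hinv : ∀ x ∈ galoisClosure (E b), h⁻¹⁻¹ x = x := by
            rw [inv_inv]
            exact hh
          have hbz : tl h⁻¹⁻¹ (f b) - f b = 0 := by
            funext σ
            change f b (act h⁻¹⁻¹ σ) - f b σ = 0
            rw [fix_closure hinv, sub_self]
          have hlt : Nat.card {j // tl h⁻¹⁻¹ (f j) - f j ≠ 0} < Nat.card {i // f i ≠ 0} := by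
            rw [Nat.card_eq_fintype_card, Nat.card_eq_fintype_card]
            refine Fintype.card_lt_of_injective_of_notMem (fun j => ⟨j.1, fun h0 => j.2 ?_⟩) ?_
              (b := ⟨b, hb⟩) ?_
            · rw [h0]
              funext σ
              simp [tl]
            · intro a b hab
              have hab' : a.1 = b.1 := congrArg (fun x : {i // f i ≠ 0} => x.1) hab
              exact Subtype.ext hab'
            · rintro ⟨j, hj⟩
              have h1 : j.1 = b := congrArg Subtype.val hj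
              apply j.2
              rw [h1]
              exact hbz
          have h1 := ih [] (fun j => tl h⁻¹⁻¹ (f j) - f j) (fun L hL => absurd hL List.not_mem_nil)
            (by
              simp only [List.length_nil] at hm ⊢
              omega) (hdiff h⁻¹).1 (by
              refine SumOf.congr (SumOf.diff h⁻¹ hrel) fun g => ?_
              exact (hdiff h⁻¹).2 g) a
          have h2 := congrFun h1 σ
          change f a (act h⁻¹⁻¹ σ) - f a σ = 0 at h2
          rw [inv_inv] at h2
          linarith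
        rcases H.pair i j (Ne.symm hji) with h | h
        · exact key i j (Ne.symm hji) hi hj h
        · exact key j i hji hj hi h
    · -- remove one field
      obtain ⟨u, w', hu, hw', huw⟩ := hrel
      have hL : L ∈ 𝓛 := hS L List.mem_cons_self
      apply hi
      refine H.fields i L hL (f i) (hf i) fun h hh σ => ?_
      have h1 := ih S (fun j => tl h⁻¹⁻¹ (f j) - f j)
        (fun L' hL' => hS L' (List.mem_cons_of_mem _ hL')) (by
          have := hsupp h⁻¹
          rw [List.length_cons] at hm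
          omega) (hdiff h⁻¹).1 (by
          refine SumOf.congr (SumOf.diff h⁻¹ hw') fun g => ?_
          refine ((hdiff h⁻¹).2 g).trans ?_
          change (fun g => ∑ i, Lg ι (α i) (f i) g) (g * h⁻¹) -
            (fun g => ∑ i, Lg ι (α i) (f i) g) g = w' (g * h⁻¹) - w' g
          rw [huw, huw, LeftInv.right (H.stable L hL) hu (inv_fix hh)]
          ring) i
      have h2 := congrFun h1 σ
      change f i (act h⁻¹⁻¹ σ) - f i σ = 0 at h2
      rw [inv_inv] at h2
      linarith

end fam

end Pool.Agent.NH33.Ir
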