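import Pool.Agent.NH33.Pq.Par
import Pool.Agent.NH33.Nw.Core

/-!
# Systems of odd functions which are stable under the Galois group are large
-/

set_option autoImplicit false
set_option linter.unusedSectionVars false

namespace Pool.Agent.NH33.Ir

open NumberField Polynomial Module Pool.Agent.TH121.KT Pool.Agent.Y103.Hk Pool.Agent.Y103.Sh
  Pool.Agent.NH33.Pq Pool.Agent.NH33.Nw

variable {E : Type} [Field E] [NumberField E] [IsCMField E]

/-- **A stable system of odd functions which are not all zero has at least `[E : ℚ]` elements.** -/
theorem finrank_le_card (hE : OddIrreducible E) {X : Type*} [Fintype X]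
    (F : X → ((E →+* Qb) → ℚ)) (hodd : ∀ x, IsOddFun (F x))
    (hstab : ∀ (g : GQ) (x : X), ∃ y, F y = tl g (F x)) {x₀ : X} (hx₀ : F x₀ ≠ 0) :
    finrank ℚ E ≤ Fintype.card X := by
  classical
  obtain ⟨c, hc⟩ := exists_conj
  have hneg : ∀ x, ∃ y, F y = - F x := by
    intro x
    obtain ⟨y, hy⟩ := hstab c x
    refine ⟨y, hy.trans ?_⟩
    funext σ
    change F x (act c σ) = - F x σ
    rw [hc]
    exact hodd x σ
  -- all odd functions are combinations
  let P : Submodule ℚ ((E →+* Qb) → ℚ) := Submodule.span ℚ (Set.range F)
  have hPodd : ∀ f ∈ P, IsOddFun f := by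
    intro f hf
    induction hf using Submodule.span_induction with
    | mem f hf => obtain ⟨x, rfl⟩ := hf; exact hodd x
    | zero => exact odd_zero
    | add a b _ _ ha hb => exact odd_add ha hb
    | smul c a _ ha => exact odd_smul ha c
  have hPst : ∀ g : GQ, ∀ f ∈ P, tl g f ∈ P := by
    intro g f hf
    induction hf using Submodule.span_induction with
    | mem f hf =>
      obtain ⟨x, rfl⟩ := hf
      obtain ⟨y, hy⟩ := hstab g x
      exact Submodule.subset_span ⟨y, hy⟩
    | zero => exact Submodule.zero_mem _
    | add a b _ _ ha hb => exact Submodule.add_mem _ ha hb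
    | smul c a _ ha => exact Submodule.smul_mem _ c ha
  have hPall : ∀ f, IsOddFun f → f ∈ P := by
    rcases hE P hPodd hPst with h | h
    · exfalso
      have h1 : F x₀ ∈ P := Submodule.subset_span ⟨x₀, rfl⟩
      rw [h] at h1
      exact hx₀ ((Submodule.mem_bot ℚ).1 h1)
    · exact h
  obtain ⟨b, hb, hspan, hli⟩ := exists_linearIndependent ℚ (Set.range F)
  have hbfin : b.Finite := (Set.finite_range F).subset hb
  have : Fintype b := hbfin.fintype
  -- the dimension
  obtain ⟨T, hT⟩ := exists_half (E := E)
  have hcardT : finrank ℚ E = 2 * T.card := by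
    have h4 := sum_half hT (F := fun _ => 1) fun _ => rfl
    simp only [Finset.sum_const, Finset.card_univ, mul_one, nsmul_eq_mul] at h4
    rw [← Embeddings.card E Qb]
    exact_mod_cast h4
  have hTb : T.card ≤ Fintype.card b := by
    have h1 : finrank ℚ (Submodule.span ℚ b) = Fintype.card b := finrank_span_set_eq_card hli
      |>.trans (Set.toFinset_card b)
    rw [← h1, hspan]
    let v : T → P := fun σ => ⟨dl σ.1, hPall _ (odd_dl σ.1)⟩
    have hv : LinearIndependent ℚ v := by
      rw [Fintype.linearIndependent_iff]
      intro a ha τ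
      have h2 := congrFun (congrArg Subtype.val ha) τ.1
      rw [AddSubmonoidClass.coe_finsetSum, Finset.sum_apply] at h2
      have h3 : ∀ σ : T, ((a σ • v σ : P) : (E →+* Qb) → ℚ) τ.1 = if σ = τ then a σ else 0 := by
        intro σ
        change a σ * dl σ.1 τ.1 = _
        rw [dl_apply]
        have h4 : τ.1 ≠ cj σ.1 := by
          intro h5
          have h6 := (hT τ.1).1 τ.2
          rw [h5, cj_cj] at h6
          exact h6 σ.2
        rw [if_neg h4]
        by_cases h5 : σ = τ
        · rw [if_pos h5, if_pos (by rw [h5])]
          ring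
        · rw [if_neg h5, if_neg fun h6 => h5 (Subtype.ext h6.symm)]
          ring
      simp only [h3] at h2
      rw [Finset.sum_ite_eq', if_pos (Finset.mem_univ _)] at h2
      exact h2
    have h2 := hv.fintype_card_le_finrank
    rw [Fintype.card_coe] at h2
    exact h2
  -- the negatives
  have hb0 : ∀ v : b, v.1 ≠ 0 := fun v => hli.ne_zero v
  have hbneg : ∀ v w : b, v.1 ≠ - w.1 := by
    intro v w h
    by_cases hvw : v = w
    · rw [hvw] at h
      exact hb0 w (self_eq_neg.1 h)
    · have h1 := hli
      rw [Fintype.linearIndependent_iff] at h1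
      have h2 := h1 (fun z => if z = v then 1 else if z = w then 1 else 0) (by
        have h3 : ∀ z : b, (if z = v then (1 : ℚ) else if z = w then 1 else 0) • z.1 =
            (if z = v then v.1 else 0) + (if z = w then w.1 else 0) := by
          intro z
          by_cases h4 : z = v
          · subst h4
            rw [if_pos rfl, if_pos rfl, if_neg hvw, one_smul, add_zero]
          · by_cases h5 : z = w
            · subst h5
              rw [if_neg h4, if_pos rfl, if_neg h4, if_pos rfl, one_smul, zero_add]
            · rw [if_neg h4, if_neg h5, if_neg h4, if_neg h5, zero_smul, add_zero]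
        rw [Finset.sum_congr rfl fun z _ => h3 z, Finset.sum_add_distrib, Finset.sum_ite_eq',
          Finset.sum_ite_eq', if_pos (Finset.mem_univ _), if_pos (Finset.mem_univ _), h]
        simp) v
      rw [if_pos rfl] at h2
      exact one_ne_zero h2
  choose s hs using fun v : b => hb v.2
  choose n hn using hneg
  let φ : b ⊕ b → X := Sum.elim s (fun v => n (s v))
  have hφ : Function.Injective φ := by
    rintro (v | v) (w | w) h
    · have h1 : v.1 = w.1 := by
        rw [← hs v, ← hs w]
        exact congrArg F h
      exact congrArg Sum.inl (Subtype.ext h1)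
    · exfalso
      refine hbneg v w ?_
      have h1 : F (s v) = F (n (s w)) := congrArg F h
      rw [hn, hs, hs] at h1
      exact h1
    · exfalso
      refine hbneg w v ?_
      have h1 : F (n (s v)) = F (s w) := congrArg F h
      rw [hn, hs, hs] at h1
      exact h1.symm
    · have h1 : F (n (s v)) = F (n (s w)) := congrArg F h
      rw [hn, hn, hs, hs] at h1
      exact congrArg Sum.inr (Subtype.ext (neg_injective h1))
  have h1 := Fintype.card_le_of_injective φ hφ
  rw [Fintype.card_sum] at h1
  omega

end Pool.Agent.NH33.Ir
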