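import Pool.Agent.NH33.Ir.GeoDefs
import Pool.Agent.Y103.Hk.Op
import Pool.Agent.Y138.KC.Gen
import Pool.Agent.W397.MF.PAIR

/-!
# Letters and words
-/

set_option autoImplicit false
set_option linter.unusedSectionVars false

open CategoryTheory AlgebraicGeometry NumberField
open scoped TensorProduct

universe u v

namespace Pool.Agent.NH33.Ir

open Pool.Agent.H914 Pool.Agent.H914.VarClass Pool.Agent.H914.VarClass.Obj
  Pool.Agent.H914.WeilCohomology Pool.Agent.H281R3.HT Pool.Agent.W552 Pool.Agent.W534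
  Pool.Agent.W458.RK Pool.Agent.W458.MF Pool.Agent.TH132.A Pool.Agent.W536.RR
  Pool.Agent.TH121.KT Pool.Agent.Y103.Hk

variable {k : Type u} [Field k] {𝒱 : VarClass k} {ops : CycleOps 𝒱}
  {W : WeilCohomology.{u, v} ops} {p : ℕ} {Φ : FrobSystem W p}
  {r : ℕ} {X : Fin r → 𝒱.Obj} {b e : Fin r → ℕ} {E : Fin r → Type} [∀ i, Field (E i)]
  {α : ∀ i, E i} {Y Z : 𝒱.Obj}

lemma ext_swap' {X Y : 𝒱.Obj} {x : W.H X} {y : W.H Y} {i j : ℕ} (hx : x ∈ W.gr X i)
    (hy : y ∈ W.gr Y j) (h : ext W x y ∈ algSpan W (X.prod Y)) :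
    ext W y x ∈ algSpan W (Y.prod X) := by
  have h1 : ext W y x = (-1 : W.K) ^ (j * i) • W.map (swap Y X) (ext W x y) := by
    rw [ext, ext, map_mul, ← W.map_comp, ← W.map_comp, swap_fst, swap_snd]
    exact W.comm (W.map_mem (fst Y X) hy) (W.map_mem (snd Y X) hx)
  rw [h1]
  exact Submodule.smul_mem _ _ (algSpan_map _ h)

/-- a letter: the image of an eigenvector -/
structure Lt (Φ : FrobSystem W p) (X : Fin r → 𝒱.Obj) (b e : Fin r → ℕ) (α : ∀ i, E i)
    (Z : 𝒱.Obj) where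
  i : Fin r
  j : ℕ
  z : ((X i).prod Z).Cycles
  hz : ((X i).prod Z).IsCyc j z
  σ : E i →+* W.K
  x : W.H (X i)
  hx : x ∈ eigenvectors Φ (X i) (b i) (e i) (α i) σ

namespace Lt

/-- the class -/
noncomputable def val (l : Lt Φ X b e α Z) : W.H Z := W.corr (W.cl _ l.z) l.x

/-- the label -/
def label (l : Lt Φ X b e α Z) : Σ i, (E i →+* W.K) := ⟨l.i, l.σ⟩

lemma val_mem (l : Lt Φ X b e α Z) : ∃ m, l.val ∈ W.gr Z m := by
  have h1 := W.mul_mem (W.cl_mem l.hz) (W.map_mem (fst (X l.i) Z) l.hx.1)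
  have h2 := W.push_mem (snd (X l.i) Z) h1
  rw [dim_prod] at h2
  by_cases h : 2 * (X l.i).dim ≤ 2 * l.j + b l.i
  · refine ⟨2 * l.j + b l.i - 2 * (X l.i).dim, ?_⟩
    rw [show ((2 * l.j + b l.i : ℕ) : ℤ) + 2 * ((Z.dim : ℤ) - (((X l.i).dim + Z.dim : ℕ) : ℤ)) =
      ((2 * l.j + b l.i - 2 * (X l.i).dim : ℕ) : ℤ) by push_cast [Nat.cast_sub h]; ring,
      grZ_natCast] at h2
    exact h2
  · refine ⟨0, ?_⟩
    rw [grZ_of_neg (by push_cast; omega)] at h2
    rw [val, corr_apply, (Submodule.mem_bot _).1 h2]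
    exact Submodule.zero_mem _

/-- the eigenvalue at the level `s` -/
def At (l : Lt Φ X b e α Z) (s M : ℕ) : Prop :=
  ∃ (ω : W.K) (A : ℤ), frob Φ Z s l.val = ω • l.val ∧
    ω ^ (2 * (e l.i * Φ.e (X l.i)) * M) =
      (card Φ Z s : W.K) ^ A * (l.σ (α l.i)) ^ (2 * (s * Φ.e Z) * M)

lemma At.mul {l : Lt Φ X b e α Z} {s M : ℕ} (h : l.At s M) (m : ℕ) : l.At s (M * m) := by
  obtain ⟨ω, A, h1, h2⟩ := h
  refine ⟨ω, A * m, h1, ?_⟩
  rw [← mul_assoc, pow_mul, h2, mul_pow, ← pow_mul, zpow_mul, zpow_natCast,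
    mul_assoc (2 * (s * Φ.e Z)) M m]

lemma exists_at (l : Lt Φ X b e α Z) : ∃ a M : ℕ, 0 < a ∧ 0 < M ∧
    ∀ t, 0 < t → l.At (a * t) M := by
  obtain ⟨i, j, z, hz, σ, x, hx, s, N, μ, hs, hN, hμ, hrel⟩ := l
  obtain ⟨a, b', ha, hb', hab, h⟩ := frob_corr Φ hz
  refine ⟨a * s, N, Nat.mul_pos ha hs, hN, fun t ht => ?_⟩
  have h1 : ∀ m, frob Φ (X i) (s * m) x = μ ^ m • x := by
    intro m
    rw [frob_mul_eq]
    induction m with
    | zero => rw [pow_zero, pow_zero, one_smul]; rfl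
    | succ m ih =>
      rw [pow_succ', Module.End.mul_apply, ih, map_smul]
      change μ ^ m • W.map (W534.iter (Φ.Fr (X i)) s) x = _
      rw [hμ, smul_smul, pow_succ]
  have hcard : (card Φ Z (a * s * t) : W.K) ≠ 0 := card_ne Φ _
  refine ⟨μ ^ (b' * t) * (card Φ Z (a * s * t) : W.K) ^ ((j : ℤ) - (X i).dim),
    (Φ.e (X i) * (b i * (e i * N)) : ℕ) +
      ((j : ℤ) - (X i).dim) * (2 * (e i * Φ.e (X i)) * N : ℕ), ?_, ?_⟩
  · change frob Φ Z (a * s * t) (W.corr (W.cl _ z) x) = _ • W.corr (W.cl _ z) x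
    rw [mul_assoc a s t, h, show b' * (s * t) = s * (b' * t) by ring, h1, map_smul, smul_smul,
      mul_comm]
  change _ = _ * (σ (α i)) ^ (2 * (a * s * t * Φ.e Z) * N)
  rw [mul_pow, zpow_add₀ hcard, zpow_mul, zpow_natCast, zpow_natCast]
  have h2 : (μ ^ (b' * t)) ^ (2 * (e i * Φ.e (X i)) * N) =
      (card Φ Z (a * s * t) : W.K) ^ (Φ.e (X i) * (b i * (e i * N))) *
        (σ (α i)) ^ (2 * (a * s * t * Φ.e Z) * N) := by
    have h3 : b' * t * (2 * (e i * Φ.e (X i)) * N) = 2 * (e i * N) * (b' * Φ.e (X i) * t) := by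
      ring
    rw [← pow_mul, h3, pow_mul, hrel, ← hab, mul_pow, ← pow_mul, ← pow_mul, W534.card,
      Nat.cast_pow, ← pow_mul]
    congr 2
    · ring
    · ring
  rw [h2]
  ring

end Lt

/-- the class of a list of letters -/
noncomputable def wordVal (L : List (Lt Φ X b e α Z)) : W.H Z := (L.map Lt.val).prod

lemma wordVal_nil : wordVal ([] : List (Lt Φ X b e α Z)) = 1 := rfl

lemma wordVal_cons (a : Lt Φ X b e α Z) (L : List (Lt Φ X b e α Z)) :
    wordVal (a :: L) = a.val * wordVal L := by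
  rw [wordVal, List.map_cons, List.prod_cons]
  rfl

lemma wordVal_append (L L' : List (Lt Φ X b e α Z)) :
    wordVal (L ++ L') = wordVal L * wordVal L' := by
  rw [wordVal, List.map_append, List.prod_append]
  rfl

lemma wordVal_mem (L : List (Lt Φ X b e α Z)) : ∃ d, wordVal L ∈ W.gr Z d := by
  induction L with
  | nil => exact ⟨0, W.one_mem Z⟩
  | cons a L ih =>
    obtain ⟨d, hd⟩ := ih
    obtain ⟨m, hm⟩ := a.val_mem
    rw [wordVal_cons]
    exact ⟨_, W.mul_mem hm hd⟩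

/-- moving a letter to the front -/
lemma wordVal_swap (L₁ L₂ : List (Lt Φ X b e α Z)) (a : Lt Φ X b e α Z) :
    ∃ c : W.K, wordVal (L₁ ++ a :: L₂) = c • (a.val * wordVal (L₁ ++ L₂)) := by
  obtain ⟨d, hd⟩ := wordVal_mem L₁
  obtain ⟨m, hm⟩ := a.val_mem
  refine ⟨(-1) ^ (d * m), ?_⟩
  rw [wordVal_append, wordVal_append, wordVal_cons, ← mul_assoc, W.comm hd hm,
    smul_mul_assoc, mul_assoc]

/-- The exterior products of opposite eigenvectors are algebraic. -/
def PairsAlg [∀ i, NumberField (E i)] [∀ i, IsCMField (E i)] (Φ : FrobSystem W p)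
    (X : Fin r → 𝒱.Obj) (b e : Fin r → ℕ) (α : ∀ i, E i) : Prop :=
  ∀ (i : Fin r) (σ : E i →+* W.K) (x y : W.H (X i)),
    x ∈ eigenvectors Φ (X i) (b i) (e i) (α i) σ →
    y ∈ eigenvectors Φ (X i) (b i) (e i) (α i) (cj σ) →
    ext W x y ∈ algSpan W ((X i).prod (X i))

section Alg

variable [∀ i, NumberField (E i)] [∀ i, IsCMField (E i)]

/-- the product of two opposite letters is algebraic -/
lemma pair_alg (hP : PairsAlg Φ X b e α) (a a' : Lt Φ X b e α Z) (h : a'.label = bar a.label) :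
    a.val * a'.val ∈ algSpan W Z := by
  obtain ⟨m, hm⟩ := a'.val_mem
  obtain ⟨i, j, z, hz, σ, x, hx⟩ := a
  obtain ⟨i', j', z', hz', σ', x', hx'⟩ := a'
  have h1 : (⟨i', σ'⟩ : Σ i, (E i →+* W.K)) = ⟨i, cj σ⟩ := h
  obtain rfl : i' = i := congrArg Sigma.fst h1
  have h2 : σ' = cj σ := eq_of_heq (Sigma.mk.inj_iff.1 h1).2
  subst h2
  apply mul_of_ext
  apply ext_corr_left (cl_mem_algSpan hz)
  have h3 : ext W x x' ∈ algSpan W ((X i').prod (X i')) := hP i' σ x x' hx hx'
  exact ext_swap' hm hx.1 (ext_corr_left (cl_mem_algSpan hz') (ext_swap' hx.1 hx'.1 h3))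

open Classical in
/-- balanced words are algebraic -/
lemma balanced_alg (hP : PairsAlg Φ X b e α) : ∀ (m : ℕ) (L : List (Lt Φ X b e α Z)),
      L.length ≤ m → (∀ x, (L.map Lt.label).count x = (L.map Lt.label).count (bar x)) →
        wordVal L ∈ algSpan W Z := by
  have hbne : ∀ x : Σ i, (E i →+* W.K), bar x ≠ x := by
    rintro ⟨i, σ⟩ h
    have h1 : cj σ = σ := by
      have := Sigma.mk.inj_iff.1 h
      exact eq_of_heq this.2
    have h2 : ∀ x : E i, IsCMField.complexConj (E i) x = x := by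
      intro x
      exact σ.injective (RingHom.congr_fun h1 x)
    exact IsCMField.complexConj_ne_one (E i) (AlgEquiv.ext h2)
  intro m
  induction m with
  | zero =>
    intro L hL _
    rw [List.length_eq_zero_iff.1 (Nat.le_zero.1 hL), wordVal_nil]
    exact one_mem_algSpan
  | succ m ih =>
    intro L hL hbal
    rcases L with _ | ⟨a, L⟩
    · rw [wordVal_nil]
      exact one_mem_algSpan
    · have h1 : bar a.label ∈ L.map Lt.label := by
        have h2 := hbal a.label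
        have h3 : 0 < ((a :: L).map Lt.label).count a.label := by
          rw [List.count_pos_iff]
          exact List.mem_cons_self
        rw [h2, List.count_pos_iff, List.map_cons, List.mem_cons] at h3
        rcases h3 with h3 | h3
        · exact absurd h3 (hbne _)
        · exact h3
      obtain ⟨a', hb, hab⟩ := List.mem_map.1 h1
      obtain ⟨L₁, L₂, rfl⟩ := List.append_of_mem hb
      obtain ⟨c, hc⟩ := wordVal_swap L₁ L₂ a'
      rw [wordVal_cons, hc, mul_smul_comm, ← mul_assoc]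
      refine Submodule.smul_mem _ _ (algSpan_mul (pair_alg hP a a' hab) (ih _ ?_ fun x => ?_))
      · rw [List.length_cons, List.length_append, List.length_cons] at hL
        rw [List.length_append]
        omega
      · have h2 := hbal x
        simp only [List.map_cons, List.map_append, List.count_cons, List.count_append,
          beq_iff_eq] at h2 ⊢
        rw [hab] at h2
        have h3 : (bar a.label = x) ↔ (a.label = bar x) := by
          constructor
          · rintro rfl; rw [bar_bar]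
          · intro h; rw [h, bar_bar]
        have h4 : (bar a.label = bar x) ↔ (a.label = x) := by
          constructor
          · intro h; rw [← bar_bar a.label, h, bar_bar]
          · rintro rfl; rfl
        simp only [h3, h4] at h2
        omega

end Alg

/-- the exponents -/
def expo (Φ : FrobSystem W p) (X : Fin r → 𝒱.Obj) (e : Fin r → ℕ) (Z : 𝒱.Obj) (s M : ℕ)
    (i : Fin r) : ℕ :=
  2 * (s * Φ.e Z) * M * ∏ j ∈ Finset.univ.erase i, (e j * Φ.e (X j))

/-- the eigenvalue of a word -/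
lemma word_eigen {s M : ℕ} (L : List (Lt Φ X b e α Z)) (hL : ∀ l ∈ L, l.At s M) :
    ∃ (ω : W.K) (A : ℤ), frob Φ Z s (wordVal L) = ω • wordVal L ∧
      ω ^ (2 * (∏ j, (e j * Φ.e (X j))) * M) = (card Φ Z s : W.K) ^ A *
        (L.map fun l => (l.σ (α l.i)) ^ expo Φ X e Z s M l.i).prod := by
  induction L with
  | nil =>
    refine ⟨1, 0, ?_, ?_⟩
    · rw [wordVal_nil, frob_one, one_smul]
    · rw [one_pow, zpow_zero, List.map_nil, List.prod_nil, mul_one]
  | cons a L ih =>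
    obtain ⟨ω, A, h1, h2⟩ := ih fun l hl => hL l (List.mem_cons_of_mem _ hl)
    obtain ⟨ω', A', h3, h4⟩ := hL a List.mem_cons_self
    let T : ℕ := ∏ j ∈ Finset.univ.erase a.i, (e j * Φ.e (X j))
    have hT : ∏ j, (e j * Φ.e (X j)) = e a.i * Φ.e (X a.i) * T :=
      (Finset.mul_prod_erase Finset.univ (fun j => e j * Φ.e (X j)) (Finset.mem_univ a.i)).symm
    refine ⟨ω' * ω, A' * T + A, ?_, ?_⟩
    · rw [wordVal_cons, frob_mul_apply, h1, h3, smul_mul_smul_comm]
    · rw [mul_pow, h2, List.map_cons, List.prod_cons, zpow_add₀ (card_ne Φ s)]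
      have h5 : 2 * (∏ j, (e j * Φ.e (X j))) * M = 2 * (e a.i * Φ.e (X a.i)) * M * T := by
        rw [hT]; ring
      rw [h5, pow_mul, h4, mul_pow, ← pow_mul, zpow_mul, zpow_natCast]
      change _ = _ * ((a.σ (α a.i)) ^ (2 * (s * Φ.e Z) * M * T) * _)
      ring

/-- a good level for a word -/
lemma word_level (L : List (Lt Φ X b e α Z)) : ∃ a M : ℕ, 0 < a ∧ 0 < M ∧
    ∀ t, 0 < t → ∀ l ∈ L, l.At (a * t) M := by
  induction L with
  | nil => exact ⟨1, 1, one_pos, one_pos, fun t _ l hl => absurd hl List.not_mem_nil⟩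
  | cons b L ih =>
    obtain ⟨a, M, ha, hM, h⟩ := ih
    obtain ⟨a', M', ha', hM', h'⟩ := b.exists_at
    refine ⟨a * a', M * M', Nat.mul_pos ha ha', Nat.mul_pos hM hM', fun t ht l hl => ?_⟩
    rcases List.mem_cons.1 hl with rfl | hl
    · have := (h' (a * t) (Nat.mul_pos ha ht)).mul M
      rwa [show a' * (a * t) = a * a' * t by ring, mul_comm M' M] at this
    · have := (h (a' * t) (Nat.mul_pos ha' ht) l hl).mul M'
      rwa [← mul_assoc] at this

/-- the words -/
def Words (Φ : FrobSystem W p) (X : Fin r → 𝒱.Obj) (b e : Fin r → ℕ) (α : ∀ i, E i)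
    (Z : 𝒱.Obj) : Set (W.H Z) :=
  {v | ∃ (L : List (Lt Φ X b e α Z)) (j : ℕ) (c : Z.Cycles), Z.IsCyc j c ∧
    v = wordVal L * W.cl Z c}

/-- the words which are eigenvectors at the level `s` -/
def GoodWords (Φ : FrobSystem W p) (X : Fin r → 𝒱.Obj) (b e : Fin r → ℕ) (α : ∀ i, E i)
    (Z : 𝒱.Obj) (s : ℕ) : Set (W.H Z) :=
  {v | ∃ (L : List (Lt Φ X b e α Z)) (j M : ℕ) (c : Z.Cycles), 0 < M ∧ Z.IsCyc j c ∧
    (∀ l ∈ L, l.At s M) ∧
    frob Φ Z s (W.cl Z c) = (card Φ Z s : W.K) ^ j • W.cl Z c ∧ v = wordVal L * W.cl Z c}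

/-- a linear combination of words is a combination of good words for a large level -/
lemma span_good {z : W.H Z} (hz : z ∈ Submodule.span W.K (Words Φ X b e α Z)) :
    ∃ t₀, 0 < t₀ ∧ ∀ t, 0 < t → z ∈ Submodule.span W.K (GoodWords Φ X b e α Z (t₀ * t)) := by
  induction hz using Submodule.span_induction with
  | mem v hv =>
    obtain ⟨L, j, c, hc, rfl⟩ := hv
    obtain ⟨a, M, ha, hM, h⟩ := word_level L
    obtain ⟨b, hb, h1⟩ := Φ.cyc hc
    have h1 : frob Φ Z b (W.cl Z c) = (card Φ Z b : W.K) ^ j • W.cl Z c := by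
      rw [card_pow]
      exact h1
    refine ⟨a * b, Nat.mul_pos ha hb, fun t ht => Submodule.subset_span
      ⟨L, j, M, c, hM, hc, ?_, ?_, rfl⟩⟩
    · rw [mul_assoc]
      exact h (b * t) (Nat.mul_pos hb ht)
    · rw [show a * b * t = b * (a * t) by ring]
      exact eig_pow h1 (a * t)
  | zero => exact ⟨1, one_pos, fun t _ => Submodule.zero_mem _⟩
  | add x y _ _ hx hy =>
    obtain ⟨a, ha, h⟩ := hx
    obtain ⟨b, hb, h'⟩ := hy
    refine ⟨a * b, Nat.mul_pos ha hb, fun t ht => Submodule.add_mem _ ?_ ?_⟩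
    · rw [mul_assoc]
      exact h _ (Nat.mul_pos hb ht)
    · rw [show a * b * t = b * (a * t) by ring]
      exact h' _ (Nat.mul_pos ha ht)
  | smul c x _ hx =>
    obtain ⟨a, ha, h⟩ := hx
    exact ⟨a, ha, fun t ht => Submodule.smul_mem _ _ (h t ht)⟩

/-- products of words are words -/
lemma word_mul {x y : W.H Z} (hx : x ∈ Submodule.span W.K (Words Φ X b e α Z))
    (hy : y ∈ Submodule.span W.K (Words Φ X b e α Z)) :
    x * y ∈ Submodule.span W.K (Words Φ X b e α Z) := by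
  have h1 := Submodule.mul_mem_mul hx hy
  rw [Submodule.span_mul_span] at h1
  refine Submodule.span_mono ?_ h1
  rintro _ ⟨a, ⟨L, j, c, hc, rfl⟩, a', ⟨L', j', c', hc', rfl⟩, rfl⟩
  refine ⟨L ++ L', j + j', ops.mul c c', ops.mul_mem hc hc', ?_⟩
  change wordVal L * W.cl Z c * (wordVal L' * W.cl Z c') = _
  rw [wordVal_append, W.cl_mul, mul_assoc, ← mul_assoc (W.cl Z c),
    algSpan_comm (cl_mem_algSpan hc) (wordVal L')]
  simp only [mul_assoc]

/-- **The cohomology is spanned by words.** -/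
theorem span_words (hZ : IsGeneratedFrom Φ X b e α Z) (z : W.H Z) :
    z ∈ Submodule.span W.K (Words Φ X b e α Z) := by
  have hz : z ∈ Algebra.adjoin W.K
      (cycleClasses W Z ∪ ⋃ i, images Φ (X i) (b i) (e i) (α i) Z) := by
    have h : Algebra.adjoin W.K
      (cycleClasses W Z ∪ ⋃ i, images Φ (X i) (b i) (e i) (α i) Z) = ⊤ := hZ
    rw [h]
    exact Algebra.mem_top
  have hone : (1 : W.H Z) ∈ Submodule.span W.K (Words Φ X b e α Z) :=
    Submodule.subset_span ⟨[], 0, Z.V.fundCycle, Z.V.fundCycle_mem, by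
      rw [wordVal_nil, W.cl_fund, mul_one]⟩
  induction hz using Algebra.adjoin_induction with
  | mem v hv =>
    rcases hv with ⟨j, c, hc, rfl⟩ | hv
    · exact Submodule.subset_span ⟨[], j, c, hc, by rw [wordVal_nil, one_mul]⟩
    · obtain ⟨i, hv⟩ := Set.mem_iUnion.1 hv
      obtain ⟨_, ⟨j, c, hc, rfl⟩, σ, x, hx, rfl⟩ := hv
      refine Submodule.subset_span ⟨[⟨i, j, c, hc, σ, x, hx⟩], 0, Z.V.fundCycle,
        Z.V.fundCycle_mem, ?_⟩
      rw [wordVal_cons, wordVal_nil, W.cl_fund, mul_one, mul_one]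
      rfl
  | algebraMap t =>
    rw [Algebra.algebraMap_eq_smul_one]
    exact Submodule.smul_mem _ _ hone
  | add x y _ _ hx hy => exact Submodule.add_mem _ hx hy
  | mul x y _ _ hx hy => exact word_mul hx hy

end Pool.Agent.NH33.Ir
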